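import Pool.Agent.P.MP_263185_co.AL.Defs

/-! Working definitions: residues, arcs, boxes, averages. -/

set_option linter.unusedSectionVars false

namespace Pool.Agent.P.MP_263185_co.AQ

open Finset
open scoped Classical

/-- the parameters -/
structure Par (p q : ℕ) : Prop where
  q2 : 2 ≤ q
  hp : 2 * q < p
  co : Nat.Coprime p q

/-- the indicator of a proposition -/
noncomputable def ind (P : Prop) : ℝ := if P then 1 else 0

/-- the mean over a finite set -/
noncomputable def mn {C : Type} (A : Finset C) (f : C → ℝ) : ℝ := (∑ y ∈ A, f y) / #A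

theorem ind_nonneg (P : Prop) : 0 ≤ ind P := by unfold ind; split_ifs <;> norm_num

theorem ind_le (P : Prop) : ind P ≤ 1 := by unfold ind; split_ifs <;> norm_num

theorem abs_mn_le {C : Type} {A : Finset C} {f : C → ℝ} {B : ℝ} (hB : 0 ≤ B)
    (h : ∀ y ∈ A, |f y| ≤ B) : |mn A f| ≤ B := by
  rcases A.eq_empty_or_nonempty with rfl | e
  · simpa [mn] using hB
  · have : (0 : ℝ) < #A := by exact_mod_cast e.card_pos
    rw [mn, abs_div, abs_of_pos this, div_le_iff₀ this]
    refine (abs_sum_le_sum_abs _ _).trans ((sum_le_sum h).trans ?_)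
    simp [mul_comm]

theorem mn_congr {C : Type} {A : Finset C} {f g : C → ℝ} (h : ∀ y ∈ A, f y = g y) :
    mn A f = mn A g := by rw [mn, mn, sum_congr rfl h]

theorem mn_const {C : Type} {A : Finset C} (h : A.Nonempty) (t : ℝ) : mn A (fun _ => t) = t := by
  have : (0 : ℝ) < #A := by exact_mod_cast h.card_pos
  rw [mn, sum_const, nsmul_eq_mul]; field_simp

theorem mn_add {C : Type} (A : Finset C) (f g : C → ℝ) :
    mn A (fun y => f y + g y) = mn A f + mn A g := by simp only [mn, sum_add_distrib, add_div]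

theorem mn_sub {C : Type} (A : Finset C) (f g : C → ℝ) :
    mn A (fun y => f y - g y) = mn A f - mn A g := by simp only [mn, sum_sub_distrib, sub_div]

theorem mn_mul {C : Type} (A : Finset C) (t : ℝ) (f : C → ℝ) :
    mn A (fun y => t * f y) = t * mn A f := by simp only [mn, ← mul_sum, mul_div_assoc]

theorem mn_mono {C : Type} {A : Finset C} {f g : C → ℝ} (h : ∀ y ∈ A, f y ≤ g y) :
    mn A f ≤ mn A g := div_le_div_of_nonneg_right (sum_le_sum h) (by positivity)

theorem mn_nonneg {C : Type} {A : Finset C} {f : C → ℝ} (h : ∀ y ∈ A, 0 ≤ f y) : 0 ≤ mn A f :=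
  div_nonneg (sum_nonneg h) (by positivity)

/-- Gibbs' inequality -/
theorem gibbs {ι : Type} (s : Finset ι) (P q : ι → ℝ) (hP : ∀ i ∈ s, 0 < P i)
    (hq : ∀ i ∈ s, 0 < q i) (h : ∑ i ∈ s, q i ≤ ∑ i ∈ s, P i) :
    ∑ i ∈ s, P i * Real.log (q i / P i) ≤ 0 := by
  refine le_trans (sum_le_sum (g := fun i => q i - P i) fun i hi => ?_) ?_
  · have h1 := Real.log_le_sub_one_of_pos (div_pos (hq i hi) (hP i hi))
    have h2 := mul_le_mul_of_nonneg_left h1 (hP i hi).le
    rwa [mul_sub, mul_div_cancel₀ _ (hP i hi).ne', mul_one] at h2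
  · rw [sum_sub_distrib]; linarith

/-- a sum of products over an injective family of words -/
theorem sum_prod_le {X ι Z : Type} [Fintype ι] (A : Finset X) (t : X → ι → Z)
    (ht : Function.Injective t) (T : ι → Finset Z) (hT : ∀ y ∈ A, ∀ i, t y i ∈ T i)
    (g : ι → Z → ℝ) (hg : ∀ i z, 0 ≤ g i z) :
    ∑ y ∈ A, ∏ i, g i (t y i) ≤ ∏ i, ∑ z ∈ T i, g i z := by
  rw [prod_univ_sum, ← sum_image (s := A) (g := t) (f := fun w => ∏ i, g i (w i)) ht.injOn]
  exact sum_le_sum_of_subset_of_nonneg (fun w hw => by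
    obtain ⟨y, hy, rfl⟩ := mem_image.1 hw
    exact Fintype.mem_piFinset.2 (hT y hy)) fun w _ _ => prod_nonneg fun i _ => hg i _

section residues
variable {p : ℕ}

/-- the position of `x` counted from `b` -/
def pos (b x : ZMod p) : ℕ := (x - b).val

/-- `x` lies in the arc of length `q` with base `b` -/
def ed (q : ℕ) (b x : ZMod p) : Prop := pos b x < q

/-- the integer lift of `y - x` -/
def lf (x y : ZMod p) : ℤ := (y - x).valMinAbs

/-- confusable residues -/
def cf (q : ℕ) (x y : ZMod p) : Prop := |lf x y| < q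

/-- the triangular kernel -/
noncomputable def k0 (q : ℕ) (x y : ZMod p) : ℝ := if cf q x y then (q - |(lf x y : ℝ)|) / q else 0

/-- the centred position with respect to a base, if there is one -/
noncomputable def sgo (q : ℕ) (o : Option (ZMod p)) (x : ZMod p) : ℝ :=
  o.elim 0 fun a => (pos a x : ℝ) - (q - 1) / 2

/-- the sign of the first two points of an arc -/
noncomputable def eps (r x : ZMod p) : ℝ := if x = r then 1 else if x = r + 1 then -1 else 0

/-- the closed circle relation -/
def circ (p q : ℕ) (x y : ℝ) : Prop := ∃ k : ℤ, |x - y - k| ≤ q / p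

variable {q : ℕ} [NeZero p]

/-- the total mass of a power of the kernel -/
noncomputable def ks (p q : ℕ) [NeZero p] (t : ℝ) : ℝ := ∑ y : ZMod p, k0 q 0 y ^ t

theorem add_pos' (b x : ZMod p) : b + (pos b x : ℕ) = x := by simp [pos]

theorem pos_add (b : ZMod p) {t : ℕ} (h : t < p) : pos b (b + t) = t := by
  simp [pos, ZMod.val_cast_of_lt h]

theorem pos_sub (x : ZMod p) {t : ℕ} (h : t < p) : pos (x - (t : ZMod p)) x = t := by
  simp [pos, ZMod.val_cast_of_lt h]

theorem add_lf (x y : ZMod p) : x + (lf x y : ℤ) = y := by simp [lf]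

theorem lf_self (x : ZMod p) : lf x x = 0 := by simp [lf]

theorem int_eq {z z' : ℤ} (h : (z : ZMod p) = z') (h' : |z - z'| < p) : z = z' := by
  have := (ZMod.intCast_zmod_eq_zero_iff_dvd (z - z') p).1 (by rw [Int.cast_sub, h, sub_self])
  exact sub_eq_zero.1 (Int.eq_zero_of_abs_lt_dvd this h')

theorem lf_eq {x y : ZMod p} {z : ℤ} (h : y = x + z) (h' : 2 * |z| < p) : lf x y = z := by
  rw [lf, ZMod.valMinAbs_spec]
  have := abs_lt.1 (show |z * 2| < p by rw [abs_mul, abs_two]; linarith)
  exact ⟨by rw [h]; ring, this.1, this.2.le⟩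

namespace Par
variable (P : Par p q)
include P

theorem qp : q < p := by have := P.hp; omega

theorem q0 : 0 < q := by have := P.q2; omega

theorem q0' : (0 : ℝ) < q := by exact_mod_cast P.q0

theorem ed_iff {b x : ZMod p} : ed q b x ↔ ∃ t : ℕ, t < q ∧ x = b + t :=
  ⟨fun h => ⟨_, h, (add_pos' b x).symm⟩, fun ⟨t, h, e⟩ => by
    rw [e, ed, pos_add b (h.trans P.qp)]; exact h⟩

theorem ed_add (b : ZMod p) {t : ℕ} (h : t < q) : ed q b (b + t) := P.ed_iff.2 ⟨t, h, rfl⟩

theorem ed_sub (x : ZMod p) {t : ℕ} (h : t < q) : ed q (x - (t : ZMod p)) x := P.ed_iff.2 ⟨t, h, by ring⟩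

theorem ed_self (x : ZMod p) : ed q x x := P.ed_iff.2 ⟨0, P.q0, by simp⟩

theorem ed_succ (x : ZMod p) : ed q x (x + 1) := P.ed_iff.2 ⟨1, P.q2, by simp⟩

theorem lf_eq {x y : ZMod p} {z : ℤ} (h : y = x + z) (h' : |z| ≤ q) : lf x y = z :=
  AQ.lf_eq h (by have := P.hp; omega)

theorem cf_iff {x y : ZMod p} : cf q x y ↔ ∃ z : ℤ, |z| < q ∧ y = x + z :=
  ⟨fun h => ⟨_, h, (add_lf x y).symm⟩, fun ⟨z, h, e⟩ => by rw [cf, P.lf_eq e h.le]; exact h⟩

theorem cf_refl (x : ZMod p) : cf q x x := P.cf_iff.2 ⟨0, by simpa using P.q0, by simp⟩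

theorem lf_symm {x y : ZMod p} (h : cf q x y) : lf y x = -lf x y :=
  P.lf_eq (by rw [Int.cast_neg, ← sub_eq_add_neg, eq_sub_iff_add_eq, add_lf])
    (by rw [abs_neg]; exact h.le)

theorem cf_symm {x y : ZMod p} (h : cf q x y) : cf q y x := by
  rw [cf, P.lf_symm h, abs_neg]; exact h

theorem lf_ed {b x y : ZMod p} (h : ed q b x) (h' : ed q b y) :
    lf x y = (pos b y : ℤ) - pos b x := by
  refine P.lf_eq ?_ ?_
  · have a := add_pos' b x
    have a' := add_pos' b y
    push_cast; linear_combination a - a'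
  · unfold ed at h h'; rw [abs_le]; omega

theorem cf_ed {b x y : ZMod p} (h : ed q b x) (h' : ed q b y) : cf q x y := by
  rw [cf, P.lf_ed h h', abs_lt]; unfold ed at h h'; omega

theorem not_cf {x y : ZMod p} {z : ℤ} (h : y = x + z) (h' : |z| = q) : ¬ cf q x y := by
  rw [cf, P.lf_eq h h'.le, h']; exact lt_irrefl _

theorem ne_succ (x : ZMod p) : x ≠ x + 1 := fun h => by
  have := P.lf_eq (x := x) (y := x) (z := 1) (by simpa using h) (by have := P.q2; simp; omega)
  rw [lf_self] at this; exact zero_ne_one this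

theorem sum_arc (b : ZMod p) (f : ZMod p → ℝ) :
    ∑ z ∈ univ.filter (ed q b), f z = ∑ t ∈ range q, f (b + t) :=
  sum_nbij' (pos b) (fun t => b + t) (fun z h => by simpa [ed] using h)
    (fun t h => by simpa using P.ed_add b (mem_range.1 h)) (fun z _ => add_pos' b z)
    (fun t h => pos_add b ((mem_range.1 h).trans P.qp)) fun z _ => by rw [add_pos']

theorem sum_arc' (x : ZMod p) (f : ZMod p → ℝ) :
    ∑ b ∈ univ.filter (fun b => ed q b x), f b = ∑ t ∈ range q, f (x - t) :=
  sum_nbij' (fun b => pos b x) (fun t => x - t) (fun z h => by simpa [ed] using h)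
    (fun t h => by simpa using P.ed_sub x (mem_range.1 h))
    (fun z _ => by rw [sub_eq_iff_eq_add', eq_comm, add_comm, add_pos'])
    (fun t h => pos_sub x ((mem_range.1 h).trans P.qp))
    fun z _ => by rw [show x - (pos z x : ℕ) = z by
      rw [sub_eq_iff_eq_add', eq_comm, add_comm, add_pos']]

theorem card_arc (b : ZMod p) : #(univ.filter (ed q b)) = q := by
  have := P.sum_arc b fun _ => 1
  simpa using this

theorem card_arc' (x : ZMod p) : #(univ.filter fun b => ed q b x) = q := by
  have := P.sum_arc' x fun _ => 1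
  simpa using this

theorem circ_of_cf {x y : ℝ}
    (h : cf q ((⌊p * x⌋ : ℤ) : ZMod p) ((⌊p * y⌋ : ℤ) : ZMod p)) : circ p q x y := by
  have p0 : (0 : ℝ) < p := by exact_mod_cast NeZero.pos p
  obtain ⟨t, ht, e⟩ := P.cf_iff.1 h
  obtain ⟨k, hk⟩ := (ZMod.intCast_zmod_eq_zero_iff_dvd (⌊p * x⌋ - ⌊p * y⌋ + t) p).1
    (by rw [Int.cast_add, Int.cast_sub, e]; ring)
  refine ⟨k, ?_⟩
  have h1 : ((⌊p * x⌋ : ℤ) : ℝ) - (⌊p * y⌋ : ℤ) + t = p * k := by exact_mod_cast hk
  have h2 : |(t : ℝ)| ≤ q - 1 := by exact_mod_cast (show |t| ≤ (q : ℤ) - 1 by omega)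
  obtain ⟨h3, h4⟩ := abs_le.1 h2
  have a1 := Int.floor_le (p * x)
  have a2 := Int.lt_floor_add_one (p * x)
  have a3 := Int.floor_le (p * y)
  have a4 := Int.lt_floor_add_one (p * y)
  rw [le_div_iff₀ p0, ← abs_of_pos p0, ← abs_mul, abs_le]
  constructor <;> nlinarith

end Par

section arcs
variable {C : Type} (q) (v : C → ZMod p) (A : Finset C)

/-- the values on `A` lie in an arc -/
def arc : Prop := ∃ a, ∀ y ∈ A, ed q a (v y)

/-- a base of such an arc, if there is one -/
noncomputable def ob : Option (ZMod p) := if h : arc q v A then some h.choose else none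

/-- the mean displacement from `y`, if the values lie in an arc -/
noncomputable def ps (y : C) : ℝ := if arc q v A then mn A fun z => (lf (v y) (v z) : ℝ) else 0

variable {q v A}

theorem arc.mono {A' : Finset C} (h : arc q v A) (h' : A' ⊆ A) : arc q v A' :=
  h.imp fun _ e y hy => e y (h' hy)

theorem ob_none : ob q v A = none ↔ ¬ arc q v A := by unfold ob; split_ifs with h <;> simp [h]

theorem ob_some {a : ZMod p} (h : ob q v A = some a) : ∀ y ∈ A, ed q a (v y) := by
  unfold ob at h
  split_ifs at h with e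
  exact Option.some_injective _ h ▸ e.choose_spec

theorem abs_ps_le (P : Par p q) {y : C} (hy : y ∈ A) : |ps q v A y| ≤ q := by
  unfold ps
  split_ifs with h
  · obtain ⟨a, h⟩ := h
    exact abs_mn_le (by positivity) fun z hz => by
      exact_mod_cast (P.cf_ed (h y hy) (h z hz)).le
  · simp

theorem abs_sgo_le {y : C} (hy : y ∈ A) : |sgo q (ob q v A) (v y)| ≤ q / 2 := by
  rcases e : ob q v A with _ | a
  · simp only [sgo, Option.elim, abs_zero]; positivity
  · have h : (pos a (v y) : ℝ) + 1 ≤ q := by exact_mod_cast ob_some e y hy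
    have : (0 : ℝ) ≤ pos a (v y) := by positivity
    simp only [sgo, Option.elim, abs_le]
    constructor <;> linarith

end arcs

section cylinders
variable {C : Type} (q) (Y : Finset C) (cl v : C → ZMod p)

/-- a cell -/
noncomputable def ce (r : ZMod p) : Finset C := Y.filter fun y => cl y = r

/-- the union of `q` consecutive cells -/
noncomputable def bo (r : ZMod p) : Finset C := Y.filter fun y => ed q r (cl y)

/-- cells of nearly equal size -/
def bal (κ : ℝ) : Prop := ∀ r r', (#(ce Y cl r) : ℝ) ≤ (1 + κ) * #(ce Y cl r')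

/-- values in one box are confusable -/
def clq : Prop := ∀ r, ∀ y ∈ bo q Y cl r, ∀ y' ∈ bo q Y cl r, cf q (v y) (v y')

/-- no winding -/
def nwd : Prop := ∀ y : ZMod p → C, (∀ r, y r ∈ ce Y cl r) → ∃ r, cf q (v (y r)) (v (y (r + q)))

/-- the increment -/
noncomputable def dl (y : C) (r : ZMod p) : ℝ :=
  ps q v (bo q Y cl r) y - ps q v (ce Y cl (cl y)) y

/-- its mean over the boxes through a point -/
noncomputable def gm (y : C) : ℝ := (∑ t : Fin q, dl q Y cl v y (cl y - (t : ℕ))) / q

/-- the share of boxes through a point that are no arcs although the cell is -/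
noncomputable def nm (y : C) : ℝ :=
  (∑ t : Fin q, ind (¬ arc q v (bo q Y cl (cl y - (t : ℕ))) ∧ arc q v (ce Y cl (cl y)))) / q

variable {q Y cl}

theorem mem_ce {r : ZMod p} {y : C} : y ∈ ce Y cl r ↔ y ∈ Y ∧ cl y = r := mem_filter

theorem mem_bo {r : ZMod p} {y : C} : y ∈ bo q Y cl r ↔ y ∈ Y ∧ ed q r (cl y) := mem_filter

theorem ce_sub {r r' : ZMod p} (h : ed q r r') : ce Y cl r' ⊆ bo q Y cl r := fun _ hy =>
  mem_bo.2 ⟨(mem_ce.1 hy).1, (mem_ce.1 hy).2 ▸ h⟩

end cylinders

end residues

section cube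
variable {m q : ℕ}

/-- the mean over the cube -/
noncomputable def cE (f : (Fin m → Fin q) → ℝ) : ℝ := (∑ β, f β) / q ^ m

/-- the mean in direction `j` -/
noncomputable def cM (j : Fin m) (f : (Fin m → Fin q) → ℝ) (β : Fin m → Fin q) : ℝ :=
  (∑ t, f (Function.update β j t)) / q

/-- the component of degree one -/
noncomputable def cF (j : Fin m) (f : (Fin m → Fin q) → ℝ) (t : Fin q) : ℝ :=
  cE (fun β => f (Function.update β j t)) - cE f

/-- its weight -/
noncomputable def cW (j : Fin m) (f : (Fin m → Fin q) → ℝ) : ℝ := (∑ t, cF j f t ^ 2) / q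

theorem sum_upd (j : Fin m) (f : (Fin m → Fin q) → Fin q → ℝ) :
    ∑ β, ∑ t, f (Function.update β j t) (β j) = ∑ β, ∑ t, f β t := by
  rw [← Fintype.sum_prod_type', ← Fintype.sum_prod_type']
  exact Equiv.sum_comp (Function.Involutive.toPerm
    (fun ω : (Fin m → Fin q) × Fin q => (Function.update ω.1 j ω.2, ω.1 j)) fun ω => by simp)
    fun ω => f ω.1 ω.2

theorem cE_cM (hq : 0 < q) (j : Fin m) (f : (Fin m → Fin q) → ℝ) : cE (cM j f) = cE f := by
  have : (0 : ℝ) < q := by exact_mod_cast hq
  simp only [cE, cM, ← sum_div]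
  rw [sum_upd j fun β _ => f β]
  simp only [sum_const, card_univ, Fintype.card_fin, nsmul_eq_mul, ← mul_sum]
  field_simp

theorem cM_upd (j : Fin m) (f : (Fin m → Fin q) → ℝ) (β : Fin m → Fin q) (t : Fin q) :
    cM j f (Function.update β j t) = cM j f β := by simp [cM]

end cube

/-- a finite set with two maps to words, the second injective and determined up to confusion by
the first, without winding in one coordinate -/
structure Pre (p q m : ℕ) where
  X : Type
  [fin : Fintype X]
  par : Par p q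
  c : X → Fin m → ZMod p
  s : X → Fin m → ZMod p
  sinj : Function.Injective s
  lip : ∀ x y, (∀ l, cf q (c x l) (c y l)) → ∀ i, cf q (s x i) (s y i)
  nw : ∀ (j : Fin m) (r : ZMod p → X), (∀ t, c (r t) j = t) →
    (∀ l, l ≠ j → ∀ t t', cf q (c (r t) l) (c (r t') l)) →
    ∃ t, ∀ i, cf q (s (r t) i) (s (r (t + q)) i)

attribute [instance] Pre.fin

/-- the same with an injective first map -/
structure Dat (p q m : ℕ) extends Pre p q m where
  cinj : Function.Injective c
  ne : Nonempty X

namespace Pre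
variable {p q m : ℕ} (P : Pre p q m)

/-- the coordinates in which the fibre of `c` through `x` is not constant -/
noncomputable def sp (x : P.X) : Finset (Fin m) :=
  univ.filter fun i => ∃ y, P.c y = P.c x ∧ P.s y i ≠ P.s x i

/-- the points whose first word is confusable with that of `x` -/
noncomputable def nb (x : P.X) : Finset P.X := univ.filter fun y => ∀ l, cf q (P.c x l) (P.c y l)

end Pre

namespace Dat
variable {p q m : ℕ} [NeZero p] (D : Dat p q m)

/-- the first word of `x` lies in the box `b` -/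
def In (x : D.X) (b : Fin m → ZMod p) : Prop := ∀ l, ed q (b l) (D.c x l)

/-- the box through `x` given by the digits `β` -/
def bx (x : D.X) (β : Fin m → Fin q) : Fin m → ZMod p := fun l => D.c x l - (β l : ℕ)

/-- the mean over the points -/
noncomputable def xE (f : D.X → ℝ) : ℝ := (∑ x, f x) / Fintype.card D.X

/-- the mean over incident pairs of a point and a box -/
noncomputable def E (F : D.X → (Fin m → ZMod p) → ℝ) : ℝ :=
  D.xE fun x => cE fun β => F x (D.bx x β)

/-- the deficiency -/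
noncomputable def df : ℝ := m * Real.log p - Real.log (Fintype.card D.X)

/-- the box with a new digit in direction `j` -/
def rs (j : Fin m) (x : D.X) (b : Fin m → ZMod p) (t : Fin q) : Fin m → ZMod p :=
  Function.update b j (D.c x j - (t : ℕ))

/-- the mean over this digit -/
noncomputable def mt (j : Fin m) (F : D.X → (Fin m → ZMod p) → ℝ) (x : D.X)
    (b : Fin m → ZMod p) : ℝ := (∑ t, F x (D.rs j x b t)) / q

/-- the points of a box -/
noncomputable def B (b : Fin m → ZMod p) : Finset D.X := univ.filter fun y => D.In y b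

/-- the points of the box `b` that agree with `x` on `J` -/
noncomputable def A (J : Finset (Fin m)) (x : D.X) (b : Fin m → ZMod p) : Finset D.X :=
  univ.filter fun y => D.In y b ∧ ∀ l ∈ J, D.c y l = D.c x l

/-- the mean logarithm of their number -/
noncomputable def L (J : Finset (Fin m)) : ℝ := D.E fun x b => Real.log #(D.A J x b)

/-- the bases of the image arcs -/
noncomputable def a (b : Fin m → ZMod p) (i : Fin m) : Option (ZMod p) :=
  ob q (fun y => D.s y i) (D.B b)

/-- the number of coordinates without an arc -/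
noncomputable def no (b : Fin m → ZMod p) : ℕ := #(univ.filter fun i => D.a b i = none)

/-- its mean -/
noncomputable def nu : ℝ := D.E fun _ b => D.no b

/-- the centred position in the image arc -/
noncomputable def sg (i : Fin m) (x : D.X) (b : Fin m → ZMod p) : ℝ := sgo q (D.a b i) (D.s x i)

/-- its total second moment -/
noncomputable def v : ℝ := ∑ i, D.E fun x b => D.sg i x b ^ 2

/-- its conditional mean -/
noncomputable def M (J : Finset (Fin m)) (i : Fin m) (x : D.X) (b : Fin m → ZMod p) : ℝ :=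
  mn (D.A J x b) fun y => D.sg i y b

/-- the total second moment of the conditional mean -/
noncomputable def MM (J : Finset (Fin m)) : ℝ := ∑ i, D.E fun x b => D.M J i x b ^ 2

/-- the class lies in an arc -/
def ar (J : Finset (Fin m)) (i : Fin m) (x : D.X) (b : Fin m → ZMod p) : Prop :=
  arc q (fun y => D.s y i) (D.A J x b)

/-- the mean displacement -/
noncomputable def psi (J : Finset (Fin m)) (i : Fin m) (x : D.X) (b : Fin m → ZMod p) : ℝ :=
  ps q (fun y => D.s y i) (D.A J x b) x

/-- its total second moment -/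
noncomputable def ep (J : Finset (Fin m)) : ℝ := ∑ i, D.E fun x b => D.psi J i x b ^ 2

/-- the potential -/
noncomputable def e (J : Finset (Fin m)) : ℝ :=
  ∑ i, D.E fun x b => D.psi J i x b ^ 2 + 3 * q ^ 2 * ind (¬ D.ar J i x b)

/-- the increment -/
noncomputable def del (J : Finset (Fin m)) (i j : Fin m) (x : D.X) (b : Fin m → ZMod p) : ℝ :=
  D.psi J i x b - D.psi (insert j J) i x b

/-- the class becomes an arc -/
noncomputable def nn (J : Finset (Fin m)) (i j : Fin m) (x : D.X) (b : Fin m → ZMod p) : ℝ :=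
  ind (¬ D.ar J i x b ∧ D.ar (insert j J) i x b)

/-- the total increment -/
noncomputable def Dr (J : Finset (Fin m)) : ℝ := ∑ i, ∑ j, D.E fun x b => D.del J i j x b ^ 2

/-- the total number of new arcs -/
noncomputable def Dn (J : Finset (Fin m)) : ℝ := ∑ i, ∑ j, D.E (D.nn J i j)

/-- the loss -/
noncomputable def G (J : Finset (Fin m)) : ℝ :=
  ∑ i, ∑ j, D.E fun x b => D.mt j (D.del J i j) x b ^ 2

/-- the boxes through `x` with the same image -/
noncomputable def Fs (x : D.X) (b : Fin m → ZMod p) : Finset (Fin m → ZMod p) :=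
  univ.filter fun b' => D.In x b' ∧ D.a b' = D.a b

/-- the mean logarithm of their number -/
noncomputable def phi : ℝ := D.E fun x b => Real.log #(D.Fs x b)

/-- the number of incident pairs with the same image -/
noncomputable def V (b : Fin m → ZMod p) : ℕ :=
  ∑ b' ∈ univ.filter fun b' => D.a b' = D.a b, #(D.B b')

/-- the mean distance of two boxes with the same image -/
noncomputable def Ed : ℝ :=
  D.E fun x b => mn (D.Fs x b) fun b' => #(univ.filter fun l => b' l ≠ b l)

/-- the cylinder in direction `j` -/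
noncomputable def Cy (J : Finset (Fin m)) (j : Fin m) (x : D.X) (b : Fin m → ZMod p) : Finset D.X :=
  univ.filter fun y => (∀ l ∈ J, D.c y l = D.c x l) ∧ ∀ l, l ≠ j → ed q (b l) (D.c y l)

/-- balanced cylinders -/
def good (κ : ℝ) (J : Finset (Fin m)) (j : Fin m) (x : D.X) (b : Fin m → ZMod p) : Prop :=
  j ∈ J ∨ bal (D.Cy J j x b) (fun y => D.c y j) κ

/-- the imbalance of the first two cells of a box -/
noncomputable def tau (J : Finset (Fin m)) (j : Fin m) (x : D.X) (b : Fin m → ZMod p) : ℝ :=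
  mn (D.A J x b) fun y => eps (b j) (D.c y j)

/-- the energy -/
noncomputable def En (J : Finset (Fin m)) : ℝ :=
  ∑ i, ∑ j, D.E fun x b => (D.psi J i x b - D.mt j (D.psi J i) x b) ^ 2

/-- the energy in balanced cylinders -/
noncomputable def Eg (κ : ℝ) (J : Finset (Fin m)) : ℝ :=
  ∑ i, ∑ j, D.E fun x b => ind (D.good κ J j x b) * (D.psi J i x b - D.mt j (D.psi J i) x b) ^ 2

/-- the directions that are often unbalanced -/
noncomputable def U (κ : ℝ) (J : Finset (Fin m)) (x : D.X) : Finset (Fin m) :=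
  univ.filter fun j => 1 / 8 ≤ cE fun β => ind (¬ D.good κ J j x (D.bx x β))

/-- the weight of the constant term and of these directions -/
noncomputable def Aw (κ : ℝ) (J : Finset (Fin m)) : ℝ := ∑ i, D.xE fun x =>
  cE (fun β => D.psi J i x (D.bx x β)) ^ 2 + ∑ j ∈ D.U κ J x, cW j fun β => D.psi J i x (D.bx x β)

variable {D}

theorem card_pos : (0 : ℝ) < Fintype.card D.X := by
  have := D.ne
  exact_mod_cast Fintype.card_pos

theorem In_bx (x : D.X) (β : Fin m → Fin q) : D.In x (D.bx x β) := fun l =>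
  D.par.ed_sub _ (β l).2

theorem bx_upd (x : D.X) (j : Fin m) (β : Fin m → Fin q) (t : Fin q) :
    D.bx x (Function.update β j t) = D.rs j x (D.bx x β) t := by
  funext l
  by_cases h : l = j
  · subst h; simp [bx, rs]
  · simp [bx, rs, Function.update_of_ne h]

theorem mt_bx (j : Fin m) (F : D.X → (Fin m → ZMod p) → ℝ) (x : D.X) (β : Fin m → Fin q) :
    D.mt j F x (D.bx x β) = cM j (fun β => F x (D.bx x β)) β := by simp only [mt, cM, bx_upd]

theorem mt_upd (j : Fin m) (F : D.X → (Fin m → ZMod p) → ℝ) (x : D.X) (b : Fin m → ZMod p)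
    (r : ZMod p) : D.mt j F x (Function.update b j r) = D.mt j F x b := by simp [mt, rs]

theorem E_eq (F : D.X → (Fin m → ZMod p) → ℝ) :
    D.E F = (∑ x, ∑ β, F x (D.bx x β)) / (Fintype.card D.X * q ^ m) := by
  rw [E, xE]; simp only [cE]; rw [← sum_div, div_div, mul_comm]

theorem E_mono {F F' : D.X → (Fin m → ZMod p) → ℝ} (h : ∀ x b, D.In x b → F x b ≤ F' x b) :
    D.E F ≤ D.E F' := by
  rw [E_eq, E_eq]
  exact div_le_div_of_nonneg_right (sum_le_sum fun x _ => sum_le_sum fun β _ => h _ _ (In_bx x β))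
    (by positivity)

theorem E_congr {F F' : D.X → (Fin m → ZMod p) → ℝ} (h : ∀ x b, D.In x b → F x b = F' x b) :
    D.E F = D.E F' :=
  le_antisymm (E_mono fun x b i => (h x b i).le) (E_mono fun x b i => (h x b i).ge)

theorem E_add (F F' : D.X → (Fin m → ZMod p) → ℝ) :
    D.E (fun x b => F x b + F' x b) = D.E F + D.E F' := by
  simp only [E_eq, sum_add_distrib, add_div]

theorem E_sub (F F' : D.X → (Fin m → ZMod p) → ℝ) :
    D.E (fun x b => F x b - F' x b) = D.E F - D.E F' := by
  simp only [E_eq, sum_sub_distrib, sub_div]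

theorem E_mul (t : ℝ) (F : D.X → (Fin m → ZMod p) → ℝ) :
    D.E (fun x b => t * F x b) = t * D.E F := by
  simp only [E_eq, ← mul_sum, mul_div_assoc]

theorem E_const (t : ℝ) : D.E (fun _ _ => t) = t := by
  have := card_pos (D := D)
  have := D.par.q0'
  rw [E_eq]; simp; field_simp

theorem E_sum {ι : Type} (S : Finset ι) (F : ι → D.X → (Fin m → ZMod p) → ℝ) :
    D.E (fun x b => ∑ i ∈ S, F i x b) = ∑ i ∈ S, D.E (F i) := by
  simp only [E_eq]
  rw [← sum_div, sum_comm (s := S)]
  congr 1
  exact sum_congr rfl fun x _ => sum_comm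

theorem E_nonneg {F : D.X → (Fin m → ZMod p) → ℝ} (h : ∀ x b, D.In x b → 0 ≤ F x b) :
    0 ≤ D.E F := (E_const (D := D) 0).ge.trans (E_mono h)

theorem E_mt (j : Fin m) (F : D.X → (Fin m → ZMod p) → ℝ) : D.E (D.mt j F) = D.E F := by
  simp only [E, mt_bx]
  exact congrArg D.xE (funext fun x => cE_cM D.par.q0 j fun β => F x (D.bx x β))

theorem mem_B {y : D.X} {b : Fin m → ZMod p} : y ∈ D.B b ↔ D.In y b := by simp [B]

theorem mem_A {J : Finset (Fin m)} {x y : D.X} {b : Fin m → ZMod p} :
    y ∈ D.A J x b ↔ D.In y b ∧ ∀ l ∈ J, D.c y l = D.c x l := by simp [A]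

theorem A_empty (x : D.X) (b : Fin m → ZMod p) : D.A ∅ x b = D.B b := by simp [A, B]

theorem A_sub (J : Finset (Fin m)) (x : D.X) (b : Fin m → ZMod p) : D.A J x b ⊆ D.B b :=
  fun _ h => mem_B.2 (mem_A.1 h).1

theorem A_mono {J J' : Finset (Fin m)} (h : J ⊆ J') (x : D.X) (b : Fin m → ZMod p) :
    D.A J' x b ⊆ D.A J x b := fun _ e => mem_A.2 ⟨(mem_A.1 e).1, fun l hl => (mem_A.1 e).2 l (h hl)⟩

theorem self_mem_A (J : Finset (Fin m)) {x : D.X} {b : Fin m → ZMod p} (h : D.In x b) :
    x ∈ D.A J x b := mem_A.2 ⟨h, fun _ _ => rfl⟩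

theorem A_pos (J : Finset (Fin m)) {x : D.X} {b : Fin m → ZMod p} (h : D.In x b) :
    (0 : ℝ) < #(D.A J x b) := by exact_mod_cast Finset.card_pos.2 ⟨x, self_mem_A J h⟩

theorem A_eq {J : Finset (Fin m)} {x y : D.X} {b : Fin m → ZMod p} (h : y ∈ D.A J x b) :
    D.A J y b = D.A J x b := by
  ext z
  simp only [mem_A] at h ⊢
  exact and_congr_right fun _ => forall₂_congr fun l hl => by rw [h.2 l hl]

theorem cf_of_In {x y : D.X} {b : Fin m → ZMod p} (h : D.In x b) (h' : D.In y b) (i : Fin m) :
    cf q (D.s x i) (D.s y i) := D.lip x y (fun l => D.par.cf_ed (h l) (h' l)) i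

theorem abs_sg_le (i : Fin m) {x : D.X} {b : Fin m → ZMod p} (h : D.In x b) :
    |D.sg i x b| ≤ q / 2 := abs_sgo_le (v := fun y => D.s y i) (mem_B.2 h)

theorem abs_M_le (J : Finset (Fin m)) (i : Fin m) (x : D.X) (b : Fin m → ZMod p) :
    |D.M J i x b| ≤ q / 2 := abs_mn_le (by positivity) fun _ h => abs_sg_le i (mem_A.1 h).1

theorem abs_psi_le (J : Finset (Fin m)) (i : Fin m) {x : D.X} {b : Fin m → ZMod p}
    (h : D.In x b) : |D.psi J i x b| ≤ q := abs_ps_le D.par (self_mem_A J h)

theorem mem_Cy {J : Finset (Fin m)} {j : Fin m} {x y : D.X} {b : Fin m → ZMod p} :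
    y ∈ D.Cy J j x b ↔ (∀ l ∈ J, D.c y l = D.c x l) ∧ ∀ l, l ≠ j → ed q (b l) (D.c y l) := by
  simp [Cy]

theorem Cy_eq {J : Finset (Fin m)} {j : Fin m} {x y : D.X} {b : Fin m → ZMod p}
    (h : y ∈ D.Cy J j x b) (t : ZMod p) :
    D.Cy J j y (Function.update b j t) = D.Cy J j x b := by
  ext z
  simp only [mem_Cy] at h ⊢
  exact and_congr (forall₂_congr fun l hl => by rw [h.1 l hl])
    (forall₂_congr fun l hl => by rw [Function.update_of_ne hl])

theorem self_mem_Cy (J : Finset (Fin m)) (j : Fin m) {x : D.X} {b : Fin m → ZMod p}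
    (h : D.In x b) : x ∈ D.Cy J j x b := mem_Cy.2 ⟨fun _ _ => rfl, fun l _ => h l⟩

theorem In_upd {J : Finset (Fin m)} {j : Fin m} {x y : D.X} {b : Fin m → ZMod p}
    (hy : y ∈ D.Cy J j x b) {r : ZMod p} (h : ed q r (D.c y j)) :
    D.In y (Function.update b j r) := fun l => by
  by_cases e : l = j
  · subst e; simpa using h
  · simpa only [Function.update_of_ne e] using (mem_Cy.1 hy).2 l e

theorem In_rs (j : Fin m) {x : D.X} {b : Fin m → ZMod p} (h : D.In x b) (t : Fin q) :
    D.In x (D.rs j x b t) := In_upd (self_mem_Cy ∅ j h) (D.par.ed_sub _ t.2)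

theorem good_rs (κ : ℝ) (J : Finset (Fin m)) (j : Fin m) {x : D.X} {b : Fin m → ZMod p}
    (h : D.In x b) (t : Fin q) : D.good κ J j x (D.rs j x b t) ↔ D.good κ J j x b := by
  rw [good, good, rs, Cy_eq (self_mem_Cy J j h)]

end Dat

end Pool.Agent.P.MP_263185_co.AQ
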