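import Pool.Agent.P.MP_263185_co.AL.Defs
import Pool.Agent.P.MP_263185_co.AL.SSemi

/-! From the combinatorial core to a point of the asymptotic spectrum of graphs, for every
fraction that is not an integer. -/

namespace Pool.Agent.P.MP_263185_co.AQ

open SimpleGraph AL S33

/-- the combinatorial core: a power of the fraction graph needs exponentially many copies of the
same power of the closed circle graph -/
def THA (p q : ℕ) : Prop := ∃ c : ℝ, 1 < c ∧ ∃ m₀, ∀ m, m₀ ≤ m →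
  ∀ (N : ℕ) (n : (Fin m → ZMod p) → Fin N) (f : (Fin m → ZMod p) → Fin m → ℝ),
    (∀ s t, n s = n t → (∀ j, ∃ k : ℤ, |f s j - f t j - k| ≤ q / p) →
      ∀ i, ∃ z : ℤ, |z| < q ∧ t i = s i + z) → c ^ m ≤ N

/-- equal or adjacent -/
def ofG {V : Type} [Finite V] (G : SimpleGraph V) : CG := ⟨V, fun x y => x = y ∨ G.Adj x y, by
  obtain ⟨n, ⟨e⟩⟩ := Finite.exists_equiv_fin V
  exact ⟨n, e, fun x y h => .inl (e.injective h)⟩⟩

/-- the closed circle graph -/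
def crc (n q : ℕ) (hq : 0 < q) : CG := ⟨ℝ, fun x y => ∃ k : ℤ, |x - y - k| ≤ q / (n + 1 : ℕ),
  n + 1, fun x => ((⌊(n + 1 : ℕ) * x⌋ : ℤ) : ZMod (n + 1)), fun x y h => by
    obtain ⟨k, hk⟩ := (ZMod.intCast_eq_intCast_iff_dvd_sub _ _ (n + 1)).1 h.symm
    have p0 : (0 : ℝ) < (n + 1 : ℕ) := by positivity
    have q1 : (1 : ℝ) ≤ q := by exact_mod_cast hq
    have e : ((⌊(n + 1 : ℕ) * x⌋ : ℤ) : ℝ) - (⌊(n + 1 : ℕ) * y⌋ : ℤ) = (n + 1 : ℕ) * k := by
      exact_mod_cast hk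
    refine ⟨k, ?_⟩
    rw [le_div_iff₀ p0, ← abs_of_pos p0, ← abs_mul, abs_le]
    have a1 := Int.floor_le ((n + 1 : ℕ) * x)
    have a2 := Int.lt_floor_add_one ((n + 1 : ℕ) * x)
    have a3 := Int.floor_le ((n + 1 : ℕ) * y)
    have a4 := Int.lt_floor_add_one ((n + 1 : ℕ) * y)
    constructor <;> linarith⟩

theorem frac_hom {n q a b : ℕ} (hq : 0 < q) (h : q * a < (n + 1) * b) :
    S33.Hom (ofG (fraction a b)) (crc n q hq) := by
  refine ⟨fun x : Fin a => (((x : ℕ) : ℝ) / a : ℝ), fun (x y : Fin a) ⟨k, hk⟩ => ?_⟩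
  replace hk : |((x : ℕ) : ℝ) / a - ((y : ℕ) : ℝ) / a - k| ≤ q / (n + 1 : ℕ) := hk
  have a0 : (0 : ℝ) < a := by exact_mod_cast Fin.pos x
  have p1 : (0 : ℝ) < (n + 1 : ℕ) := by positivity
  have h1 : (q : ℝ) * a < (n + 1 : ℕ) * b := by exact_mod_cast h
  refine (eq_or_ne x y).imp id fun n => ⟨n, k, ?_⟩
  have e : (((x : ℕ) : ℝ) - (y : ℕ) - k * a) = (((x : ℕ) : ℝ) / a - ((y : ℕ) : ℝ) / a - k) * a := by
    field_simp
  have : |((x : ℕ) : ℝ) - (y : ℕ) - k * a| < b := by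
    rw [e, abs_mul, abs_of_pos a0]
    rw [le_div_iff₀ p1] at hk
    nlinarith
  exact_mod_cast this

/-- a point of the spectrum of the semiring is a point of the spectrum of graphs -/
theorem spectral {F : CG → ℝ} (f1 : F (disc 1) = 1) (f2 : ∀ x y, F (x.add y) = F x + F y)
    (f3 : ∀ x y, F (x.mul y) = F x * F y) (f4 : ∀ x y, S33.Hom x y → F x ≤ F y) :
    Spectral fun _ _ G => F (ofG G) := by
  have q : ∀ G K : CG, S33.Hom G K → S33.Hom K G → F G = F K := fun _ _ a b =>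
    (f4 _ _ a).antisymm (f4 _ _ b)
  refine ⟨?_, fun V W _ _ G K => ?_, fun V W _ _ G K => ?_,
    fun V W _ _ G K ⟨f⟩ => f4 _ _ ⟨f, fun x y h => ?_⟩⟩
  · exact (q (ofG (⊥ : SimpleGraph Unit)) (disc 1) ⟨fun _ => (0 : Fin 1), fun _ _ _ => Or.inl rfl⟩
      ⟨fun _ => (), fun _ _ _ => Subsingleton.elim (α := Fin 1) _ _⟩).trans f1
  · refine (q (ofG (G.sum K)) ((ofG G).add (ofG K)) ⟨id, ?_⟩ ⟨id, ?_⟩).trans (f2 (ofG G) (ofG K))
    · rintro (x | x) (y | y) h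
      exacts [h.imp (congrArg _) id, h.elim, h.elim, h.imp (congrArg _) id]
    · rintro (x | x) (y | y) h
      exacts [h.imp (fun e => Sum.inl_injective e) id,
        h.elim (fun e => by cases e) fun e => Bool.false_ne_true e,
        h.elim (fun e => by cases e) fun e => Bool.false_ne_true e,
        h.imp (fun e => Sum.inr_injective e) id]
  · refine (q (ofG (strong G K)) ((ofG G).mul (ofG K)) ⟨id, fun x y h => ?_⟩
      ⟨id, fun x y h => ?_⟩).trans (f3 (ofG G) (ofG K))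
    · exact (eq_or_ne x y).imp id fun e => ⟨e, h⟩
    · exact h.elim (fun e => ⟨.inl (congrArg _ e), .inl (congrArg _ e)⟩) And.right
  · by_contra hc
    have := f.map_rel (show Gᶜ.Adj x y from ⟨fun e => hc (.inl e), fun e => hc (.inr e)⟩)
    exact h.elim this.1 this.2

/-- the relation of the fraction graph in terms of residues -/
theorem frac_rel {n q : ℕ} (hq : 0 < q) {x y : Fin (n + 1)}
    (h : x = y ∨ (fraction (n + 1) q).Adj x y) :
    ∃ z : ℤ, |z| < q ∧ (show ZMod (n + 1) from y) = (show ZMod (n + 1) from x) + z := by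
  rcases h with rfl | ⟨-, k, hk⟩
  · exact ⟨0, by simpa using hq, by simp⟩
  · refine ⟨-(((x : ℕ) : ℤ) - (y : ℕ) - k * (n + 1 : ℕ)), by rwa [abs_neg], ?_⟩
    have e1 : (((x : ℕ) : ℕ) : ZMod (n + 1)) = (show ZMod (n + 1) from x) :=
      ZMod.natCast_zmod_val (n := n + 1) x
    have e2 : (((y : ℕ) : ℕ) : ZMod (n + 1)) = (show ZMod (n + 1) from y) :=
      ZMod.natCast_zmod_val (n := n + 1) y
    rw [Int.cast_neg, Int.cast_sub, Int.cast_sub, Int.cast_mul, Int.cast_natCast, Int.cast_natCast,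
      Int.cast_natCast, ZMod.natCast_self, e1, e2]
    ring

theorem rel_frac {n q : ℕ} {x y : Fin (n + 1)} {z : ℤ} (hz : |z| < q)
    (h : (show ZMod (n + 1) from y) = (show ZMod (n + 1) from x) + z) :
    x = y ∨ (fraction (n + 1) q).Adj x y := by
  refine (eq_or_ne x y).imp id fun e => ⟨e, ?_⟩
  have e1 : (((x : ℕ) : ℕ) : ZMod (n + 1)) = (show ZMod (n + 1) from x) :=
    ZMod.natCast_zmod_val (n := n + 1) x
  have e2 : (((y : ℕ) : ℕ) : ZMod (n + 1)) = (show ZMod (n + 1) from y) :=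
    ZMod.natCast_zmod_val (n := n + 1) y
  have : ((((y : ℕ) : ℤ) : ℤ) : ZMod (n + 1)) = ((((x : ℕ) : ℤ) + z : ℤ) : ZMod (n + 1)) := by
    rw [Int.cast_add, Int.cast_natCast, Int.cast_natCast, e1, e2, h]
  obtain ⟨k, hk⟩ := (ZMod.intCast_eq_intCast_iff_dvd_sub _ _ (n + 1)).1 this
  refine ⟨k, ?_⟩
  have e3 : ((x : ℕ) : ℤ) - (y : ℕ) - k * (n + 1 : ℕ) = -z := by linarith
  rwa [e3, abs_neg]

theorem main_of_tha {p q : ℕ} (hp : 0 < p) (hq : 0 < q) (hT : THA p q) :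
    ∃ F : ∀ (V : Type) [Finite V], SimpleGraph V → ℝ, Spectral F ∧ ∃ δ : ℝ, 0 < δ ∧
      ∀ a b : ℕ, q * a < p * b → F (Fin a) (fraction a b) + δ ≤ F (Fin p) (fraction p q) := by
  obtain ⟨n, rfl⟩ : ∃ n, p = n + 1 := ⟨p - 1, by omega⟩
  obtain ⟨c, hc, m0, H⟩ := hT
  obtain ⟨F, f1, f2, f3, f4, d, hd, f5⟩ := gap (ofG (fraction (n + 1) q)) (crc n q hq) (0 : ℝ) hc m0
    fun m hm N ⟨g, hg⟩ => H m hm N (fun s => (g s).1) (fun s => (g s).2) fun s t a b i =>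
      frac_rel hq (hg s t ⟨a, b⟩ i)
  have o : 1 ≤ F (ofG (fraction (n + 1) q)) := f1 ▸ f4 (disc 1) _
    ⟨fun _ => (0 : Fin (n + 1)), fun _ _ _ => Subsingleton.elim (α := Fin 1) _ _⟩
  refine ⟨_, spectral f1 f2 f3 f4, 1 - 1 / d, by rw [sub_pos, div_lt_one (by linarith)]; exact hd,
    fun a b e => ?_⟩
  have := (mul_le_mul_of_nonneg_left (f4 _ _ (frac_hom hq e)) (by linarith : 0 ≤ d)).trans f5
  refine le_of_mul_le_mul_left ?_ (show 0 < d by linarith)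
  rw [mul_add, mul_sub, mul_one_div_cancel (by linarith)]
  nlinarith

/-- multiplying numerator and denominator by the same number does not lower the graph -/
theorem frac_scale {g : ℕ} (hg : 0 < g) (p q : ℕ) :
    Nonempty (SimpleGraph.Hom (fraction p q)ᶜ (fraction (g * p) (g * q))ᶜ) := by
  refine ⟨⟨fun x => ⟨g * x, Nat.mul_lt_mul_of_pos_left x.2 hg⟩, fun {x y} h => ⟨fun e => h.1 ?_,
    fun ⟨_, k, hk⟩ => h.2 ⟨h.1, k, ?_⟩⟩⟩⟩
  · exact Fin.ext (Nat.eq_of_mul_eq_mul_left hg (congrArg Fin.val e))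
  · have g0 : (0 : ℤ) < g := by exact_mod_cast hg
    have e : ((g * x : ℕ) : ℤ) - (g * y : ℕ) - k * (g * p : ℕ) =
        g * (((x : ℕ) : ℤ) - (y : ℕ) - k * p) := by push_cast; ring
    replace hk : |((g * x : ℕ) : ℤ) - (g * y : ℕ) - k * (g * p : ℕ)| < (g * q : ℕ) := hk
    rw [e, abs_mul, abs_of_pos g0, Nat.cast_mul] at hk
    exact lt_of_mul_lt_mul_left hk g0.le

/-- every fraction above two that is not an integer -/
theorem main_all (hT : ∀ p q : ℕ, 2 ≤ q → 2 * q < p → Nat.Coprime p q → THA p q)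
    (p q : ℕ) (hq : 0 < q) (hp : 2 * q < p) (hn : ¬ q ∣ p) :
    ∃ F : ∀ (V : Type) [Finite V], SimpleGraph V → ℝ, Spectral F ∧ ∃ δ : ℝ, 0 < δ ∧
      ∀ a b : ℕ, q * a < p * b → F (Fin a) (fraction a b) + δ ≤ F (Fin p) (fraction p q) := by
  obtain ⟨p', q', hc, e1, e2⟩ := Nat.exists_coprime p q
  have hg : 0 < Nat.gcd p q := Nat.gcd_pos_of_pos_right _ hq
  generalize Nat.gcd p q = g at e1 e2 hg
  rw [mul_comm] at e1 e2
  subst e1 e2
  have q0 : 0 < q' := Nat.pos_of_mul_pos_left hq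
  have q2 : 2 ≤ q' := by
    by_contra h
    obtain rfl : q' = 1 := by omega
    exact hn ⟨p', by ring⟩
  have p2 : 2 * q' < p' := Nat.lt_of_mul_lt_mul_left (a := g) (by linarith)
  obtain ⟨F, h, δ, hδ, k⟩ := main_of_tha (by omega) q0 (hT p' q' q2 p2 hc)
  refine ⟨F, h, δ, hδ, fun a b e => (k a b ?_).trans (h.mono _ _ _ _ (frac_scale hg p' q'))⟩
  exact Nat.lt_of_mul_lt_mul_left (a := g) (by linarith)

end Pool.Agent.P.MP_263185_co.AQ
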