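import Pool.Agent.P.MP_263185_co.AQ.Base
import Pool.Agent.P.MP_263185_co.AQ.SFin

/-! Statements of the steps. -/

namespace Pool.Agent.P.MP_263185_co.AQ

open Finset
open scoped Classical

/-! ### General lemmas -/

-- deps:
def S_CP : Prop := ∀ (m q : ℕ), 0 < q → ∀ f : (Fin m → Fin q) → ℝ,
  2 * (cE (fun β => f β ^ 2) - cE f ^ 2) ≤ ∑ j, (cE (fun β => (f β - cM j f β) ^ 2) + cW j f)

-- deps:
def S_CA : Prop := ∀ (m q : ℕ), 0 < q → ∀ (f : (Fin m → Fin q) → ℝ) (j : Fin m)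
  (gd : (Fin m → Fin q) → Prop), (∀ β t, gd (Function.update β j t) ↔ gd β) →
  cW j f ≤ cE (fun β => (f β - cM j f β) ^ 2) ∧
  cW j f ≤ 2 * cE (fun β => ind (gd β) * (f β - cM j f β) ^ 2) +
    2 * cE (fun β => ind (¬ gd β)) * cE (fun β => (f β - cM j f β) ^ 2)

-- deps:
def S_CO : Prop := ∀ (m q : ℕ), 0 < q → ∀ (U : Finset (Fin m)) (f : (Fin m → Fin q) → ℝ),
  cE (fun β => (cE f + ∑ j ∈ U, cF j f (β j)) ^ 2) = cE f ^ 2 + ∑ j ∈ U, cW j f ∧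
  cE (fun β => f β * (cE f + ∑ j ∈ U, cF j f (β j))) = cE f ^ 2 + ∑ j ∈ U, cW j f

-- deps:
def S_PERM : Prop := ∀ (m n K : ℕ) (e : Finset (Fin m) → ℝ) (B : ℝ), 0 < n → 0 < K → n * K ≤ m →
  0 ≤ B → (∀ J : Fin n → Finset (Fin m), (∀ k, #(J k) = K) →
    (∀ k l, k ≠ l → Disjoint (J k) (J l)) → ∑ k, (e ∅ - e (J k)) ≤ B) →
  ∃ J, #J < K ∧ ∑ j, (e J - e (insert j J)) ≤ m / (n * K) * B

-- deps:
def S_CYC : Prop := ∀ (p : ℕ) [NeZero p] (g : ZMod p → ℝ) (r r' : ZMod p),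
  g r - g r' ≤ ∑ t, |g t - g (t + 1)|

-- deps:
def S_HOE : Prop := ∀ q : ℕ, 2 ≤ q →
  (∀ u : ℝ, ∑ t ∈ range q, Real.exp (u * ((t : ℝ) - (q - 1) / 2)) ≤
    Real.exp (Real.log q + u ^ 2 * q ^ 2 / 8)) ∧
  ∑ t ∈ range q, Real.exp (-((t : ℝ) - (q - 1) / 2) ^ 2) ≤ Real.exp (Real.log q - 1 / (5 * q)) ∧
  (0 : ℝ) ≤ Real.log q - 1 / (5 * q)

-- deps:
def S_TEN : Prop := ∀ (Z : Type) [Fintype Z] (k : Z → Z → ℝ) (α : ℝ), 0 ≤ α →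
  (∀ x y, k x y = k y x) → (∀ f : Z → ℝ, α * (∑ x, f x) ^ 2 ≤ ∑ x, ∑ y, f x * f y * k x y) →
  ∀ (m : ℕ) (X : Type) (S : Finset X) (g : X → Fin m → Z),
    α ^ m * (#S : ℝ) ^ 2 ≤ ∑ x ∈ S, ∑ y ∈ S, ∏ l, k (g x l) (g y l)

-- deps:
def S_PAR : Prop := ∀ H ζ : ℝ, 0 < H → 0 < ζ → ∃ n : ℕ, 0 < n ∧ ∃ lam z ε : ℝ, 0 < lam ∧ 0 < z ∧
  0 < ε ∧ ∃ m₀ : ℕ, 0 < m₀ ∧ ∀ m : ℕ, m₀ ≤ m → ∃ K : ℕ, 0 < K ∧ n * K ≤ m ∧ ∀ d v : ℝ, 0 ≤ d →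
    d ≤ ε * m → 0 ≤ v → v ≤ H * m → H * (d + z * m + d / z + K) ≤ ζ * m ∧
    m / (n * K) * (v + n ^ 2 * (H * d / lam + lam * H * m) + n * H * d) ≤ v + ζ * m

-- deps:
def S_KAT : Prop := ∀ (p q : ℕ) [NeZero p], Par p q → ∀ Q : Finset (ZMod p),
  (∀ x ∈ Q, ∀ y ∈ Q, cf q x y) → #Q ≤ q ∧ ((¬ ∃ a, ∀ x ∈ Q, ed q a x) → #Q + 1 ≤ q)

-- deps:
def S_K0 : Prop := ∀ (p q : ℕ) [NeZero p], Par p q →
  (∀ x y : ZMod p, (#(univ.filter fun b => ed q b x ∧ ed q b y) : ℝ) = q * k0 q x y) ∧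
  (∀ x y : ZMod p, 0 ≤ k0 q x y ∧ k0 q x y ≤ 1 ∧ k0 q x y = k0 q y x ∧
    (cf q x y → 1 / q ≤ k0 q x y) ∧ (¬ cf q x y → k0 q x y = 0)) ∧
  (∀ x y a : ZMod p, k0 q (x + a) (y + a) = k0 q x y) ∧
  (∀ (x : ZMod p) (t : ℝ), ∑ y, k0 q x y ^ t = ks p q t) ∧
  ∀ t : ℝ, 0 < t → t ≤ 1 → q ≤ ks p q t ∧ ks p q t ≤ p

/-! ### Averaging -/

-- deps:
def S_SW : Prop := ∀ (p q m : ℕ) [NeZero p] (D : Dat p q m) (F : D.X → (Fin m → ZMod p) → ℝ),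
  ∑ x, ∑ β, F x (D.bx x β) = ∑ b, ∑ x ∈ D.B b, F x b ∧
  ∀ x, Function.Injective (D.bx x) ∧ ∀ b, D.In x b → ∃ β, D.bx x β = b

-- deps: SW
def S_AVG : Prop := ∀ (p q m : ℕ) [NeZero p] (D : Dat p q m) (J : Finset (Fin m)),
  (∀ b (f : D.X → ℝ), ∑ x ∈ D.B b, mn (D.A J x b) f = ∑ x ∈ D.B b, f x) ∧
  ∀ f g : D.X → (Fin m → ZMod p) → ℝ, (∀ x b, ∀ y ∈ D.A J x b, D.In x b → g y b = g x b) →
    D.E (fun x b => g x b * mn (D.A J x b) fun y => f y b) = D.E fun x b => g x b * f x b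

-- deps: SW
def S_AVJ : Prop := ∀ (p q m : ℕ) [NeZero p] (D : Dat p q m) (J : Finset (Fin m)) (j : Fin m)
  (f : D.X → (Fin m → ZMod p) → ℝ),
  D.E (fun x b => mn (D.Cy J j x b) fun y => D.mt j f y b) = D.E f

-- deps: SW
def S_AVF : Prop := ∀ (p q m : ℕ) [NeZero p] (D : Dat p q m) (f : D.X → (Fin m → ZMod p) → ℝ),
  D.E (fun x b => mn (D.Fs x b) (f x)) = D.E f

/-! ### Entropy bounds -/

-- deps: AVG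
def S_LG : Prop := ∀ (p q m : ℕ) [NeZero p] (D : Dat p q m) (J : Finset (Fin m))
  (h z : D.X → (Fin m → ZMod p) → ℝ),
  (∀ x b, D.In x b → ∑ y ∈ D.A J x b, Real.exp (h y b) ≤ Real.exp (z x b)) →
  D.E h ≤ D.E z - D.L J

-- deps:
def S_LU : Prop := ∀ (p q m : ℕ) [NeZero p] (D : Dat p q m) (Y : Type) [Fintype Y]
  (π : D.X → (Fin m → Fin q) → Y) (w : Y → ℝ) (F : D.X → (Fin m → ZMod p) → ℝ),
  (∀ y, 0 ≤ w y) → ∑ y, w y ≤ 1 → (∀ x β, 0 < w (π x β)) →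
  (∀ x β, (#(univ.filter fun ω : D.X × (Fin m → Fin q) => π ω.1 ω.2 = π x β) : ℝ) ≤
    F x (D.bx x β)) →
  D.xE (fun x => cE fun β => Real.log (w (π x β))) ≤
    D.E (fun x b => Real.log (F x b)) - Real.log (Fintype.card D.X) - m * Real.log q

-- deps: LU SW
def S_LJ : Prop := ∀ (p q m : ℕ) [NeZero p] (D : Dat p q m), 0 ≤ D.df ∧ ∀ J : Finset (Fin m),
  (m - #J) * Real.log q - D.df ≤ D.L J ∧ D.L J ≤ (m - #J) * Real.log q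

-- deps: KAT LJ
def S_NU : Prop := ∀ (p q m : ℕ) [NeZero p] (D : Dat p q m), 0 ≤ D.nu ∧ D.nu ≤ q * D.df

-- deps:
def S_MG : Prop := ∀ (p q m : ℕ) [NeZero p] (D : Dat p q m) (α : Fin m → Option (ZMod p))
  (A : Finset D.X) (g : Fin m → ℝ → ℝ) (γ : Fin m → ℝ),
  (∀ y ∈ A, ∀ i a, α i = some a → ed q a (D.s y i)) → (∀ i, 0 ≤ γ i) → (∀ i, g i 0 ≤ 0) →
  (∀ i, ∑ t ∈ range q, Real.exp (g i ((t : ℝ) - (q - 1) / 2)) ≤ Real.exp (γ i)) →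
  ∑ y ∈ A, Real.exp (∑ i, g i (sgo q (α i) (D.s y i))) ≤
    Real.exp (∑ i, γ i + #(univ.filter fun i => α i = none) * Real.log p)

-- deps: MG HOE
def S_MH : Prop := ∀ (p q m : ℕ) [NeZero p] (D : Dat p q m) (b : Fin m → ZMod p),
  (∀ u : Fin m → ℝ, ∑ y ∈ D.B b, Real.exp (∑ i, u i * D.sg i y b) ≤
    Real.exp (m * Real.log q + D.no b * Real.log p + ∑ i, u i ^ 2 * q ^ 2 / 8)) ∧
  ∑ y ∈ D.B b, Real.exp (-∑ i, D.sg i y b ^ 2) ≤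
    Real.exp (m * Real.log q - m / (5 * q) + D.no b * Real.log p) ∧
  (#(univ.filter fun y : D.X => ∃ b', D.In y b' ∧ D.a b' = D.a b) : ℝ) ≤ q ^ m * p ^ D.no b

-- deps: LG MH AVG LJ
def S_U1 : Prop := ∀ (p q m : ℕ) [NeZero p] (D : Dat p q m) (J : Finset (Fin m)),
  D.MM J ≤ q ^ 2 / 2 * (#J * Real.log q + D.df + D.nu * Real.log p)

-- deps: LG MH LJ
def S_VT : Prop := ∀ (p q m : ℕ) [NeZero p] (D : Dat p q m),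
  m / (5 * q) - D.df - D.nu * Real.log p ≤ D.v ∧ D.v ≤ q ^ 2 * m ∧ 0 ≤ D.v

-- deps: AVG MH
def S_BZ : Prop := ∀ (p q m : ℕ) [NeZero p] (D : Dat p q m) (J J' : Finset (Fin m)) (lam : ℝ)
  (b : Fin m → ZMod p),
  ∑ x ∈ D.B b, (#(D.A J x b) * #(D.A J' x b) / #(D.A (J ∪ J') x b) : ℝ) *
      Real.exp (lam * ∑ i, D.M J i x b * D.M J' i x b) ≤
    #(D.B b) * Real.exp (m * Real.log q + D.no b * Real.log p + lam ^ 2 * q ^ 4 * m / 8)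

-- deps: LG BZ LJ
def S_BES : Prop := ∀ (p q m : ℕ) [NeZero p] (D : Dat p q m) (J J' : Finset (Fin m)) (lam : ℝ),
  Disjoint J J' → lam * ∑ i, D.E (fun x b => D.M J i x b * D.M J' i x b) ≤
    2 * D.df + D.nu * Real.log p + lam ^ 2 * q ^ 4 * m / 8

-- deps: AVG
def S_BS : Prop := ∀ (p q m : ℕ) [NeZero p] (D : Dat p q m) (n : ℕ) (J : Fin n → Finset (Fin m))
  (η : ℝ), 0 ≤ η →
  (∀ k l, k ≠ l → ∑ i, D.E (fun x b => D.M (J k) i x b * D.M (J l) i x b) ≤ η) →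
  ∑ k, D.MM (J k) ≤ D.v + n ^ 2 * η

-- deps:
def S_QQ : Prop := ∀ (p q m : ℕ) [NeZero p] (D : Dat p q m) (b b' : Fin m → ZMod p),
  (#(univ.filter fun x => D.In x b ∧ D.In x b') : ℝ) *
    Real.exp (#(univ.filter fun l => b' l ≠ b l) / q) ≤ q ^ m

-- deps: SW QQ AVF
def S_EA : Prop := ∀ (p q m : ℕ) [NeZero p] (D : Dat p q m),
  D.E (fun x b => 2 * Real.log #(D.B b) + Real.log #(D.Fs x b) - Real.log (D.V b)) +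
    D.Ed / q - m * Real.log q ≤ 0

-- deps: LU SW MH
def S_EB : Prop := ∀ (p q m : ℕ) [NeZero p] (D : Dat p q m),
  D.E (fun x b => Real.log (D.V b) - Real.log #(D.Fs x b)) ≤ m * Real.log q + D.nu * Real.log p

-- deps:
def S_EC : Prop := ∀ (p q m : ℕ) [NeZero p] (D : Dat p q m) (z : ℝ), 0 < z →
  D.phi ≤ m * q * z + D.Ed / z

-- deps: LJ EA EB EC
def S_E1 : Prop := ∀ (p q m : ℕ) [NeZero p] (D : Dat p q m) (z : ℝ), 0 < z →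
  D.phi ≤ m * q * z + q * (2 * D.df + D.nu * Real.log p) / z

-- deps: LG LJ AVG
def S_UT : Prop := ∀ (p q m : ℕ) [NeZero p] (D : Dat p q m) (J : Finset (Fin m)),
  ∑ j ∈ Jᶜ, D.E (fun x b => D.tau J j x b ^ 2) ≤ 2 * D.df

-- deps: LU HOE SW
def S_U2 : Prop := ∀ (p q m : ℕ) [NeZero p] (D : Dat p q m) (U : D.X → Finset (Fin m))
  (u : Fin m → D.X → (Fin m → Fin q) → ℝ) (z : ℝ), 0 < z →
  (∀ i x β β', (∀ j ∈ U x, β j = β' j) → u i x β = u i x β') →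
  ∑ i, D.xE (fun x => cE fun β => u i x β * D.sg i x (D.bx x β) - u i x β ^ 2 * q ^ 2 / 8) ≤
    D.xE (fun x => (#(U x) : ℝ)) * Real.log q + D.phi + z * m + D.nu / z

/-! ### The potential -/

-- deps: AVG
def S_PSI : Prop := ∀ (p q m : ℕ) [NeZero p] (D : Dat p q m) (J : Finset (Fin m)),
  D.v - D.MM J ≤ D.ep J ∧ D.e ∅ - D.e J ≤ D.MM J + 3 * q ^ 2 * D.nu ∧
  ∑ i, D.E (fun x b => (D.psi J i x b + D.sg i x b) ^ 2) ≤ D.MM J + q ^ 2 * D.nu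

-- deps: AVG
def S_MART : Prop := ∀ (p q m : ℕ) [NeZero p] (D : Dat p q m) (J : Finset (Fin m)) (j : Fin m),
  ∑ i, D.E (fun x b => D.del J i j x b ^ 2 + D.nn J i j x b) ≤ D.e J - D.e (insert j J)

-- deps: PERM MART PSI BS BES NU LJ VT
def S_DROP : Prop := ∀ (p q m : ℕ) [NeZero p] (D : Dat p q m) (n K : ℕ) (lam : ℝ), 0 < n → 0 < K →
  n * K ≤ m → 0 < lam → ∃ J, #J < K ∧ D.Dr J + D.Dn J ≤ m / (n * K) * (D.v +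
    n ^ 2 * ((2 * D.df + D.nu * Real.log p) / lam + lam * q ^ 4 * m / 8) + n * (3 * q ^ 2 * D.nu))

-- deps: U2 CO PSI
def S_AU : Prop := ∀ (p q m : ℕ) [NeZero p] (D : Dat p q m) (κ : ℝ) (J : Finset (Fin m)) (z : ℝ),
  0 < z → D.Aw κ J ≤ q ^ 2 * (D.xE (fun x => (#(D.U κ J x) : ℝ)) * Real.log q + D.phi + z * m +
    D.nu / z) + 2 * (D.MM J + q ^ 2 * D.nu)

/-! ### Cylinders -/

-- deps:
def S_DEC : Prop := ∀ (p q : ℕ) [NeZero p], Par p q → ∀ (C : Type) (Y : Finset C)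
  (cl : C → ZMod p) (f : C → ℝ),
  (∀ r, ∑ y ∈ bo q Y cl r, f y = ∑ t ∈ range q, ∑ y ∈ ce Y cl (r + t), f y) ∧
  ∑ y ∈ Y, f y = ∑ r, ∑ y ∈ ce Y cl r, f y ∧
  (∀ g : ZMod p → ℝ, ∑ y ∈ Y, ∑ t : Fin q, g (cl y - (t : ℕ)) = ∑ r, #(bo q Y cl r) * g r) ∧
  (bal Y cl 1 → ∀ r, (#Y : ℝ) ≤ 2 * p * #(ce Y cl r))

-- deps:
def S_LIFT : Prop := ∀ (p q : ℕ) [NeZero p], Par p q → ∀ (C : Type) (Y : Finset C)
  (cl v : C → ZMod p), (∀ r, (ce Y cl r).Nonempty) → (∀ r, arc q v (bo q Y cl r)) →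
  ∃ (w : ℤ) (u : C → ℤ), ∀ r, ∀ y ∈ bo q Y cl r, ∀ y' ∈ bo q Y cl r,
    lf (v y) (v y') = u y' - u y + w * ((pos r (cl y') : ℤ) - pos r (cl y))

-- deps:
def S_W1 : Prop := ∀ (p q : ℕ) [NeZero p], Par p q → ∀ (C : Type) (Y : Finset C)
  (cl v : C → ZMod p) (w : ℤ) (u : C → ℤ), (∀ r, (ce Y cl r).Nonempty) → clq q Y cl v →
  nwd q Y cl v → (∀ r, ∀ y ∈ bo q Y cl r, ∀ y' ∈ bo q Y cl r,
    lf (v y) (v y') = u y' - u y + w * ((pos r (cl y') : ℤ) - pos r (cl y))) → w ≠ 0 →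
  |w| = 1 ∧ ∃ r r', mn (ce Y cl r') (fun y => u y) + 1 ≤ mn (ce Y cl r) fun y => u y

-- deps: DEC
def S_HARM : Prop := ∀ (p q : ℕ) [NeZero p], Par p q → ∀ (C : Type) (Y : Finset C)
  (cl : C → ZMod p) (u : C → ℝ) (g : ℝ), 0 ≤ g → (∀ r, (ce Y cl r).Nonempty) → bal Y cl 1 →
  (∀ r, mn (ce Y cl r) u - (∑ t : Fin q, mn (bo q Y cl (r - (t : ℕ))) u) / q ≤ g) → ∀ r r',
  mn (ce Y cl r) u - mn (ce Y cl r') u ≤ p * (2 * q ^ 2) ^ p * g ∧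
  |mn (bo q Y cl r) u - mn (ce Y cl r') u| ≤ p * (2 * q ^ 2) ^ p * g

-- deps: DEC
def S_TB : Prop := ∀ (p q : ℕ) [NeZero p], Par p q → ∀ (C : Type) (Y : Finset C)
  (cl : C → ZMod p) (κ : ℝ), 0 ≤ κ → (∀ r, (ce Y cl r).Nonempty) → bal Y cl κ → ∀ r',
  |(∑ t : Fin q, (mn (bo q Y cl (r' - (t : ℕ))) (fun y => pos (r' - ((t : ℕ) : ZMod p)) (cl y)) -
    (t : ℕ))) / q| ≤ κ * q

-- deps: LIFT W1 HARM TB DEC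
def S_GA : Prop := ∀ (p q : ℕ) [NeZero p], Par p q → ∃ κ : ℝ, 0 < κ ∧ κ ≤ 1 ∧ ∃ K : ℝ, 0 ≤ K ∧
  ∀ (C : Type) (Y : Finset C) (cl v : C → ZMod p), bal Y cl κ → (∀ r, (ce Y cl r).Nonempty) →
  clq q Y cl v → nwd q Y cl v → (∀ r, arc q v (bo q Y cl r)) → ∀ r, ∀ x ∈ bo q Y cl r,
  dl q Y cl v x r ^ 2 ≤ K * mn Y fun y => gm q Y cl v y ^ 2

-- deps: GA DEC
def S_G0 : Prop := ∀ (p q : ℕ) [NeZero p], Par p q → ∃ κ : ℝ, 0 < κ ∧ κ ≤ 1 ∧ ∃ K : ℝ, 0 ≤ K ∧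
  ∀ (C : Type) (Y : Finset C) (cl v : C → ZMod p), bal Y cl κ →
  clq q Y cl v → nwd q Y cl v → ∀ r, ∀ x ∈ bo q Y cl r,
  dl q Y cl v x r ^ 2 ≤ K * mn Y fun y => gm q Y cl v y ^ 2 + nm q Y cl v y

-- deps:
def S_BOX : Prop := ∀ (p q m : ℕ) [NeZero p] (D : Dat p q m) (J : Finset (Fin m)) (j : Fin m)
  (x : D.X) (b : Fin m → ZMod p), j ∉ J → D.In x b → ∀ y ∈ D.Cy J j x b, ∀ r,
  D.A J y (Function.update b j r) = bo q (D.Cy J j x b) (fun z => D.c z j) r ∧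
  (ed q r (D.c y j) → D.A (insert j J) y (Function.update b j r) =
    ce (D.Cy J j x b) (fun z => D.c z j) (D.c y j))

-- deps: G0 BOX
def S_GOOD : Prop := ∀ (p q : ℕ) [NeZero p], Par p q → ∃ κ : ℝ, 0 < κ ∧ κ ≤ 1 ∧ ∃ K : ℝ, 0 ≤ K ∧
  ∀ (m : ℕ) (D : Dat p q m) (J : Finset (Fin m)) (i j : Fin m) (x : D.X) (b : Fin m → ZMod p),
  j ∉ J → D.In x b → D.good κ J j x b → D.del J i j x b ^ 2 ≤ K * mn (D.Cy J j x b) fun y =>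
    D.mt j (D.del J i j) y b ^ 2 + D.mt j (D.nn J i j) y b

-- deps: CYC DEC
def S_BD0 : Prop := ∀ (p q : ℕ) [NeZero p], Par p q → ∀ (C : Type) (Y : Finset C)
  (cl : C → ZMod p) (κ : ℝ), 0 < κ → κ ≤ 1 → ¬ bal Y cl κ →
  1 ≤ 4 * q ^ 2 * p ^ 3 / κ ^ 2 * mn Y fun y => (∑ t : Fin q,
    mn (bo q Y cl (cl y - (t : ℕ))) (fun z => eps (cl y - ((t : ℕ) : ZMod p)) (cl z)) ^ 2) / q

-- deps: BD0 BOX AVJ UT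
def S_UU : Prop := ∀ (p q m : ℕ) [NeZero p] (D : Dat p q m) (κ : ℝ) (J : Finset (Fin m)),
  0 < κ → κ ≤ 1 → D.xE (fun x => (#(D.U κ J x) : ℝ)) ≤ 64 * q ^ 2 * p ^ 3 / κ ^ 2 * D.df

-- deps:
def S_EN : Prop := ∀ (p q m : ℕ) [NeZero p] (D : Dat p q m) (J : Finset (Fin m)) (κ : ℝ),
  D.En J = D.Dr J - D.G J ∧ 0 ≤ D.G J ∧ 0 ≤ D.Dn J ∧
  D.Eg κ J ≤ ∑ i, ∑ j, D.E fun x b => ind (D.good κ J j x b) * D.del J i j x b ^ 2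

-- deps: EN GOOD AVJ
def S_EG : Prop := ∀ (p q : ℕ) [NeZero p], Par p q → ∃ κ : ℝ, 0 < κ ∧ κ ≤ 1 ∧ ∃ K : ℝ, 0 ≤ K ∧
  ∀ (m : ℕ) (D : Dat p q m) (J : Finset (Fin m)), D.Eg κ J ≤ K * (D.G J + D.Dn J)

-- deps: CP CA
def S_CUB : Prop := ∀ (p q m : ℕ) [NeZero p] (D : Dat p q m) (κ : ℝ) (J : Finset (Fin m)),
  D.ep J - D.Aw κ J ≤ D.En J ∧ 2 * D.ep J ≤ 2 * D.Aw κ J + 5 / 4 * D.En J + 2 * D.Eg κ J

-- deps: PSI EN CUB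
def S_FIN : Prop := ∀ (p q m : ℕ) [NeZero p] (D : Dat p q m) (κ K ζ : ℝ) (J : Finset (Fin m)),
  0 ≤ K → D.Eg κ J ≤ K * (D.G J + D.Dn J) → D.MM J ≤ ζ → D.Dr J + D.Dn J ≤ D.v + ζ →
  D.Aw κ J ≤ ζ → 3 / 4 * D.v ≤ ζ * (6 + 6 * K)

-- deps: FIN PAR EG DROP AU UU E1 U1 VT NU LJ
def S_CORE : Prop := ∀ (p q : ℕ) [NeZero p], Par p q → ∃ ε : ℝ, 0 < ε ∧ ∃ m₀, ∀ m, m₀ ≤ m →
  ∀ D : Dat p q m, ε * m ≤ D.df

/-! ### Near injectivity -/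

-- deps: K0
def S_PD0 : Prop := ∀ (p q : ℕ) [NeZero p], Par p q → ∃ c : ℝ, 0 < c ∧ ∀ f : ZMod p → ℝ,
  c * ∑ x, f x ^ 2 ≤ ∑ x, ∑ y, f x * f y * k0 q x y

-- deps: PD0 K0
def S_KPS : Prop := ∀ (p q : ℕ) [NeZero p], Par p q → ∃ t : ℝ, 0 < t ∧ t < 1 ∧
  (q : ℝ) ^ (1 - t) * (q - 1) ^ 2 ≤ q ^ 2 ∧ ∀ f : ZMod p → ℝ,
  ks p q t / p * (∑ x, f x) ^ 2 ≤ ∑ x, ∑ y, f x * f y * k0 q x y ^ t

-- deps: KAT K0
def S_KB : Prop := ∀ (p q : ℕ) [NeZero p], Par p q → ∀ t : ℝ, 0 < t → t < 1 →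
  (q : ℝ) ^ (1 - t) * (q - 1) ^ 2 ≤ q ^ 2 → ∀ Q : Finset (ZMod p), (∀ x ∈ Q, ∀ y ∈ Q, cf q x y) →
  ∑ x ∈ Q, ∑ y ∈ Q, k0 q x y ^ (t - 1) ≤ q * ks p q t

-- deps: KB K0
def S_NB : Prop := ∀ (p q m : ℕ) [NeZero p] (P : Pre p q m) (t : ℝ), 0 < t → t < 1 →
  (q : ℝ) ^ (1 - t) * (q - 1) ^ 2 ≤ q ^ 2 →
  ∑ x, ∑ y, (∏ l, k0 q (P.c x l) (P.c y l)) * ∏ i, k0 q (P.s x i) (P.s y i) ^ (t - 1) ≤
    (p * ks p q t) ^ m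

-- deps: K0
def S_NA : Prop := ∀ (p q m : ℕ) [NeZero p] (P : Pre p q m) (x : P.X),
  (∀ t : ℝ, 0 < t → t ≤ 1 → ∑ y ∈ P.nb x, ∏ i, k0 q (P.s x i) (P.s y i) ^ t ≤
    ks p q t ^ m * (1 - 1 / (q * p)) ^ #(P.sp x)) ∧
  #(univ.filter fun y => P.c y = P.c x) ≤ p ^ #(P.sp x)

-- deps: KPS TEN NB NA K0
def S_ST1 : Prop := ∀ (p q : ℕ) [NeZero p], Par p q → ∃ ρ : ℝ, 0 < ρ ∧ ρ < 1 ∧
  ∀ (m : ℕ) (P : Pre p q m) (K : ℕ), (#(univ.filter fun x => K ≤ #(P.sp x)) : ℝ) ≤ 2 * p ^ m * ρ ^ K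

-- deps: NA
def S_ST2 : Prop := ∀ (p q m : ℕ) [NeZero p] (P : Pre p q m) (K : ℕ),
  Fintype.card P.X ≤ #(univ.filter fun x => K ≤ #(P.sp x)) ∨ ∃ D : Dat p q m,
    Fintype.card P.X ≤ #(univ.filter fun x => K ≤ #(P.sp x)) + p ^ K * Fintype.card D.X

-- deps: ST1 ST2 CORE
def S_PRE : Prop := ∀ (p q : ℕ) [NeZero p], Par p q → ∃ c : ℝ, 1 < c ∧ ∃ m₀, ∀ m, m₀ ≤ m →
  ∀ P : Pre p q m, Fintype.card P.X * c ^ m ≤ p ^ m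

-- deps: PRE
def S_THA : Prop := ∀ p q : ℕ, 2 ≤ q → 2 * q < p → Nat.Coprime p q → THA p q

end Pool.Agent.P.MP_263185_co.AQ
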