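import Pool.Agent.P.MP_263185_co.AQ.Iface

/-! Proofs of the steps CO, CYC, TEN, AVF, MH, VT, BZ, QQ, EB, U2, MART, DEC, TB, G0, NA. -/

set_option linter.unusedSectionVars false

namespace Pool.Agent.P.MP_263185_co.AQ

section
open Finset
open scoped Classical

theorem cE_add_co {m q : ℕ} (f g : (Fin m → Fin q) → ℝ) :
    cE (fun β => f β + g β) = cE f + cE g := by simp only [cE, sum_add_distrib, add_div]

theorem cE_mul_co {m q : ℕ} (t : ℝ) (f : (Fin m → Fin q) → ℝ) :
    cE (fun β => t * f β) = t * cE f := by simp only [cE, ← mul_sum, mul_div_assoc]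

theorem cE_const_co {m q : ℕ} (hq : 0 < q) (t : ℝ) : cE (fun _ : Fin m → Fin q => t) = t := by
  have : (0 : ℝ) < q := by exact_mod_cast hq
  simp only [cE, sum_const, card_univ, Fintype.card_fun, Fintype.card_fin, nsmul_eq_mul]
  push_cast; field_simp

theorem cE_dig_co {m q : ℕ} (hq : 0 < q) (j : Fin m) (g : (Fin m → Fin q) → ℝ) (h : Fin q → ℝ) :
    cE (fun β => g β * h (β j)) = (∑ t, h t * cE fun β => g (Function.update β j t)) / q := by
  rw [← cE_cM hq j]
  simp only [cE, cM, Function.update_self, ← sum_div, ← mul_div_assoc, mul_sum]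
  rw [sum_comm, div_right_comm]
  simp only [mul_comm]

theorem sum_cF_co {m q : ℕ} (hq : 0 < q) (j : Fin m) (f : (Fin m → Fin q) → ℝ) :
    ∑ t, cF j f t = 0 := by
  have : (0 : ℝ) < q := by exact_mod_cast hq
  have h := cE_dig_co hq j f fun _ => 1
  simp only [mul_one, one_mul] at h
  simp only [cF, sum_sub_distrib, sum_const, card_univ, Fintype.card_fin, nsmul_eq_mul]
  rw [eq_div_iff this.ne'] at h
  linarith

theorem p_CO :
    S_CO := by
  intro m q hq U f
  have h1 : ∀ j, cE (fun β => f β * cF j f (β j)) = cW j f := fun j => by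
    rw [cE_dig_co hq, cW]
    have : ∀ t, cF j f t * cE (fun β => f (Function.update β j t)) =
        cF j f t ^ 2 + cF j f t * cE f := fun t => by rw [cF]; ring
    simp only [this, sum_add_distrib, ← sum_mul, sum_cF_co hq, zero_mul, add_zero]
  induction U using Finset.induction_on with
  | empty =>
    simp only [sum_empty, add_zero, cE_const_co hq, mul_comm _ (cE f), cE_mul_co, sq, and_self]
  | insert j U hj ih =>
    simp only [sum_insert hj]
    have e : ∀ (β : Fin m → Fin q) t, ∑ l ∈ U, cF l f (Function.update β j t l) =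
        ∑ l ∈ U, cF l f (β l) := fun β t => sum_congr rfl fun l hl => by
      rw [Function.update_of_ne (ne_of_mem_of_not_mem hl hj)]
    have h2 := cE_dig_co hq j (fun β => cE f + ∑ l ∈ U, cF l f (β l)) (cF j f)
    have h3 := cE_dig_co hq j (fun _ => 1) fun t => cF j f t ^ 2
    simp only [e, ← sum_mul, sum_cF_co hq, zero_mul, zero_div] at h2
    simp only [cE_const_co hq, one_mul, mul_one] at h3
    constructor
    · have : (fun β : Fin m → Fin q => (cE f + (cF j f (β j) + ∑ l ∈ U, cF l f (β l))) ^ 2) =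
          fun β => (cE f + ∑ l ∈ U, cF l f (β l)) ^ 2 + (cF j f (β j) ^ 2 +
            2 * ((cE f + ∑ l ∈ U, cF l f (β l)) * cF j f (β j))) := funext fun β => by ring
      rw [this, cE_add_co, cE_add_co, cE_mul_co, ih.1, h2, h3, cW]; ring
    · have : (fun β : Fin m → Fin q => f β * (cE f + (cF j f (β j) + ∑ l ∈ U, cF l f (β l)))) =
          fun β => f β * (cE f + ∑ l ∈ U, cF l f (β l)) + f β * cF j f (β j) :=
        funext fun β => by ring
      rw [this, cE_add_co, ih.2, h1]; ring

end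

section
open Finset
open scoped Classical

theorem p_CYC :
    S_CYC := by
  intro p _ g r r'
  have hk : (r' - r).val < p := ZMod.val_lt _
  have e : r' = r + ((r' - r).val : ℕ) := by rw [ZMod.natCast_zmod_val, add_sub_cancel]
  generalize (r' - r).val = k at hk e
  have h1 := sum_range_sub' (fun i : ℕ => g (r + i)) k
  rw [Nat.cast_zero, add_zero, ← e] at h1
  have inj : Set.InjOn (fun i : ℕ => r + (i : ZMod p)) (range k : Finset ℕ) := by
    intro i hi j hj h
    have h2 : (i : ZMod p) = j := by simpa using h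
    have h3 := congrArg ZMod.val h2
    rwa [ZMod.val_cast_of_lt ((mem_range.1 hi).trans hk),
      ZMod.val_cast_of_lt ((mem_range.1 hj).trans hk)] at h3
  rw [← h1]
  refine le_trans ?_ (sum_le_sum_of_subset_of_nonneg
    (subset_univ ((range k).image fun i : ℕ => r + (i : ZMod p))) fun _ _ _ => abs_nonneg _)
  rw [sum_image inj]
  refine sum_le_sum fun i _ => le_trans (le_of_eq ?_) (le_abs_self _)
  rw [Nat.cast_succ, ← add_assoc]

end

section
open Finset
open scoped Classical

open scoped MatrixOrder in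
theorem gram_ten (Z : Type) [Fintype Z] (k : Z → Z → ℝ) (α : ℝ)
    (hs : ∀ x y, k x y = k y x)
    (h : ∀ f : Z → ℝ, α * (∑ x, f x) ^ 2 ≤ ∑ x, ∑ y, f x * f y * k x y) :
    ∃ B : Z → Z → ℝ, ∀ x y, k x y = α + ∑ l, B l x * B l y := by
  have hR : (Matrix.of fun x y => k x y - α : Matrix Z Z ℝ).PosSemidef := by
    refine .of_dotProduct_mulVec_nonneg ?_ fun f => ?_
    · ext x y
      simp [hs x y]
    · have e : star f ⬝ᵥ (Matrix.of fun x y => k x y - α : Matrix Z Z ℝ).mulVec f =
          ∑ x, ∑ y, f x * f y * k x y - α * (∑ x, f x) ^ 2 := by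
        rw [sq, Finset.sum_mul_sum, Finset.mul_sum, ← Finset.sum_sub_distrib]
        simp only [dotProduct, Matrix.mulVec, Matrix.of_apply, star_trivial, Finset.mul_sum,
          ← Finset.sum_sub_distrib]
        exact Finset.sum_congr rfl fun x _ => Finset.sum_congr rfl fun y _ => by ring
      rw [e]
      exact sub_nonneg.2 (h f)
  obtain ⟨B, hB⟩ := CStarAlgebra.nonneg_iff_eq_star_mul_self.mp hR.nonneg
  refine ⟨fun l x => B l x, fun x y => ?_⟩
  have := congrFun (congrFun hB x) y
  simp only [Matrix.of_apply, Matrix.mul_apply, Matrix.star_apply, star_trivial] at this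
  linarith

theorem p_TEN :
    S_TEN := by
  intro Z _ k α hα hs h m X S g
  obtain ⟨B, hB⟩ := gram_ten Z k α hs h
  obtain ⟨v, hv, hv0⟩ : ∃ v : Option Z → Z → ℝ, (∀ x y, k x y = ∑ o, v o x * v o y) ∧
      ∀ x, v none x = √α :=
    ⟨fun o x => o.elim √α fun l => B l x, fun x y => by
      rw [Fintype.sum_option, hB]
      simp [Real.mul_self_sqrt hα], fun _ => rfl⟩
  have e : ∑ x ∈ S, ∑ y ∈ S, ∏ l, k (g x l) (g y l) =
      ∑ L : Fin m → Option Z, (∑ x ∈ S, ∏ l, v (L l) (g x l)) ^ 2 := by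
    simp only [hv, sq, Finset.sum_mul_sum, Finset.prod_univ_sum, Fintype.piFinset_univ,
      Finset.prod_mul_distrib]
    rw [Finset.sum_comm (s := univ)]
    exact Finset.sum_congr rfl fun x _ => Finset.sum_comm
  rw [e]
  refine le_trans (le_of_eq ?_) (Finset.single_le_sum
    (f := fun L : Fin m → Option Z => (∑ x ∈ S, ∏ l, v (L l) (g x l)) ^ 2)
    (fun _ _ => sq_nonneg _) (Finset.mem_univ fun _ => none))
  simp only [hv0, Finset.prod_const, Finset.card_univ, Fintype.card_fin, Finset.sum_const,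
    nsmul_eq_mul]
  rw [mul_pow, ← pow_mul, mul_comm m 2, pow_mul, Real.sq_sqrt hα, mul_comm]

end

section
open Finset
open scoped Classical

theorem fib_avf {α γ : Type} (B : Finset α) (a : α → γ) (f : α → ℝ) :
    ∑ b ∈ B, (∑ b' ∈ B.filter (fun b' => a b' = a b), f b') / #(B.filter fun b' => a b' = a b) =
      ∑ b ∈ B, f b := by
  have h1 : ∀ b ∈ B, (∑ b' ∈ B.filter (fun b' => a b' = a b), f b') /
      #(B.filter fun b' => a b' = a b) =
      ∑ b' ∈ B, if a b' = a b then f b' / #(B.filter fun c => a c = a b') else 0 := by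
    intro b _
    rw [sum_div, sum_filter]
    refine sum_congr rfl fun b' _ => ?_
    split_ifs with h
    · rw [h]
    · rfl
  rw [sum_congr rfl h1, sum_comm]
  refine sum_congr rfl fun b' hb' => ?_
  rw [← sum_filter, sum_const, nsmul_eq_mul]
  have e : (B.filter fun b => a b' = a b) = B.filter fun c => a c = a b' :=
    filter_congr fun c _ => eq_comm
  have hpos : (0 : ℝ) < #(B.filter fun c => a c = a b') := by
    have : 0 < #(B.filter fun c => a c = a b') := card_pos.2 ⟨b', mem_filter.2 ⟨hb', rfl⟩⟩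
    exact_mod_cast this
  rw [e]
  field_simp

theorem p_AVF (hSW : S_SW) :
    S_AVF := by
  intro p q m _ D f
  have key : ∀ (x : D.X) (F : (Fin m → ZMod p) → ℝ),
      ∑ β, F (D.bx x β) = ∑ b ∈ univ.filter (fun b => D.In x b), F b := by
    intro x F
    obtain ⟨h1, h2⟩ := (hSW p q m D f).2 x
    refine sum_bij (fun β _ => D.bx x β) (fun β _ => mem_filter.2 ⟨mem_univ _, Dat.In_bx x β⟩)
      (fun β _ β' _ h => h1 h) (fun b hb => ?_) (fun _ _ => rfl)
    obtain ⟨β, hβ⟩ := h2 b (mem_filter.1 hb).2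
    exact ⟨β, mem_univ _, hβ⟩
  rw [Dat.E_eq, Dat.E_eq]
  congr 1
  refine sum_congr rfl fun x _ => ?_
  rw [key x (fun b => mn (D.Fs x b) (f x)), key x (f x),
    ← fib_avf (univ.filter fun b => D.In x b) D.a (f x)]
  refine sum_congr rfl fun b _ => ?_
  have e : D.Fs x b = (univ.filter fun b => D.In x b).filter fun b' => D.a b' = D.a b := by
    rw [Dat.Fs, filter_filter]
  rw [e, mn]
  convert rfl

end

section
open Finset
open scoped Classical

theorem p_MH (hMG : S_MG) (hHOE : S_HOE) :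
    S_MH := by
  intro p q m _ D b
  obtain ⟨h1, h2, h3⟩ := hHOE q D.par.q2
  have q0 : (0 : ℝ) < q := D.par.q0'
  have q1 : (1 : ℝ) ≤ q := by exact_mod_cast D.par.q0
  have p0 : (0 : ℝ) < p := by exact_mod_cast NeZero.pos p
  have lq : 0 ≤ Real.log q := Real.log_nonneg q1
  have hB : ∀ y ∈ D.B b, ∀ i a, D.a b i = some a → ed q a (D.s y i) := fun y hy i a h =>
    ob_some (v := fun y => D.s y i) h y hy
  refine ⟨fun u => ?_, ?_, ?_⟩
  · have := hMG p q m D (D.a b) (D.B b) (fun i r => u i * r)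
      (fun i => Real.log q + u i ^ 2 * q ^ 2 / 8) hB (fun i => by positivity)
      (fun i => by simp) (fun i => h1 (u i))
    refine this.trans (le_of_eq ?_)
    congr 1
    rw [sum_add_distrib, sum_const, card_univ, Fintype.card_fin, nsmul_eq_mul]
    unfold Dat.no
    ring
  · have := hMG p q m D (D.a b) (D.B b) (fun _ r => -r ^ 2)
      (fun _ => Real.log q - 1 / (5 * q)) hB (fun _ => h3)
      (fun i => by simp) (fun _ => h2)
    simp only [sum_neg_distrib] at this
    refine this.trans (le_of_eq ?_)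
    congr 1
    rw [sum_const, card_univ, Fintype.card_fin, nsmul_eq_mul]
    unfold Dat.no
    ring
  · have := hMG p q m D (D.a b) (univ.filter fun y : D.X => ∃ b', D.In y b' ∧ D.a b' = D.a b)
      (fun _ _ => 0) (fun _ => Real.log q) (fun y hy i a h => by
        obtain ⟨b', e, e'⟩ := (mem_filter.1 hy).2
        have h' : D.a b' i = some a := by rw [e']; exact h
        exact ob_some (v := fun y => D.s y i) h' y (Dat.mem_B.2 e)) (fun _ => lq)
      (fun i => le_rfl) (fun _ => by simp [Real.exp_log q0])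
    simp only [sum_const_zero, Real.exp_zero, sum_const, nsmul_eq_mul, mul_one, card_univ,
      Fintype.card_fin] at this
    refine this.trans (le_of_eq ?_)
    rw [Real.exp_add, Real.exp_nat_mul, Real.exp_nat_mul, Real.exp_log q0, Real.exp_log p0]
    rfl

end

section
open Finset
open scoped Classical

theorem p_VT (hLG : S_LG) (hMH : S_MH) (hLJ : S_LJ) :
    S_VT := by
  intro p q m _ D
  have q0 := D.par.q0'
  refine ⟨?_, ?_, sum_nonneg fun i _ => Dat.E_nonneg fun x b _ => sq_nonneg _⟩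
  · have h1 := hLG p q m D ∅ (fun x b => -∑ i, D.sg i x b ^ 2)
      (fun _ b => m * Real.log q - m / (5 * q) + D.no b * Real.log p) fun x b _ => by
        rw [Dat.A_empty]; exact (hMH p q m D b).2.1
    have h2 := ((hLJ p q m D).2 ∅).1
    have e1 : D.E (fun x b => -∑ i, D.sg i x b ^ 2) = -D.v := by
      rw [Dat.v, ← Dat.E_sum, ← neg_one_mul, ← Dat.E_mul]
      exact Dat.E_congr fun x b _ => by ring
    have e2 : D.E (fun _ b => m * Real.log q - m / (5 * q) + D.no b * Real.log p) =
        m * Real.log q - m / (5 * q) + D.nu * Real.log p := by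
      rw [Dat.E_add, Dat.E_const, Dat.nu, mul_comm (D.E _), ← Dat.E_mul]
      congr 1
      exact Dat.E_congr fun x b _ => by ring
    rw [e1, e2] at h1
    simp only [card_empty, Nat.cast_zero, sub_zero] at h2
    linarith
  · have h1 : ∀ i, D.E (fun x b => D.sg i x b ^ 2) ≤ q ^ 2 := fun i => by
      refine (Dat.E_mono fun x b h => ?_).trans (Dat.E_const (D := D) ((q : ℝ) ^ 2)).le
      have := Dat.abs_sg_le i h
      rw [← sq_abs]
      exact pow_le_pow_left₀ (abs_nonneg _) (by linarith) 2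
    refine (sum_le_sum fun i _ => h1 i).trans ?_
    simp [mul_comm]

end

section
open Finset
open scoped Classical

theorem jensen_bz {C : Type} {A : Finset C} (h : A.Nonempty) (f : C → ℝ) :
    Real.exp (mn A f) ≤ mn A fun y => Real.exp (f y) := by
  have h1 : mn A (fun y => Real.exp (mn A f) * (1 + f y - mn A f)) = Real.exp (mn A f) := by
    rw [mn_mul, mn_sub, mn_add, mn_const h, mn_const h]; ring
  rw [← h1]
  refine mn_mono fun y _ => ?_
  have h2 := Real.add_one_le_exp (f y - mn A f)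
  have h3 : Real.exp (f y) = Real.exp (mn A f) * Real.exp (f y - mn A f) := by
    rw [← Real.exp_add]; congr 1; ring
  rw [h3]
  exact mul_le_mul_of_nonneg_left (by linarith) (Real.exp_pos _).le

theorem mn_sum_bz {C ι : Type} (A : Finset C) (S : Finset ι) (f : ι → C → ℝ) :
    mn A (fun y => ∑ i ∈ S, f i y) = ∑ i ∈ S, mn A (f i) := by
  simp only [mn]
  rw [sum_comm, sum_div]

variable {p q m : ℕ} [NeZero p] (D : Dat p q m)

theorem step1_bz (J J' : Finset (Fin m)) (b : Fin m → ZMod p) (F : D.X → D.X → ℝ)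
    (hF : ∀ x, ∀ y ∈ D.A J x b, ∀ y' ∈ D.A J' x b, F y y' = F x x) (x : D.X) :
    (#(D.A J x b) * #(D.A J' x b) / #(D.A (J ∪ J') x b) : ℝ) * F x x =
      ∑ y' ∈ D.B b, ∑ y ∈ D.B b,
        if y ∈ D.A J x b ∧ y' ∈ D.A J' x b then F y y' / #(D.A (J ∪ J') x b) else 0 := by
  have e1 : ∀ (K : Finset (Fin m)), (D.B b).filter (fun y => y ∈ D.A K x b) = D.A K x b :=
    fun K => by
      ext y
      simp only [mem_filter]
      exact ⟨fun h => h.2, fun h => ⟨Dat.A_sub K x b h, h⟩⟩
  have e2 : ∀ y' ∈ D.B b, (∑ y ∈ D.B b,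
      if y ∈ D.A J x b ∧ y' ∈ D.A J' x b then F y y' / #(D.A (J ∪ J') x b) else 0) =
      if y' ∈ D.A J' x b then #(D.A J x b) * (F x x / #(D.A (J ∪ J') x b)) else 0 := by
    intro y' _
    by_cases h : y' ∈ D.A J' x b
    · simp only [h, and_true, if_true]
      rw [← sum_filter, e1, sum_congr rfl fun y hy => by rw [hF x y hy y' h], sum_const,
        nsmul_eq_mul]
    · simp [h]
  rw [sum_congr rfl e2, ← sum_filter, e1, sum_const, nsmul_eq_mul]
  ring

theorem step2_bz (J J' : Finset (Fin m)) (b : Fin m → ZMod p) (t : ℝ) (ht : 0 ≤ t) (y y' : D.X) :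
    (∑ x ∈ D.B b,
      if y ∈ D.A J x b ∧ y' ∈ D.A J' x b then t / #(D.A (J ∪ J') x b) else 0) ≤ t := by
  rw [← sum_filter]
  set T := (D.B b).filter fun x => y ∈ D.A J x b ∧ y' ∈ D.A J' x b with hT
  have e : ∀ x ∈ T, D.A (J ∪ J') x b = T := by
    intro x hx
    obtain ⟨-, h1, h2⟩ := mem_filter.1 hx
    ext z
    simp only [hT, mem_filter, Dat.mem_A, Dat.mem_B, mem_union] at h1 h2 ⊢
    constructor
    · rintro ⟨a, a'⟩
      exact ⟨a, ⟨h1.1, fun l hl => (h1.2 l hl).trans (a' l (Or.inl hl)).symm⟩,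
        h2.1, fun l hl => (h2.2 l hl).trans (a' l (Or.inr hl)).symm⟩
    · rintro ⟨a, a1, a2⟩
      refine ⟨a, fun l hl => ?_⟩
      rcases hl with hl | hl
      · exact (a1.2 l hl).symm.trans (h1.2 l hl)
      · exact (a2.2 l hl).symm.trans (h2.2 l hl)
  rw [sum_congr rfl fun x hx => by rw [e x hx], sum_const, nsmul_eq_mul]
  rcases Nat.eq_zero_or_pos #T with h | h
  · simpa [h] using ht
  · have : (0 : ℝ) < #T := by exact_mod_cast h
    rw [mul_div_cancel₀ _ this.ne']

theorem p_BZ (hAVG : S_AVG) (hMH : S_MH) :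
    S_BZ := by
  intro p q m _ D J J' lam b
  have hF : ∀ x, ∀ y ∈ D.A J x b, ∀ y' ∈ D.A J' x b,
      Real.exp (lam * ∑ i, D.M J i y b * D.M J' i y' b) =
        Real.exp (lam * ∑ i, D.M J i x b * D.M J' i x b) := by
    intro x y hy y' hy'
    simp only [Dat.M, Dat.A_eq hy, Dat.A_eq hy']
  rw [sum_congr rfl fun x _ => step1_bz D J J' b
    (fun y y' => Real.exp (lam * ∑ i, D.M J i y b * D.M J' i y' b)) hF x, sum_comm,
    ← nsmul_eq_mul, ← sum_const]
  refine sum_le_sum fun y' _ => ?_
  rw [sum_comm]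
  refine (sum_le_sum fun y _ => step2_bz D J J' b _ (Real.exp_pos _).le y y').trans ?_
  have h1 : ∀ y ∈ D.B b, Real.exp (lam * ∑ i, D.M J i y b * D.M J' i y' b) ≤
      mn (D.A J y b) fun z => Real.exp (∑ i, lam * D.M J' i y' b * D.sg i z b) := by
    intro y hy
    refine le_trans (le_of_eq ?_) (jensen_bz ⟨y, Dat.self_mem_A J (Dat.mem_B.1 hy)⟩ _)
    rw [mn_sum_bz, mul_sum]
    congr 1
    refine sum_congr rfl fun i _ => ?_
    rw [mn_mul]
    simp only [Dat.M]
    ring
  refine (sum_le_sum h1).trans ?_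
  rw [(hAVG p q m D J).1 b]
  refine ((hMH p q m D b).1 fun i => lam * D.M J' i y' b).trans (Real.exp_le_exp.2 ?_)
  have h2 : ∀ i ∈ (univ : Finset (Fin m)),
      (lam * D.M J' i y' b) ^ 2 * q ^ 2 / 8 ≤ lam ^ 2 * q ^ 4 / 8 := by
    intro i _
    have h3 := Dat.abs_M_le (D := D) J' i y' b
    have hq : (0 : ℝ) ≤ q := by positivity
    have h4 : D.M J' i y' b ^ 2 ≤ (q : ℝ) ^ 2 := by
      rw [← sq_abs]
      exact pow_le_pow_left₀ (abs_nonneg _) (by linarith) 2
    have h5 : (0 : ℝ) ≤ lam ^ 2 * q ^ 2 := by positivity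
    have := mul_le_mul_of_nonneg_left h4 h5
    nlinarith
  have h6 := sum_le_sum h2
  rw [sum_const, card_univ, Fintype.card_fin, nsmul_eq_mul] at h6
  linarith

end

section
open Finset
open scoped Classical

theorem card_le_qq {p q : ℕ} [NeZero p] (P : Par p q) (b b' : ZMod p) :
    #(univ.filter fun z => ed q b z ∧ ed q b' z) ≤ q := by
  refine le_trans (card_le_card fun z hz => ?_) (P.card_arc b).le
  simp only [mem_filter, mem_univ, true_and] at hz ⊢
  exact hz.1

theorem card_lt_qq {p q : ℕ} [NeZero p] (P : Par p q) {b b' : ZMod p} (h : b' ≠ b) :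
    #(univ.filter fun z => ed q b z ∧ ed q b' z) + 1 ≤ q := by
  have q2 := P.q2
  have hp := P.hp
  refine le_trans (card_lt_card (t := univ.filter (ed q b)) ⟨fun z hz => ?_, fun hs => ?_⟩)
    (P.card_arc b).le
  · simp only [mem_filter, mem_univ, true_and] at hz ⊢
    exact hz.1
  · have h1 := hs (mem_filter.2 ⟨mem_univ b, P.ed_self b⟩)
    have h2 := hs (mem_filter.2 ⟨mem_univ _, P.ed_add b (t := q - 1) (by omega)⟩)
    obtain ⟨t, ht, e⟩ := P.ed_iff.1 (mem_filter.1 h1).2.2
    obtain ⟨t', ht', e'⟩ := P.ed_iff.1 (mem_filter.1 h2).2.2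
    have e3 : (((t + (q - 1) : ℕ) : ℤ) : ZMod p) = ((t' : ℤ) : ZMod p) := by
      rw [Int.cast_natCast, Int.cast_natCast, Nat.cast_add]
      linear_combination e' - e
    have e4 := int_eq e3 (by rw [abs_lt]; omega)
    have : t = 0 := by omega
    apply h
    rw [e, this]
    simp

theorem exp_qq {q : ℕ} (hq : (0 : ℝ) < q) : ((q : ℝ) - 1) * Real.exp (1 / q) ≤ q := by
  have h1 := Real.add_one_le_exp (-(1 / q))
  have h2 : Real.exp (-(1 / q : ℝ)) * Real.exp (1 / q) = 1 := by
    rw [← Real.exp_add]; simp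
  have h3 := mul_le_mul_of_nonneg_right h1 (Real.exp_pos (1 / q)).le
  rw [h2] at h3
  have h4 : ((q : ℝ) - 1) * Real.exp (1 / q) = q * ((-(1 / q) + 1) * Real.exp (1 / q)) := by
    field_simp
    ring
  rw [h4]
  nlinarith

theorem p_QQ :
    S_QQ := by
  intro p q m _ D b b'
  have P := D.par
  have hq := P.q0'
  have h1 := sum_prod_le (univ.filter fun x => D.In x b ∧ D.In x b') D.c D.cinj
    (fun l => univ.filter fun z => ed q (b l) z ∧ ed q (b' l) z)
    (fun y hy l => mem_filter.2 ⟨mem_univ _, (mem_filter.1 hy).2.1 l, (mem_filter.1 hy).2.2 l⟩)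
    (fun _ _ => 1) (fun _ _ => zero_le_one)
  simp only [prod_const_one, sum_const, nsmul_eq_mul, mul_one] at h1
  have h2 : Real.exp (#(univ.filter fun l => b' l ≠ b l) / q) =
      ∏ l, if b' l ≠ b l then Real.exp (1 / q) else 1 := by
    rw [← prod_filter, prod_const, ← Real.exp_nat_mul]
    congr 1
    ring
  refine (mul_le_mul_of_nonneg_right h1 (Real.exp_pos _).le).trans ?_
  rw [h2, ← prod_mul_distrib]
  refine (prod_le_prod (g := fun _ => (q : ℝ)) (fun l _ => ?_) fun l _ => ?_).trans (by simp)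
  · split_ifs <;> positivity
  · split_ifs with h
    · have h3 : (#(univ.filter fun z => ed q (b l) z ∧ ed q (b' l) z) : ℝ) + 1 ≤ q := by
        exact_mod_cast card_lt_qq P h
      exact (mul_le_mul_of_nonneg_right (by linarith) (Real.exp_pos _).le).trans (exp_qq hq)
    · rw [mul_one]
      exact_mod_cast card_le_qq P (b l) (b' l)

end

section
open Finset
open scoped Classical

theorem key_eb (hMH : S_MH) {p q m : ℕ} [NeZero p] (D : Dat p q m) (b' : Fin m → ZMod p) :
    ∑ b, ∑ x ∈ D.B b,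
      (if D.a b' = D.a b then (1 : ℝ) else 0) / (#(D.Fs x b) * p ^ D.no b) ≤ q ^ m := by
  have p0 : (0 : ℝ) < (p : ℝ) ^ D.no b' := pow_pos (by exact_mod_cast NeZero.pos p) _
  have h1 := (hMH p q m D b').2.2
  rw [← div_le_iff₀ p0] at h1
  refine le_trans ?_ h1
  simp only [Dat.B, sum_filter]
  rw [sum_comm, card_filter, Nat.cast_sum, sum_div]
  refine sum_le_sum fun x _ => ?_
  have e : ∀ b, (if D.In x b then (if D.a b' = D.a b then (1 : ℝ) else 0) /
      (#(D.Fs x b) * p ^ D.no b) else 0) =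
      if D.In x b ∧ D.a b = D.a b' then 1 / ((#(D.Fs x b') : ℝ) * p ^ D.no b') else 0 := fun b => by
    by_cases h : D.In x b
    · by_cases h' : D.a b = D.a b'
      · simp [h, h', Dat.Fs, Dat.no]
      · simp [h, h', Ne.symm h']
    · simp [h]
  simp only [e]
  rw [← sum_filter, sum_const, nsmul_eq_mul]
  change (#(D.Fs x b') : ℝ) * _ ≤ _
  rcases (D.Fs x b').eq_empty_or_nonempty with h | ⟨b, hb⟩
  · rw [h, card_empty, Nat.cast_zero, zero_mul]; positivity
  · have : (#(D.Fs x b') : ℝ) ≠ 0 := by exact_mod_cast (card_pos.2 ⟨b, hb⟩).ne'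
    rw [if_pos ⟨b, (mem_filter.1 hb).2⟩, Nat.cast_one]
    exact le_of_eq (by field_simp)

theorem p_EB (hLU : S_LU) (hSW : S_SW) (hMH : S_MH) :
    S_EB := by
  intro p q m _ D
  have _ := hLU
  have q0 := D.par.q0'
  have p0 : (0 : ℝ) < p := by exact_mod_cast NeZero.pos p
  have hn : (0 : ℝ) < Fintype.card D.X * q ^ m := mul_pos Dat.card_pos (by positivity)
  have hN : ∑ b, (#(D.B b) : ℝ) = Fintype.card D.X * q ^ m := by
    have := (hSW p q m D fun _ _ => 1).1
    simp only [sum_const, card_univ, nsmul_eq_mul, mul_one, Fintype.card_fun,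
      Fintype.card_fin, Nat.cast_pow] at this
    exact this.symm
  have h1 : D.E (fun x b => (D.V b : ℝ) / (#(D.Fs x b) * p ^ D.no b)) ≤ q ^ m := by
    rw [Dat.E_eq, div_le_iff₀ hn,
      (hSW p q m D fun x b => (D.V b : ℝ) / (#(D.Fs x b) * p ^ D.no b)).1, ← hN, mul_sum]
    have e : ∀ b, ∑ x ∈ D.B b, (D.V b : ℝ) / (#(D.Fs x b) * p ^ D.no b) =
        ∑ b', (∑ x ∈ D.B b, (if D.a b' = D.a b then (1 : ℝ) else 0) /
          (#(D.Fs x b) * p ^ D.no b)) * #(D.B b') := fun b => by
      simp only [sum_mul]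
      rw [sum_comm]
      refine sum_congr rfl fun x _ => ?_
      rw [Dat.V, sum_filter, Nat.cast_sum, sum_div]
      refine sum_congr rfl fun b' _ => ?_
      split_ifs
      · rw [div_mul_eq_mul_div, one_mul]
      · simp
    simp only [e]
    rw [sum_comm]
    refine sum_le_sum fun b' _ => ?_
    rw [← sum_mul]
    exact mul_le_mul_of_nonneg_right (key_eb hMH D b') (Nat.cast_nonneg _)
  have h2 : D.E (fun x b => Real.log (D.V b) - Real.log #(D.Fs x b)) ≤
      D.E fun x b => (m * Real.log q - 1) + Real.log p * D.no b +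
        ((q : ℝ) ^ m)⁻¹ * ((D.V b : ℝ) / (#(D.Fs x b) * p ^ D.no b)) := by
    refine Dat.E_mono fun x b h => ?_
    have a1 : (0 : ℝ) < #(D.Fs x b) := by
      have : b ∈ D.Fs x b := mem_filter.2 ⟨mem_univ _, h, rfl⟩
      exact_mod_cast card_pos.2 ⟨b, this⟩
    have a2 : (0 : ℝ) < D.V b := by
      have : 0 < #(D.B b) := card_pos.2 ⟨x, Dat.mem_B.2 h⟩
      have h' : #(D.B b) ≤ D.V b := single_le_sum (f := fun b => #(D.B b))
        (fun _ _ => Nat.zero_le _) (mem_filter.2 ⟨mem_univ b, rfl⟩)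
      exact_mod_cast this.trans_le h'
    have := Real.log_le_sub_one_of_pos (mul_pos (inv_pos.2 (pow_pos q0 m))
      (div_pos a2 (mul_pos a1 (pow_pos p0 (D.no b)))))
    rw [Real.log_mul (by positivity) (by positivity), Real.log_div a2.ne' (by positivity),
      Real.log_mul a1.ne' (by positivity), Real.log_inv, Real.log_pow, Real.log_pow] at this
    linarith
  rw [Dat.E_add, Dat.E_add, Dat.E_const, Dat.E_mul, Dat.E_mul] at h2
  have h3 : ((q : ℝ) ^ m)⁻¹ * D.E (fun x b => (D.V b : ℝ) / (#(D.Fs x b) * p ^ D.no b)) ≤ 1 := by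
    rw [inv_mul_le_iff₀ (by positivity), mul_one]; exact h1
  rw [Dat.nu]
  linarith

end

section
open Finset
open scoped Classical

theorem xc_u2 {p q m : ℕ} [NeZero p] (D : Dat p q m) (f : D.X → (Fin m → Fin q) → ℝ) :
    D.xE (fun x => cE (f x)) = (∑ x, ∑ β, f x β) / (Fintype.card D.X * q ^ m) := by
  rw [Dat.xE]; simp only [cE]; rw [← sum_div, div_div, mul_comm]

/-- the weight of a base -/
noncomputable def om_u2 {p : ℕ} (q : ℕ) (z u : ℝ) (s : ZMod p) (o : Option (ZMod p)) : ℝ :=
  o.elim z fun a =>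
    if ed q a s then Real.exp (u * ((pos a s : ℝ) - (q - 1) / 2) - u ^ 2 * q ^ 2 / 8) / q else 0

theorem om_nonneg_u2 {p : ℕ} (q : ℕ) {z : ℝ} (hz : 0 < z) (u : ℝ) (s : ZMod p)
    (o : Option (ZMod p)) : 0 ≤ om_u2 q z u s o := by
  rcases o with _ | a
  · exact hz.le
  · simp only [om_u2, Option.elim]; split_ifs <;> positivity

theorem om_sum_u2 (hHOE : S_HOE) {p q : ℕ} [NeZero p] (P : Par p q) (z u : ℝ) (s : ZMod p) :
    ∑ o, om_u2 q z u s o ≤ 1 + z := by
  have q0 := P.q0'
  rw [Fintype.sum_option]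
  simp only [om_u2, Option.elim]
  rw [← sum_filter, P.sum_arc' s fun a =>
    Real.exp (u * ((pos a s : ℝ) - (q - 1) / 2) - u ^ 2 * q ^ 2 / 8) / q,
    sum_congr rfl fun t ht => by rw [pos_sub s ((mem_range.1 ht).trans P.qp), Real.exp_sub],
    ← sum_div, ← sum_div, add_comm, add_le_add_iff_right, div_le_one q0,
    div_le_iff₀ (Real.exp_pos _)]
  have := (hHOE q P.q2).1 u
  rwa [Real.exp_add, Real.exp_log q0] at this

theorem om_log_u2 {p q : ℕ} [NeZero p] (P : Par p q) {z : ℝ} (hz : 0 < z) (u : ℝ) (s : ZMod p)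
    (o : Option (ZMod p)) (h : ∀ a, o = some a → ed q a s) : 0 < om_u2 q z u s o ∧
      u * sgo q o s - u ^ 2 * q ^ 2 / 8 ≤
        Real.log (om_u2 q z u s o / (1 + z)) + (Real.log q + z) + (if o = none then 1 else 0) / z := by
  have q0 := P.q0'
  have l1 : Real.log (1 + z) ≤ z := by
    have := Real.log_le_sub_one_of_pos (show 0 < 1 + z by linarith); linarith
  rcases o with _ | a
  · refine ⟨hz, ?_⟩
    simp only [om_u2, sgo, Option.elim, if_true]
    rw [Real.log_div hz.ne' (by linarith)]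
    have l2 := Real.one_sub_inv_le_log_of_pos hz
    have l3 : 0 ≤ Real.log q := Real.log_natCast_nonneg q
    have l4 : 0 ≤ u ^ 2 * q ^ 2 / 8 := by positivity
    rw [one_div]; linarith
  · simp only [om_u2, sgo, Option.elim, if_pos (h a rfl)]
    refine ⟨by positivity, ?_⟩
    rw [Real.log_div (by positivity) (by linarith), Real.log_div (by positivity) q0.ne',
      Real.log_exp, if_neg (by simp), zero_div]
    linarith

theorem p_U2 (hLU : S_LU) (hHOE : S_HOE) (hSW : S_SW) :
    S_U2 := by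
  intro p q m _ D U u z hz hu
  have hN := Dat.card_pos (D := D)
  have q0 := D.par.q0'
  let o : Fin q := ⟨0, D.par.q0⟩
  let g : D.X → (Fin m → Fin q) → Fin m → Fin q := fun x β j => if j ∈ U x then β j else o
  let w : D.X × (Fin m → Fin q) × (Fin m → Option (ZMod p)) → ℝ := fun y =>
    if ∀ j, j ∉ U y.1 → y.2.1 j = o then 1 / (Fintype.card D.X * q ^ #(U y.1)) *
      ∏ i, om_u2 q z (u i y.1 y.2.1) (D.s y.1 i) (y.2.2 i) / (1 + z) else 0
  have hom : ∀ x β i, 0 < om_u2 q z (u i x β) (D.s x i) (D.a (D.bx x β) i) ∧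
      u i x β * D.sg i x (D.bx x β) - u i x β ^ 2 * q ^ 2 / 8 ≤
        Real.log (om_u2 q z (u i x β) (D.s x i) (D.a (D.bx x β) i) / (1 + z)) +
          (Real.log q + z) + (if D.a (D.bx x β) i = none then 1 else 0) / z := fun x β i =>
    om_log_u2 D.par hz _ _ _ fun a h => ob_some h x (Dat.mem_B.2 (Dat.In_bx x β))
  have hw : ∀ x β, w (x, g x β, D.a (D.bx x β)) = 1 / (Fintype.card D.X * q ^ #(U x)) *
      ∏ i, om_u2 q z (u i x β) (D.s x i) (D.a (D.bx x β) i) / (1 + z) := fun x β => by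
    simp only [w]
    rw [if_pos fun j hj => if_neg hj]
    exact congrArg _ (prod_congr rfl fun i _ => by
      rw [hu i x (g x β) β fun j hj => if_pos hj])
  have key := hLU p q m D _ (fun x β => (x, g x β, D.a (D.bx x β))) w
    (fun x b => #(D.Fs x b))
    (fun y => by
      simp only [w]
      split_ifs
      · exact mul_nonneg (by positivity) (prod_nonneg fun i _ =>
          div_nonneg (om_nonneg_u2 q hz _ _ _) (by positivity))
      · rfl)
    (by
      rw [Fintype.sum_prod_type]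
      refine (sum_le_sum (g := fun _ => 1 / (Fintype.card D.X : ℝ)) fun x _ => ?_).trans
        (by simp [mul_inv_cancel₀ hN.ne'])
      rw [Fintype.sum_prod_type]
      refine (sum_le_sum (g := fun γ : Fin m → Fin q => if ∀ j, j ∉ U x → γ j = o then
        1 / ((Fintype.card D.X : ℝ) * q ^ #(U x)) else 0) fun γ _ => ?_).trans ?_
      · simp only [w]
        split_ifs
        · rw [← mul_sum, ← Fintype.piFinset_univ, ← prod_univ_sum (fun _ => univ)
            fun i o => om_u2 q z (u i x γ) (D.s x i) o / (1 + z)]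
          refine mul_le_of_le_one_right (by positivity) (prod_le_one (fun i _ => sum_nonneg
            fun _ _ => div_nonneg (om_nonneg_u2 q hz _ _ _) (by positivity)) fun i _ => ?_)
          rw [← sum_div, div_le_one (by positivity)]
          exact om_sum_u2 hHOE D.par _ _ _
        · simp
      · rw [← sum_filter, sum_const, show univ.filter (fun γ : Fin m → Fin q =>
            ∀ j, j ∉ U x → γ j = o) = Fintype.piFinset fun j => if j ∈ U x then univ else {o} by
          ext γ
          simp only [mem_filter, mem_univ, true_and, Fintype.mem_piFinset]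
          exact forall_congr' fun j => by by_cases h : j ∈ U x <;> simp [h],
          Fintype.card_piFinset, nsmul_eq_mul]
        simp only [apply_ite card, card_univ, Fintype.card_fin, card_singleton, prod_ite_mem,
          univ_inter, prod_const]
        push_cast
        exact le_of_eq (by field_simp))
    (fun x β => by
      rw [hw]
      exact mul_pos (by positivity) (prod_pos fun i _ => div_pos (hom x β i).1 (by positivity)))
    (fun x β => by
      refine Nat.cast_le.2 (card_le_card_of_injOn (fun ω => D.bx x ω.2) ?_ ?_)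
      · rintro ⟨x', β'⟩ h
        simp only [coe_filter, mem_univ, true_and, Set.mem_ofPred_eq, Prod.mk.injEq] at h
        obtain ⟨rfl, -, e⟩ := h
        exact mem_filter.2 ⟨mem_univ _, Dat.In_bx _ _, e⟩
      · rintro ⟨x1, β1⟩ h1 ⟨x2, β2⟩ h2 e
        simp only [coe_filter, mem_univ, true_and, Set.mem_ofPred_eq, Prod.mk.injEq] at h1 h2
        exact Prod.ext (h1.1.trans h2.1.symm) (((hSW p q m D fun _ _ => 0).2 x).1 e))
  have pt : ∀ x β, ∑ i, (u i x β * D.sg i x (D.bx x β) - u i x β ^ 2 * q ^ 2 / 8) ≤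
      Real.log (w (x, g x β, D.a (D.bx x β))) + (#(U x) * Real.log q +
        (Real.log (Fintype.card D.X) + m * (Real.log q + z))) + D.no (D.bx x β) / z := fun x β => by
    refine (sum_le_sum fun i _ => (hom x β i).2).trans (le_of_eq ?_)
    rw [hw, Real.log_mul (by positivity) (prod_pos fun i _ =>
      div_pos (hom x β i).1 (by positivity)).ne', Real.log_prod fun i _ =>
      (div_pos (hom x β i).1 (by positivity)).ne', one_div, Real.log_inv,
      Real.log_mul hN.ne' (by positivity), Real.log_pow, sum_add_distrib, sum_add_distrib,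
      ← sum_div, sum_boole, Dat.no]
    simp only [sum_const, card_univ, Fintype.card_fin, nsmul_eq_mul]
    ring
  have sm := sum_le_sum (s := univ) fun x _ => sum_le_sum (s := univ) fun β _ => pt x β
  simp only [sum_add_distrib, sum_const, card_univ, Fintype.card_fun, Fintype.card_fin,
    nsmul_eq_mul, ← mul_sum, ← sum_mul, ← sum_div] at sm
  rw [xc_u2, ← Dat.phi, div_le_iff₀ (by positivity)] at key
  simp only [xc_u2, ← sum_div]
  rw [sum_comm, sum_congr rfl fun x _ => sum_comm, div_le_iff₀ (by positivity), Dat.nu, Dat.E_eq,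
    Dat.xE]
  push_cast at sm
  refine sm.trans ((add_le_add_left (add_le_add_left key _) _).trans (le_of_eq ?_))
  field_simp
  ring

end

section
open Finset
open scoped Classical

theorem ps_eq_mart {p q : ℕ} [NeZero p] (P : Par p q) {C : Type} {v : C → ZMod p} {A : Finset C}
    {a : ZMod p} (h : ∀ y ∈ A, ed q a (v y)) {y : C} (hy : y ∈ A) :
    ps q v A y = mn A (fun z => pos a (v z)) - pos a (v y) := by
  rw [ps, if_pos ⟨a, h⟩, ← mn_const ⟨y, hy⟩ (pos a (v y) : ℝ), ← mn_sub]
  exact mn_congr fun z hz => by rw [P.lf_ed (h y hy) (h z hz)]; push_cast; rfl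

theorem mn_ps_mart {p q : ℕ} [NeZero p] (P : Par p q) {C : Type} (v : C → ZMod p) {A : Finset C}
    (hA : A.Nonempty) : mn A (ps q v A) = 0 := by
  by_cases h : arc q v A
  · obtain ⟨a, h⟩ := h
    rw [mn_congr fun y hy => ps_eq_mart P h hy, mn_sub, mn_const hA, sub_self]
  · exact (mn_congr (g := fun _ => 0) fun y _ => if_neg h).trans (mn_const hA 0)

theorem p_MART (hAVG : S_AVG) :
    S_MART := by
  intro p q m _ D J j
  have sub : ∀ x b, D.A (insert j J) x b ⊆ D.A J x b := Dat.A_mono (subset_insert j J)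
  rw [Dat.e, Dat.e, ← sum_sub_distrib]
  refine sum_le_sum fun i _ => ?_
  have h0 : D.E (fun x b => ind (D.ar J i x b) * D.del J i j x b * D.psi (insert j J) i x b) = 0 := by
    rw [← (hAVG p q m D (insert j J)).2 (D.psi (insert j J) i)
      (fun x b => ind (D.ar J i x b) * D.del J i j x b) fun x b y hy hx => ?_]
    · refine (Dat.E_congr fun x b hx => ?_).trans (Dat.E_const 0)
      rw [mn_congr (g := ps q (fun y => D.s y i) (D.A (insert j J) x b)) fun y hy => by
        rw [Dat.psi, Dat.A_eq hy], mn_ps_mart D.par _ ⟨x, Dat.self_mem_A _ hx⟩, mul_zero]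
    · simp only [Dat.ar, Dat.del, Dat.psi, Dat.A_eq hy, Dat.A_eq (sub x b hy)]
      unfold ind
      split_ifs with h
      · obtain ⟨a, h⟩ := h
        have h' : ∀ y ∈ D.A (insert j J) x b, ed q a (D.s y i) := fun y e => h y (sub x b e)
        rw [ps_eq_mart D.par h (sub x b hy), ps_eq_mart D.par h (Dat.self_mem_A _ hx),
          ps_eq_mart D.par h' hy, ps_eq_mart D.par h' (Dat.self_mem_A _ hx)]
        ring
      · simp
  rw [← Dat.E_sub, ← add_zero (D.E _), ← mul_zero 2, ← h0, ← Dat.E_mul, ← Dat.E_add]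
  refine Dat.E_mono fun x b hx => ?_
  have a1 := abs_le.1 (Dat.abs_psi_le (insert j J) i hx)
  have q1 : (1 : ℝ) ≤ q := by exact_mod_cast D.par.q0
  by_cases h : D.ar J i x b
  · have h' : D.ar (insert j J) i x b := arc.mono h (sub x b)
    simp only [Dat.nn, Dat.del, ind, h, h', not_true, false_and, if_true, if_false]
    linarith
  · have z : D.psi J i x b = 0 := if_neg h
    by_cases h' : D.ar (insert j J) i x b
    · simp only [Dat.nn, Dat.del, ind, h, h', z, not_true, not_false_iff, true_and, if_true,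
        if_false]
      nlinarith
    · have z' : D.psi (insert j J) i x b = 0 := if_neg h'
      simp [Dat.nn, Dat.del, ind, h, h', z, z']

end

section
open Finset
open scoped Classical

theorem p_DEC :
    S_DEC := by
  intro p q _ P C Y cl f
  have h2 : ∀ f : C → ℝ, ∑ y ∈ Y, f y = ∑ r, ∑ y ∈ ce Y cl r, f y := fun f =>
    (sum_fiberwise Y cl f).symm
  refine ⟨fun r => ?_, h2 f, fun g => ?_, fun hb r => ?_⟩
  · rw [← P.sum_arc r fun z => ∑ y ∈ ce Y cl z, f y]
    simp only [ce, bo, sum_filter]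
    rw [sum_congr rfl fun y _ => (show (if ed q r (cl y) then f y else 0) =
      ∑ z, if ed q r z then (if cl y = z then f y else 0) else 0 by
        rw [sum_eq_single (cl y) (fun z _ hz => by simp [hz.symm]) (by simp), if_pos rfl]),
      sum_comm]
    exact sum_congr rfl fun z _ => by split_ifs <;> simp
  · rw [sum_congr rfl fun y _ => (Fin.sum_univ_eq_sum_range (fun t : ℕ => g (cl y - t)) q).trans
      (P.sum_arc' _ g).symm, sum_comm' (t' := univ) (s' := fun r => bo q Y cl r) (by simp [mem_bo])]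
    simp
  · have h := h2 fun _ => 1
    simp only [sum_const, nsmul_eq_mul, mul_one] at h
    rw [h]
    refine (sum_le_sum fun r' _ => hb r' r).trans (le_of_eq ?_)
    rw [sum_const, card_univ, ZMod.card, nsmul_eq_mul]
    ring

end

section
open Finset
open scoped Classical

theorem ctr_tb (q : ℕ) : ∑ k ∈ range q, ((k : ℝ) - (q - 1) / 2) = 0 := by
  have h : ∀ n : ℕ, ∑ k ∈ range n, (k : ℝ) = n * ((n - 1) / 2) := by
    intro n
    induction n with
    | zero => simp
    | succ n ih => rw [sum_range_succ, ih]; push_cast; ring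
  rw [sum_sub_distrib, h, sum_const, card_range, nsmul_eq_mul, sub_self]

theorem num_tb (q : ℕ) (n : ℕ → ℝ) (a κ : ℝ) (hκ : 0 ≤ κ) (ha : 0 ≤ a)
    (h : ∀ k ∈ range q, a ≤ n k ∧ n k ≤ (1 + κ) * a) :
    |∑ k ∈ range q, n k * (k - (q - 1) / 2)| ≤ κ * q * ∑ k ∈ range q, n k := by
  have e : ∑ k ∈ range q, n k * ((k : ℝ) - (q - 1) / 2) =
      ∑ k ∈ range q, (n k - a) * ((k : ℝ) - (q - 1) / 2) := by
    simp only [sub_mul (n _) a, sum_sub_distrib (f := fun k => n k * _), ← mul_sum, ctr_tb]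
    ring
  rw [e, mul_sum]
  refine (abs_sum_le_sum_abs _ _).trans (sum_le_sum fun k hk => ?_)
  obtain ⟨h1, h2⟩ := h k hk
  have h3 : (k : ℝ) + 1 ≤ q := by exact_mod_cast mem_range.1 hk
  have h4 : (0 : ℝ) ≤ k := Nat.cast_nonneg k
  have h5 : |(k : ℝ) - (q - 1) / 2| ≤ q := abs_le.2 ⟨by linarith, by linarith⟩
  rw [abs_mul, abs_of_nonneg (sub_nonneg.2 h1), mul_right_comm]
  exact mul_le_mul (by nlinarith) h5 (abs_nonneg _) (mul_nonneg hκ (ha.trans h1))

theorem p_TB (hDEC : S_DEC) :
    S_TB := by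
  intro p q _ hP C Y cl κ hκ hne hb r'
  have q0 : (0 : ℝ) < q := by exact_mod_cast (by have := hP.q2; omega : 0 < q)
  have key : ∀ r, |mn (bo q Y cl r) (fun y => pos r (cl y)) - (q - 1) / 2| ≤ κ * q := by
    intro r
    have hn : (bo q Y cl r).Nonempty := (hne r).mono (ce_sub (by
      have := hP.q2
      simp only [ed, pos, sub_self, ZMod.val_zero]; omega))
    have hc : (0 : ℝ) < #(bo q Y cl r) := by exact_mod_cast hn.card_pos
    obtain ⟨r₀, -, h0⟩ := exists_min_image univ (fun r => #(ce Y cl r)) ⟨r, mem_univ _⟩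
    have h1 := num_tb q (fun k => #(ce Y cl (r + k))) #(ce Y cl r₀) κ hκ (Nat.cast_nonneg _)
      fun k _ => ⟨by exact_mod_cast h0 _ (mem_univ _), hb _ _⟩
    have h2 := (hDEC p q hP C Y cl fun _ => 1).1 r
    simp only [sum_const, nsmul_eq_mul, mul_one] at h2
    have h3 := (hDEC p q hP C Y cl fun y => (pos r (cl y) : ℝ) - (q - 1) / 2).1 r
    have h4 : ∀ k ∈ range q, ∑ y ∈ ce Y cl (r + k), ((pos r (cl y) : ℝ) - (q - 1) / 2) =
        #(ce Y cl (r + k)) * ((k : ℝ) - (q - 1) / 2) := fun k hk => by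
      rw [← nsmul_eq_mul, ← sum_const]
      refine sum_congr rfl fun y hy => ?_
      rw [(mem_ce.1 hy).2, pos_add r (by have := hP.hp; have := mem_range.1 hk; omega)]
    rw [← h2, ← sum_congr rfl h4, ← h3] at h1
    rw [← mn_const hn ((q - 1) / 2 : ℝ), ← mn_sub, mn, abs_div, abs_of_pos hc, div_le_iff₀ hc]
    exact h1
  have e : ∑ t : Fin q, (mn (bo q Y cl (r' - (t : ℕ)))
      (fun y => pos (r' - ((t : ℕ) : ZMod p)) (cl y)) - ((t : ℕ) : ℝ)) =
      ∑ t : Fin q, (mn (bo q Y cl (r' - (t : ℕ)))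
      (fun y => pos (r' - ((t : ℕ) : ZMod p)) (cl y)) - (q - 1) / 2) := by
    have := ctr_tb q
    rw [sum_range, sum_sub_distrib, sub_eq_zero] at this
    rw [sum_sub_distrib, sum_sub_distrib, this]
  rw [e, abs_div, abs_of_pos q0, div_le_iff₀ q0]
  refine (abs_sum_le_sum_abs _ _).trans ((sum_le_sum fun t _ => key _).trans (le_of_eq ?_))
  rw [sum_const, card_univ, Fintype.card_fin, nsmul_eq_mul, mul_comm]

end

section
open Finset
open scoped Classical

theorem nm_nonneg_g0 {p q : ℕ} [NeZero p] {C : Type} (Y : Finset C) (cl v : C → ZMod p) (y : C) :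
    0 ≤ nm q Y cl v y :=
  div_nonneg (sum_nonneg fun _ _ => ind_nonneg _) (by positivity)

theorem nm_ge_g0 {p q : ℕ} [NeZero p] {C : Type} {Y : Finset C} {cl v : C → ZMod p}
    {r0 r1 : ZMod p} (h : ed q r0 r1) (h0 : ¬ arc q v (bo q Y cl r0)) (h1 : arc q v (ce Y cl r1))
    {y : C} (hy : y ∈ ce Y cl r1) : 1 / (q : ℝ) ≤ nm q Y cl v y := by
  refine div_le_div_of_nonneg_right ?_ (by positivity)
  have e : cl y = r1 := (mem_ce.1 hy).2
  refine le_trans ?_ (single_le_sum (f := fun t : Fin q =>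
    ind (¬ arc q v (bo q Y cl (cl y - (t : ℕ))) ∧ arc q v (ce Y cl (cl y))))
    (fun _ _ => ind_nonneg _) (mem_univ ⟨pos r0 r1, h⟩))
  have e' : r1 - (pos r0 r1 : ℕ) = r0 := by rw [sub_eq_iff_eq_add, add_pos']
  simp only [ind, e, e', h0, h1, not_false_eq_true, and_self, if_true, le_refl]

theorem p_G0 (hGA : S_GA) (hDEC : S_DEC) :
    S_G0 := by
  intro p q _ P
  obtain ⟨κ, k0, k1, K, K0, H⟩ := hGA p q P
  have q0 := P.q0'
  have p0 : (0 : ℝ) < p := by exact_mod_cast NeZero.pos p
  refine ⟨κ, k0, k1, K + 8 * p * q ^ 3, by positivity, fun C Y cl v hb hc hn r x hx => ?_⟩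
  have xY := (mem_bo.1 hx).1
  have xc : x ∈ ce Y cl (cl x) := mem_ce.2 ⟨xY, rfl⟩
  have Y0 : (0 : ℝ) < #Y := by exact_mod_cast card_pos.2 ⟨x, xY⟩
  have m0 : 0 ≤ mn Y fun y => gm q Y cl v y ^ 2 + nm q Y cl v y :=
    mn_nonneg fun y _ => add_nonneg (sq_nonneg _) (nm_nonneg_g0 Y cl v y)
  have b1 : bal Y cl 1 := fun a b => (hb a b).trans
    (mul_le_mul_of_nonneg_right (by linarith) (by positivity))
  have d4 := (hDEC p q P C Y cl fun _ => 0).2.2.2 b1
  have ne : ∀ r, (ce Y cl r).Nonempty := fun r => by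
    by_contra h
    have := d4 r
    rw [not_nonempty_iff_eq_empty.1 h] at this
    simp only [card_empty, Nat.cast_zero, mul_zero] at this
    linarith
  by_cases hA : ∀ r, arc q v (bo q Y cl r)
  · refine (H C Y cl v hb ne hc hn hA r x hx).trans ?_
    refine mul_le_mul (by have : 0 ≤ 8 * (p : ℝ) * q ^ 3 := by positivity
                          linarith)
      (mn_mono fun y _ => le_add_of_nonneg_right (nm_nonneg_g0 Y cl v y))
      (mn_nonneg fun y _ => sq_nonneg _) (by positivity)
  by_cases hB : ∃ r0 r1, ed q r0 r1 ∧ ¬ arc q v (bo q Y cl r0) ∧ arc q v (ce Y cl r1)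
  · obtain ⟨r0, r1, h, h0, h1⟩ := hB
    have a1 := abs_le.1 (abs_ps_le (v := v) P hx)
    have a2 := abs_le.1 (abs_ps_le (v := v) P xc)
    have a3 : dl q Y cl v x r ^ 2 ≤ (2 * q) ^ 2 :=
      sq_le_sq' (by unfold dl; linarith) (by unfold dl; linarith)
    have a4 : (#(ce Y cl r1) : ℝ) * (1 / q) ≤
        ∑ y ∈ Y, (gm q Y cl v y ^ 2 + nm q Y cl v y) := by
      refine le_trans ?_ (sum_le_sum_of_subset_of_nonneg (filter_subset (fun y => cl y = r1) Y)
        fun y _ _ => add_nonneg (sq_nonneg _) (nm_nonneg_g0 Y cl v y))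
      rw [← nsmul_eq_mul]
      exact card_nsmul_le_sum _ _ _ fun y hy =>
        (nm_ge_g0 h h0 h1 hy).trans (le_add_of_nonneg_left (sq_nonneg _))
    have a5 : 1 / (2 * p * q : ℝ) ≤ mn Y fun y => gm q Y cl v y ^ 2 + nm q Y cl v y := by
      rw [mn, le_div_iff₀ Y0]
      refine le_trans ?_ a4
      calc 1 / (2 * p * q : ℝ) * #Y ≤ 1 / (2 * p * q : ℝ) * (2 * p * #(ce Y cl r1)) :=
            mul_le_mul_of_nonneg_left (d4 r1) (by positivity)
        _ = _ := by field_simp
    calc _ ≤ (2 * q : ℝ) ^ 2 := a3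
      _ = 8 * p * q ^ 3 * (1 / (2 * p * q : ℝ)) := by field_simp; ring
      _ ≤ 8 * p * q ^ 3 * mn Y fun y => gm q Y cl v y ^ 2 + nm q Y cl v y :=
          mul_le_mul_of_nonneg_left a5 (by positivity)
      _ ≤ _ := mul_le_mul_of_nonneg_right (by linarith) m0
  · push Not at hA hB
    obtain ⟨r0, h0⟩ := hA
    have k : ∀ k : ℕ, ¬ arc q v (bo q Y cl (r0 + k)) := fun k => by
      induction k with
      | zero => simpa using h0
      | succ k ih =>
        rw [Nat.cast_succ, ← add_assoc]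
        exact fun h => hB _ _ (P.ed_succ _) ih (h.mono (ce_sub (P.ed_self _)))
    have h1 : ¬ arc q v (bo q Y cl r) := by
      have := k (pos r0 r)
      rwa [add_pos'] at this
    have h2 := hB _ _ (mem_bo.1 hx).2 h1
    simp only [dl, ps, h1, h2, if_false, sub_self]
    rw [zero_pow two_ne_zero]
    positivity

end

section
open Finset
open scoped Classical

theorem far_na {p q : ℕ} [NeZero p] (P : Par p q) {x y : ZMod p} (h : cf q x y) (e : y ≠ x) :
    ∃ z, ¬ cf q y z ∧ cf q x z := by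
  obtain ⟨w, hw, rfl⟩ := P.cf_iff.1 h
  have w0 : w ≠ 0 := fun h0 => e (by simp [h0])
  have hq := P.q0
  obtain ⟨h1, h2⟩ := abs_lt.1 hw
  rcases lt_or_gt_of_ne w0 with h3 | h3
  · refine ⟨x + w + ((q : ℤ) : ZMod p), P.not_cf rfl (by simp), P.cf_iff.2 ⟨w + q, ?_, ?_⟩⟩
    · rw [abs_lt]; omega
    · push_cast; ring
  · refine ⟨x + w + ((-q : ℤ) : ZMod p), P.not_cf rfl (by simp), P.cf_iff.2 ⟨w - q, ?_, ?_⟩⟩
    · rw [abs_lt]; omega
    · push_cast; ring

theorem p_NA (hK0 : S_K0) :
    S_NA := by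
  intro p q m _ P x
  obtain ⟨-, h2, -, h4, h5⟩ := hK0 p q P.par
  have q0 := P.par.q0'
  have p0 : (0 : ℝ) < p := by exact_mod_cast NeZero.pos p
  refine ⟨fun t t0 t1 => ?_, ?_⟩
  · have g0 : ∀ a z : ZMod p, 0 ≤ k0 q a z ^ t := fun a z => Real.rpow_nonneg (h2 a z).1 t
    have h := sum_prod_le (P.nb x) P.s P.sinj
      (fun i => univ.filter fun z => ∀ y, P.c y = P.c x → cf q (P.s y i) z)
      (fun y hy i => mem_filter.2 ⟨mem_univ _, fun y' e => P.lip y' y (fun l => by
        rw [e]; exact (mem_filter.1 hy).2 l) i⟩)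
      (fun i z => k0 q (P.s x i) z ^ t) fun i z => g0 _ _
    refine h.trans ((prod_le_prod
      (g := fun i => ks p q t * if i ∈ P.sp x then 1 - 1 / ((q : ℝ) * p) else 1)
      (fun i _ => sum_nonneg fun z _ => g0 _ _) fun i _ => ?_).trans (le_of_eq ?_))
    · split_ifs with hi
      · obtain ⟨y, hy, hn⟩ := (mem_filter.1 hi).2
        obtain ⟨z, z1, z2⟩ := far_na P.par
          (P.lip x y (fun l => by rw [hy]; exact P.par.cf_refl _) i) hn
        have a1 : ∑ w ∈ univ.filter (fun z => ∀ y, P.c y = P.c x → cf q (P.s y i) z),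
            k0 q (P.s x i) w ^ t ≤ ∑ w ∈ univ.erase z, k0 q (P.s x i) w ^ t :=
          sum_le_sum_of_subset_of_nonneg (fun w hw => mem_erase.2 ⟨fun e =>
            z1 (e ▸ (mem_filter.1 hw).2 y hy), mem_univ _⟩) fun w _ _ => g0 _ _
        have a2 := add_sum_erase univ (fun w => k0 q (P.s x i) w ^ t) (mem_univ z)
        rw [h4] at a2
        have a3 : 1 / (q : ℝ) ≤ k0 q (P.s x i) z ^ t :=
          ((h2 _ z).2.2.2.1 z2).trans
            (Real.self_le_rpow_of_le_one (h2 _ z).1 (h2 _ z).2.1 t1)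
        have a4 : ks p q t * (1 / ((q : ℝ) * p)) ≤ 1 / q := by
          refine (mul_le_mul_of_nonneg_right (h5 t t0 t1).2 (by positivity)).trans (le_of_eq ?_)
          field_simp
        rw [mul_sub, mul_one]
        linarith
      · rw [mul_one, ← h4 (P.s x i) t]
        exact sum_le_sum_of_subset_of_nonneg (subset_univ _) fun w _ _ => g0 _ _
    · rw [prod_mul_distrib, prod_const, card_univ, Fintype.card_fin, prod_ite, prod_const,
        prod_const_one, mul_one, filter_mem_eq_inter, univ_inter]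
  · have h := sum_prod_le (univ.filter fun y => P.c y = P.c x) P.s P.sinj
      (fun i => if i ∈ P.sp x then univ else {P.s x i})
      (fun y hy i => by
        split_ifs with hi
        · exact mem_univ _
        · by_contra e
          exact hi (mem_filter.2 ⟨mem_univ _, y, (mem_filter.1 hy).2, fun e' =>
            e (mem_singleton.2 e')⟩))
      (fun _ _ => 1) fun _ _ => zero_le_one
    simp only [prod_const_one, sum_const, nsmul_eq_mul, mul_one] at h
    have e : ∏ i, ((#(if i ∈ P.sp x then (univ : Finset (ZMod p)) else {P.s x i}) : ℕ) : ℝ) =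
        (p : ℝ) ^ #(P.sp x) := by
      rw [prod_congr rfl (g := fun i => if i ∈ P.sp x then (p : ℝ) else 1) fun i _ => by
        split_ifs <;> simp [ZMod.card], prod_ite, prod_const, prod_const_one, mul_one,
        filter_mem_eq_inter, univ_inter]
    rw [e] at h
    exact_mod_cast h

end

end Pool.Agent.P.MP_263185_co.AQ
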