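import Pool.Agent.P.MP_263185_co.AQ.Iface

/-! Proofs of the steps CA, PERM, KAT, SW, AVG, LU, U1, DROP, W1, HARM, BD0, EG, CUB, CORE, PRE. -/

set_option linter.unusedSectionVars false

namespace Pool.Agent.P.MP_263185_co.AQ

section
open Finset
open scoped Classical

variable {m q : ℕ}

theorem cs_ca (a b : (Fin m → Fin q) → ℝ) :
    cE (fun β => a β * b β) ^ 2 ≤ cE (fun β => a β ^ 2) * cE (fun β => b β ^ 2) := by
  simp only [cE, div_pow, div_mul_div_comm, ← sq]
  exact div_le_div_of_nonneg_right (sum_mul_sq_le_sq_mul_sq _ _ _) (by positivity)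

theorem one_ca (hq : 0 < q) : cE (fun _ : Fin m → Fin q => (1 : ℝ)) = 1 := by
  have : (0 : ℝ) < q := by exact_mod_cast hq
  simp only [cE, sum_const, card_univ, Fintype.card_pi, Fintype.card_fin, prod_const, nsmul_eq_mul,
    mul_one, Nat.cast_pow]
  exact div_self (by positivity)

theorem mean_ca (hq : 0 < q) (j : Fin m) (G : (Fin m → Fin q) → ℝ) :
    (∑ t, cE fun β => G (Function.update β j t)) / q = cE G := by
  rw [← cE_cM hq j G]
  simp only [cE, cM, ← sum_div]
  rw [sum_comm, div_div, div_div, mul_comm]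

theorem sq_ca (P : Prop) : ind P ^ 2 = ind P := by
  unfold ind; split_ifs <;> simp

theorem p_CA :
    S_CA := by
  intro m q hq f j gd hg
  have hq' : (0 : ℝ) < q := by exact_mod_cast hq
  obtain ⟨D, hD⟩ : ∃ D : (Fin m → Fin q) → ℝ, D = fun β => f β - cM j f β := ⟨_, rfl⟩
  have e : ∀ β, f β - cM j f β = D β := fun β => by rw [hD]
  have h0 : ∀ t, cF j f t = cE fun β => D (Function.update β j t) := fun t => by
    rw [cF, ← cE_cM hq j f]
    simp only [hD, cM_upd, cE, sum_sub_distrib, sub_div]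
  have h1 : ∀ g : (Fin m → Fin q) → ℝ, cE g ^ 2 ≤ cE fun β => g β ^ 2 := fun g => by
    simpa [one_ca hq] using cs_ca (fun _ => 1) g
  simp only [e, cW, h0]
  constructor
  · rw [← mean_ca hq j fun β => D β ^ 2]
    exact div_le_div_of_nonneg_right (sum_le_sum fun t _ => h1 _) hq'.le
  · rw [← mean_ca hq j fun β => D β ^ 2, ← mean_ca hq j fun β => ind (gd β) * D β ^ 2,
      ← mul_div_assoc, ← mul_div_assoc, ← add_div, mul_sum, mul_sum, ← sum_add_distrib]
    refine div_le_div_of_nonneg_right (sum_le_sum fun t _ => ?_) hq'.le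
    have a1 := h1 fun β => ind (gd β) * D (Function.update β j t)
    have a2 := cs_ca (fun β => ind (¬ gd β)) fun β => D (Function.update β j t)
    have a3 : (cE fun β => D (Function.update β j t)) =
        (cE fun β => ind (gd β) * D (Function.update β j t)) +
          cE fun β => ind (¬ gd β) * D (Function.update β j t) := by
      simp only [cE, ← add_div, ← sum_add_distrib, ← add_mul]
      congr 1
      refine sum_congr rfl fun β _ => ?_
      by_cases b : gd β <;> simp [ind, b]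
    simp only [mul_pow, sq_ca] at a1 a2
    simp only [hg]
    rw [a3]
    nlinarith [sq_nonneg ((cE fun β => ind (gd β) * D (Function.update β j t)) -
      cE fun β => ind (¬ gd β) * D (Function.update β j t))]

end

section
open Finset
open scoped Classical

noncomputable def Fs_perm {m : ℕ} (e : Finset (Fin m) → ℝ) (T : Finset (Fin m)) : ℝ :=
  ∑ σ : Equiv.Perm (Fin m), e (T.map σ.toEmbedding)

theorem fs_eq_perm {m : ℕ} (e : Finset (Fin m) → ℝ) (T T' : Finset (Fin m)) (h : #T = #T') :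
    Fs_perm e T = Fs_perm e T' := by
  obtain ⟨τ, hτ⟩ := Equiv.Perm.exists_map_finset_eq T T' h
  unfold Fs_perm
  rw [← hτ, ← Equiv.sum_comp (Equiv.mulRight τ)]
  refine Finset.sum_congr rfl fun σ _ => ?_
  rw [Finset.map_map]
  rfl

theorem blocks_perm (m n K : ℕ) (h : n * K ≤ m) :
    ∃ J : Fin n → Finset (Fin m), (∀ k, #(J k) = K) ∧ ∀ k l, k ≠ l → Disjoint (J k) (J l) := by
  let f : Fin n × Fin K → Fin m := fun x => Fin.castLE h (finProdFinEquiv x)
  have hf : Function.Injective f :=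
    (Fin.castLE_injective h).comp finProdFinEquiv.injective
  refine ⟨fun k => (univ : Finset (Fin K)).image fun i => f (k, i), fun k => ?_, fun k l hkl => ?_⟩
  · rw [Finset.card_image_of_injective _ (fun i j hij => (Prod.mk.inj (hf hij)).2)]
    simp
  · rw [Finset.disjoint_left]
    intro x hx hy
    obtain ⟨i, -, hi⟩ := Finset.mem_image.1 hx
    obtain ⟨j, -, hj⟩ := Finset.mem_image.1 hy
    exact hkl (Prod.mk.inj (hf (hi.trans hj.symm))).1

theorem tele_perm (a : ℕ → ℝ) (K : ℕ) (hK : 0 < K) (c : ℝ) (h : a 0 - a K ≤ K * c) :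
    ∃ r, r < K ∧ a r - a (r + 1) ≤ c := by
  have h1 : ∑ r ∈ range K, (a r - a (r + 1)) ≤ ∑ _r ∈ range K, c := by
    rw [Finset.sum_range_sub']
    simpa using h
  obtain ⟨r, hr, h2⟩ := Finset.exists_le_of_sum_le ⟨0, Finset.mem_range.2 hK⟩ h1
  exact ⟨r, Finset.mem_range.1 hr, h2⟩

theorem p_PERM :
    S_PERM := by
  intro m n K e B hn hK hm hB H
  have hKm : K ≤ m := le_trans (Nat.le_mul_of_pos_left K hn) hm
  have hex : ∀ r : ℕ, ∃ T : Finset (Fin m), r ≤ m → #T = r := by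
    intro r
    by_cases hr : r ≤ m
    · obtain ⟨T, -, hT⟩ := Finset.exists_subset_card_eq (s := (univ : Finset (Fin m))) (n := r)
        (by simpa using hr)
      exact ⟨T, fun _ => hT⟩
    · exact ⟨∅, fun h => absurd h hr⟩
  choose T hT using hex
  set N : ℝ := (Fintype.card (Equiv.Perm (Fin m)) : ℝ) with hN
  have hN0 : 0 ≤ N := Nat.cast_nonneg _
  have hn' : (0 : ℝ) < n := Nat.cast_pos.2 hn
  have hK' : (0 : ℝ) < K := Nat.cast_pos.2 hK
  obtain ⟨J, hJ, hD⟩ := blocks_perm m n K hm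
  have h1 : ∑ σ : Equiv.Perm (Fin m), ∑ k, (e ∅ - e ((J k).map σ.toEmbedding)) ≤ N * B := by
    calc _ ≤ ∑ _σ : Equiv.Perm (Fin m), B := by
          refine Finset.sum_le_sum fun σ _ => ?_
          refine H (fun k => (J k).map σ.toEmbedding) (fun k => by rw [Finset.card_map, hJ])
            (fun k l hkl => ?_)
          exact (Finset.disjoint_map _).2 (hD k l hkl)
      _ = N * B := by simp [hN]
  have h2 : ∑ σ : Equiv.Perm (Fin m), ∑ k, (e ∅ - e ((J k).map σ.toEmbedding)) =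
      n * (Fs_perm e (T 0) - Fs_perm e (T K)) := by
    rw [Finset.sum_comm]
    have : ∀ k, ∑ σ : Equiv.Perm (Fin m), (e ∅ - e ((J k).map σ.toEmbedding)) =
        Fs_perm e (T 0) - Fs_perm e (T K) := by
      intro k
      rw [fs_eq_perm e (T 0) ∅ (by rw [hT 0 (Nat.zero_le _)]; rfl),
        fs_eq_perm e (T K) (J k) (by rw [hT K hKm, hJ]), Finset.sum_sub_distrib]
      simp [Fs_perm]
    simp [this, mul_sub]
  set c : ℝ := N * B / (n * K) with hc
  have hc0 : 0 ≤ c := by positivity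
  obtain ⟨r, hr, h3⟩ := tele_perm (fun r => Fs_perm e (T r)) K hK c (by
    rw [h2] at h1
    have : (K : ℝ) * c = N * B / n := by rw [hc]; field_simp
    rw [this, le_div_iff₀ hn']
    linarith)
  have hTr : #(T r) = r := hT r (by omega)
  have h4 : ∑ σ : Equiv.Perm (Fin m), ∑ j, (e ((T r).map σ.toEmbedding) -
      e (insert j ((T r).map σ.toEmbedding))) ≤
      ∑ _σ : Equiv.Perm (Fin m), (m / (n * K) * B : ℝ) := by
    have e1 : ∀ σ : Equiv.Perm (Fin m), ∑ j, (e ((T r).map σ.toEmbedding) -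
        e (insert j ((T r).map σ.toEmbedding))) = ∑ j, (e ((T r).map σ.toEmbedding) -
        e ((insert j (T r)).map σ.toEmbedding)) := by
      intro σ
      rw [← Equiv.sum_comp σ]
      refine Finset.sum_congr rfl fun j _ => ?_
      rw [Finset.map_insert]
      rfl
    simp_rw [e1]
    rw [Finset.sum_comm]
    calc _ ≤ ∑ _j : Fin m, c := by
          refine Finset.sum_le_sum fun j _ => ?_
          rw [Finset.sum_sub_distrib]
          change Fs_perm e (T r) - Fs_perm e (insert j (T r)) ≤ c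
          by_cases hj : j ∈ T r
          · rw [Finset.insert_eq_of_mem hj, sub_self]
            exact hc0
          · rw [fs_eq_perm e (insert j (T r)) (T (r + 1)) (by
              rw [Finset.card_insert_of_notMem hj, hTr, hT (r + 1) (by omega)])]
            exact h3
      _ = _ := by
          simp only [Finset.sum_const, Finset.card_univ, Fintype.card_fin, nsmul_eq_mul, ← hN, hc]
          ring
  obtain ⟨σ, -, hσ⟩ := Finset.exists_le_of_sum_le Finset.univ_nonempty h4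
  exact ⟨(T r).map σ.toEmbedding, by rw [Finset.card_map, hTr]; exact hr, hσ⟩

end

section
open Finset
open scoped Classical

theorem p_KAT :
    S_KAT := by
  intro p q _ P Q h
  have hp := P.hp
  have q2 := P.q2
  rcases Q.eq_empty_or_nonempty with rfl | ⟨x, hx⟩
  · exact ⟨by simp, fun _ => P.q0⟩
  have H : ∀ z z' : ℤ, x + z ∈ Q → x + z' ∈ Q → z' - z = q ∨ z' - z = q + 1 → False := by
    intro z z' a a' e
    obtain ⟨t, h1, h2⟩ := P.cf_iff.1 (h _ a _ a')
    have h3 := abs_lt.1 h1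
    have := int_eq (p := p) (z := z' - z) (z' := t) (by push_cast; linear_combination h2)
      (by rw [abs_lt]; omega)
    omega
  have m : ∀ y ∈ Q, x + lf x y ∈ Q ∧ -(q : ℤ) < lf x y ∧ lf x y < q := fun y hy =>
    ⟨(add_lf x y).symm ▸ hy, abs_lt.1 (h x hx y hy)⟩
  have f1 : ∀ y ∈ Q, (if 0 ≤ lf x y then lf x y else lf x y + q) ∈ Ico (0 : ℤ) q := fun y hy => by
    have := m y hy
    rw [mem_Ico]
    split_ifs <;> omega
  have f2 : ∀ y y', y ∈ Q → y' ∈ Q → (if 0 ≤ lf x y then lf x y else lf x y + q) =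
      (if 0 ≤ lf x y' then lf x y' else lf x y' + q) → y = y' := fun y y' hy hy' e => by
    have k : lf x y = lf x y' := by
      split_ifs at e
      · exact e
      · exact (H _ _ (m y' hy').1 (m y hy).1 (by omega)).elim
      · exact (H _ _ (m y hy).1 (m y' hy').1 (by omega)).elim
      · omega
    rw [← add_lf x y, k, add_lf]
  have c : #(Ico (0 : ℤ) q) = q := by simp
  refine ⟨c ▸ card_le_card_of_injOn _ f1 fun y hy y' hy' => f2 y y' hy hy', fun n => ?_⟩
  by_contra d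
  have s := surj_on_of_inj_on_of_card_le (s := Q) (fun y _ => if 0 ≤ lf x y then lf x y
    else lf x y + q) f1 (fun y y' hy hy' => f2 y y' hy hy') (by omega)
  have e0 : ∃ k : ℕ, x + (k : ℤ) ∉ Q := ⟨q, fun a => H 0 q (by simpa using hx) a (by omega)⟩
  have e1 : ∀ j, Nat.find e0 ≤ j → j ≤ q → x + ((j : ℕ) : ℤ) ∉ Q := by
    refine Nat.le_induction (fun _ => Nat.find_spec e0) fun j _ ih hj a => ?_
    obtain ⟨y, hy, e⟩ := s j (mem_Ico.2 (by omega))
    split_ifs at e
    · exact ih (by omega) (e ▸ (m y hy).1)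
    · exact H _ _ (m y hy).1 a (by omega)
  have e2 : Nat.find e0 ≤ q := Nat.find_le fun a => H 0 q (by simpa using hx) a (by omega)
  refine n ⟨x + ((Nat.find e0 - q : ℤ) : ZMod p), fun y hy => ?_⟩
  obtain ⟨m1, m2, m3⟩ := m y hy
  have e3 : lf x y < Nat.find e0 := by
    by_contra a
    obtain ⟨j, hj⟩ := Int.eq_ofNat_of_zero_le (by omega : 0 ≤ lf x y)
    exact e1 j (by omega) (by omega) (hj ▸ m1)
  have e4 : Nat.find e0 - q ≤ lf x y := by
    by_contra a
    obtain ⟨j, hj⟩ := Int.eq_ofNat_of_zero_le (by omega : 0 ≤ lf x y + q)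
    exact H _ j m1 (not_not.1 (Nat.find_min e0 (by omega))) (by omega)
  obtain ⟨t, ht⟩ := Int.eq_ofNat_of_zero_le (sub_nonneg.2 e4)
  refine P.ed_iff.2 ⟨t, by omega, ?_⟩
  rw [← Int.cast_natCast t, ← ht, Int.cast_sub (lf x y), add_add_sub_cancel, add_lf]

end

section
open Finset
open scoped Classical

theorem p_SW :
    S_SW := by
  intro p q m _ D F
  have key : ∀ x β l, pos (D.bx x β l) (D.c x l) = β l := fun x β l =>
    pos_sub _ ((β l).2.trans D.par.qp)
  have inj : ∀ x, Function.Injective (D.bx x) := fun x β β' h => funext fun l =>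
    Fin.ext (by rw [← key x β l, ← key x β' l, h])
  have sur : ∀ x b, D.In x b → ∃ β, D.bx x β = b := fun x b h =>
    ⟨fun l => ⟨pos (b l) (D.c x l), h l⟩, funext fun l =>
      sub_eq_iff_eq_add.2 (add_pos' (b l) (D.c x l)).symm⟩
  refine ⟨?_, fun x => ⟨inj x, sur x⟩⟩
  simp only [Dat.B, sum_filter]
  rw [sum_comm (γ := Fin m → ZMod p)]
  refine sum_congr rfl fun x _ => ?_
  rw [← sum_filter]
  exact sum_bij (fun β _ => D.bx x β) (fun β _ => mem_filter.2 ⟨mem_univ _, D.In_bx x β⟩)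
    (fun _ _ _ _ h => inj x h)
    (fun b hb => (sur x b (mem_filter.1 hb).2).imp fun β h => ⟨mem_univ _, h⟩) fun _ _ => rfl

end

section
open Finset
open scoped Classical

theorem p_AVG (hSW : S_SW) :
    S_AVG := by
  intro p q m _ D J
  have loc : ∀ b (f : D.X → ℝ), ∑ x ∈ D.B b, mn (D.A J x b) f = ∑ x ∈ D.B b, f x := fun b f => by
    have h1 : ∀ x ∈ D.B b, mn (D.A J x b) f = ∑ y ∈ D.A J x b, f y / #(D.A J y b) := fun x _ => by
      rw [mn, sum_div]
      exact sum_congr rfl fun y hy => by rw [Dat.A_eq hy]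
    rw [sum_congr rfl h1, sum_comm' (t' := D.B b) (s' := fun y => D.A J y b)]
    · refine sum_congr rfl fun y hy => ?_
      have := Dat.A_pos J (Dat.mem_B.1 hy)
      rw [sum_const, nsmul_eq_mul]
      field_simp
    · intro x y
      simp only [Dat.mem_B, Dat.mem_A]
      exact ⟨fun h => ⟨⟨h.1, fun l hl => (h.2.2 l hl).symm⟩, h.2.1⟩,
        fun h => ⟨h.1.1, h.2, fun l hl => (h.1.2 l hl).symm⟩⟩
  refine ⟨loc, fun f g hg => ?_⟩
  rw [Dat.E_eq, Dat.E_eq, (hSW p q m D fun x b => g x b * mn (D.A J x b) fun y => f y b).1,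
    (hSW p q m D fun x b => g x b * f x b).1]
  congr 1
  refine sum_congr rfl fun b _ => ?_
  rw [← loc b fun x => g x b * f x b]
  refine sum_congr rfl fun x hx => ?_
  rw [← mn_mul]
  exact mn_congr fun y hy => by rw [hg x b y hy (Dat.mem_B.1 hx)]

end

section
open Finset
open scoped Classical

/-- spreading a mass evenly over the fibres -/
theorem fib_lu {Ω K : Type} [Fintype Ω] [Fintype K] [DecidableEq K] (key : Ω → K) (g : K → ℝ)
    (hg : ∀ k, 0 ≤ g k) :
    ∑ ω, g (key ω) / (#(univ.filter fun ω' => key ω' = key ω) : ℝ) ≤ ∑ k, g k := by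
  rw [← sum_fiberwise univ key]
  refine sum_le_sum fun k _ => ?_
  have e : ∀ ω ∈ univ.filter fun ω => key ω = k,
      g (key ω) / (#(univ.filter fun ω' => key ω' = key ω) : ℝ) =
        g k / (#(univ.filter fun ω' => key ω' = k) : ℝ) := by
    intro ω h
    rw [(mem_filter.1 h).2]
  rw [sum_congr rfl e, sum_const, nsmul_eq_mul]
  by_cases h : (#(univ.filter fun ω' => key ω' = k) : ℝ) = 0
  · rw [h, zero_mul]
    exact hg k
  · rw [mul_div_cancel₀ _ h]

/-- the bound on an abstract finite space -/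
theorem abs_lu {Ω K : Type} [Fintype Ω] [Fintype K] [DecidableEq K] (key : Ω → K) (w : K → ℝ)
    (F : Ω → ℝ) (hN : (0 : ℝ) < Fintype.card Ω) (hw : ∀ k, 0 ≤ w k) (hw1 : ∑ k, w k ≤ 1)
    (hpos : ∀ ω, 0 < w (key ω))
    (hF : ∀ ω, (#(univ.filter fun ω' => key ω' = key ω) : ℝ) ≤ F ω) :
    ∑ ω, Real.log (w (key ω)) ≤
      ∑ ω, Real.log (F ω) - Fintype.card Ω * Real.log (Fintype.card Ω) := by
  have hf0 : ∀ ω, (0 : ℝ) < (#(univ.filter fun ω' => key ω' = key ω) : ℝ) := fun ω =>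
    Nat.cast_pos.2 (card_pos.2 ⟨ω, mem_filter.2 ⟨mem_univ _, rfl⟩⟩)
  have hG := gibbs (univ : Finset Ω) (fun _ => 1 / (Fintype.card Ω : ℝ))
    (fun ω => w (key ω) / (#(univ.filter fun ω' => key ω' = key ω) : ℝ))
    (fun _ _ => one_div_pos.2 hN) (fun ω _ => div_pos (hpos ω) (hf0 ω)) (by
      rw [sum_const, card_univ, nsmul_eq_mul, mul_one_div_cancel hN.ne']
      exact (fib_lu key w hw).trans hw1)
  rw [← mul_sum] at hG
  have hG' := nonpos_of_mul_nonpos_right hG (one_div_pos.2 hN)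
  have hpt : ∀ ω, Real.log (w (key ω)) ≤ (Real.log (F ω) - Real.log (Fintype.card Ω)) +
      Real.log (w (key ω) / (#(univ.filter fun ω' => key ω' = key ω) : ℝ) /
        (1 / (Fintype.card Ω : ℝ))) := by
    intro ω
    rw [Real.log_div (div_pos (hpos ω) (hf0 ω)).ne' (one_div_pos.2 hN).ne',
      Real.log_div (hpos ω).ne' (hf0 ω).ne', one_div, Real.log_inv]
    have h1 := Real.log_le_log (hf0 ω) (hF ω)
    linarith
  refine le_trans (sum_le_sum fun ω _ => hpt ω) ?_
  rw [sum_add_distrib, sum_sub_distrib, sum_const, card_univ, nsmul_eq_mul]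
  linarith

theorem p_LU :
    S_LU := by
  intro p q m _ D Y _ π w F hw hw1 hpos hF
  have hX := Dat.card_pos (D := D)
  have hq := D.par.q0'
  have hc : (Fintype.card (D.X × (Fin m → Fin q)) : ℝ) = Fintype.card D.X * q ^ m := by
    simp
  have hN : (0 : ℝ) < Fintype.card D.X * q ^ m := by positivity
  have h := abs_lu (fun ω : D.X × (Fin m → Fin q) => π ω.1 ω.2) w
    (fun ω => F ω.1 (D.bx ω.1 ω.2)) (by rw [hc]; exact hN) hw hw1 (fun ω => hpos _ _)
    (fun ω => hF _ _)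
  rw [hc, Fintype.sum_prod_type, Fintype.sum_prod_type, Real.log_mul hX.ne' (by positivity),
    Real.log_pow] at h
  rw [Dat.E_eq, Dat.xE]
  simp only [cE]
  rw [← sum_div, div_div, mul_comm ((q : ℝ) ^ m), div_le_iff₀ hN, sub_mul, sub_mul,
    div_mul_cancel₀ _ hN.ne']
  linarith

end

section
open Finset
open scoped Classical

theorem p_U1 (hLG : S_LG) (hMH : S_MH) (hAVG : S_AVG) (hLJ : S_LJ) :
    S_U1 := by
  intro p q m _ D J
  have q0 := D.par.q0'
  have hM : ∀ i x b, ∀ y ∈ D.A J x b, D.M J i y b = D.M J i x b := fun i x b y hy => by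
    rw [Dat.M, Dat.M, Dat.A_eq hy]
  have h1 := hLG p q m D J (fun x b => ∑ i, 4 * D.M J i x b / q ^ 2 * D.sg i x b)
    (fun x b => m * Real.log q + D.no b * Real.log p +
      ∑ i, (4 * D.M J i x b / q ^ 2) ^ 2 * q ^ 2 / 8) fun x b _ => by
      refine le_trans ?_ ((hMH p q m D b).1 fun i => 4 * D.M J i x b / q ^ 2)
      refine le_trans (le_of_eq (sum_congr rfl fun y hy => ?_))
        (sum_le_sum_of_subset_of_nonneg (Dat.A_sub J x b) fun _ _ _ => (Real.exp_pos _).le)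
      simp only [hM _ x b y hy]
  have h2 := ((hLJ p q m D).2 J).1
  have e0 : ∀ i, D.E (fun x b => D.M J i x b * D.sg i x b) = D.E fun x b => D.M J i x b ^ 2 :=
    fun i => by
      rw [← (hAVG p q m D J).2 (D.sg i) (D.M J i) fun x b y hy _ => hM i x b y hy]
      exact Dat.E_congr fun x b _ => (sq _).symm
  have e1 : D.E (fun x b => ∑ i, 4 * D.M J i x b / q ^ 2 * D.sg i x b) = 4 / q ^ 2 * D.MM J := by
    rw [Dat.E_sum, Dat.MM, mul_sum]
    refine sum_congr rfl fun i _ => ?_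
    rw [← e0, ← Dat.E_mul]
    exact Dat.E_congr fun x b _ => by ring
  have e2 : D.E (fun x b => m * Real.log q + D.no b * Real.log p +
      ∑ i, (4 * D.M J i x b / q ^ 2) ^ 2 * q ^ 2 / 8) =
      m * Real.log q + D.nu * Real.log p + 2 / q ^ 2 * D.MM J := by
    rw [Dat.E_add, Dat.E_add, Dat.E_const, Dat.nu, mul_comm (D.E _), ← Dat.E_mul, Dat.E_sum,
      Dat.MM, mul_sum]
    congr 1
    · congr 1
      exact Dat.E_congr fun x b _ => by ring
    · refine sum_congr rfl fun i _ => ?_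
      rw [← Dat.E_mul]
      exact Dat.E_congr fun x b _ => by field_simp; ring
  rw [e1, e2] at h1
  have h3 : 2 / q ^ 2 * D.MM J ≤ #J * Real.log q + D.df + D.nu * Real.log p := by
    have : (4 / q ^ 2 : ℝ) * D.MM J = 2 * (2 / q ^ 2 * D.MM J) := by ring
    linarith
  have h4 := mul_le_mul_of_nonneg_left h3 (show (0 : ℝ) ≤ q ^ 2 / 2 by positivity)
  refine le_trans (le_of_eq ?_) h4
  field_simp

end

section
open Finset
open scoped Classical

theorem p_DROP (hPERM : S_PERM) (hMART : S_MART) (hPSI : S_PSI) (hBS : S_BS) (hBES : S_BES) (hNU : S_NU) (hLJ : S_LJ) (hVT : S_VT) :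
    S_DROP := by
  intro p q m _ D n K lam hn hK hnK hlam
  have hdf := (hLJ p q m D).1
  have hnu := (hNU p q m D).1
  have hv := (hVT p q m D).2.2
  have hlog : 0 ≤ Real.log p := Real.log_natCast_nonneg p
  have hη : 0 ≤ (2 * D.df + D.nu * Real.log p) / lam + lam * q ^ 4 * m / 8 := by positivity
  obtain ⟨J, h1, h2⟩ := hPERM m n K D.e (D.v +
    n ^ 2 * ((2 * D.df + D.nu * Real.log p) / lam + lam * q ^ 4 * m / 8) + n * (3 * q ^ 2 * D.nu))
    hn hK hnK (by positivity) fun J _ hd => by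
      have h3 := hBS p q m D n J _ hη fun k l hkl => by
        have h4 := hBES p q m D (J k) (J l) lam (hd k l hkl)
        refine le_of_mul_le_mul_left (h4.trans (le_of_eq ?_)) hlam
        field_simp
      have h5 : ∑ k, (D.e ∅ - D.e (J k)) ≤ ∑ k, (D.MM (J k) + 3 * q ^ 2 * D.nu) :=
        sum_le_sum fun k _ => (hPSI p q m D (J k)).2.1
      rw [sum_add_distrib, sum_const, card_univ, Fintype.card_fin, nsmul_eq_mul] at h5
      linarith
  refine ⟨J, h1, le_trans ?_ h2⟩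
  have h6 : D.Dr J + D.Dn J =
      ∑ j, ∑ i, D.E (fun x b => D.del J i j x b ^ 2 + D.nn J i j x b) := by
    rw [sum_comm, Dat.Dr, Dat.Dn, ← sum_add_distrib]
    refine sum_congr rfl fun i _ => ?_
    rw [← sum_add_distrib]
    exact sum_congr rfl fun j _ => (Dat.E_add _ _).symm
  rw [h6]
  exact sum_le_sum fun j _ => hMART p q m D J j

end

section
open Finset
open scoped Classical

theorem aux_w1 {p : ℕ} [NeZero p] {C : Type} (A : ZMod p → Finset C) (hA : ∀ r, (A r).Nonempty)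
    (c : ZMod p) (n : ℤ) (hn : 0 < n) (u : C → ℤ) (w : ℤ) (hw : 1 ≤ w)
    (H : ∀ r, ∀ y ∈ A r, ∀ y' ∈ A (r + c), u y' - u y + w * n ≤ n) :
    w = 1 ∧ ∃ U : ZMod p → ℤ, ∀ r, ∀ y ∈ A r, u y = U r := by
  choose mx hmx hmx' using fun r => exists_max_image (A r) u (hA r)
  choose mi hmi hmi' using fun r => exists_min_image (A r) u (hA r)
  have h1 : ∑ r, (u (mx (r + c)) - u (mi r)) ≤ ∑ _r : ZMod p, (1 - w) * n :=
    sum_le_sum fun r _ => by have := H r _ (hmi r) _ (hmx (r + c)); linarith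
  have h2 : ∑ r, u (mx (r + c)) = ∑ r, u (mx r) :=
    Equiv.sum_comp (Equiv.addRight c) fun r => u (mx r)
  rw [sum_sub_distrib, h2, ← sum_sub_distrib] at h1
  have h3 : ∀ r ∈ (univ : Finset (ZMod p)), 0 ≤ u (mx r) - u (mi r) := fun r _ =>
    sub_nonneg.2 (hmx' r _ (hmi r))
  have h4 : w = 1 := by
    by_contra h
    have : ∑ _r : ZMod p, (1 - w) * n < ∑ _r : ZMod p, (0 : ℤ) :=
      sum_lt_sum_of_nonempty univ_nonempty fun _ _ => mul_neg_of_neg_of_pos (by omega) hn
    have := sum_nonneg h3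
    simp only [sum_const_zero] at *
    linarith
  refine ⟨h4, fun r => u (mi r), fun r y hy => ?_⟩
  have h5 : ∑ r, (u (mx r) - u (mi r)) = 0 :=
    le_antisymm (by simpa [h4] using h1) (sum_nonneg h3)
  have h6 := (sum_eq_zero_iff_of_nonneg h3).1 h5 r (mem_univ _)
  have := hmx' r y hy
  have := hmi' r y hy
  show u y = u (mi r)
  linarith

theorem p_W1 :
    S_W1 := by
  intro p q _ P C Y cl v w u hne hcl hnw hl hw
  have q2 := P.q2
  have key : ∀ r (t : ℕ), t < q → ∀ y ∈ ce Y cl r, ∀ y' ∈ ce Y cl (r + t),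
      lf (v y) (v y') = u y' - u y + w * t ∧ |lf (v y) (v y')| < q := by
    intro r t ht y hy y' hy'
    have a := ce_sub (P.ed_self r) hy
    have b := ce_sub (P.ed_add r ht) hy'
    refine ⟨?_, hcl r y a y' b⟩
    rw [hl r y a y' b, (mem_ce.1 hy).2, (mem_ce.1 hy').2, pos_add r (ht.trans P.qp)]
    simp [pos]
  have e1 : ((q - 1 : ℕ) : ℤ) = q - 1 := by omega
  have main : |w| = 1 ∧ ∃ U : ZMod p → ℤ, ∀ r, ∀ y ∈ ce Y cl r, u y = U r := by
    rcases lt_or_gt_of_ne hw with h | h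
    · obtain ⟨a, U, hU⟩ := aux_w1 (ce Y cl) hne ((q - 1 : ℕ) : ZMod p) ((q : ℤ) - 1) (by omega)
        (fun y => -u y) (-w) (by omega) fun r y hy y' hy' => by
          obtain ⟨k1, k2⟩ := key r (q - 1) (by omega) y hy y' hy'
          rw [k1, e1, abs_lt] at k2
          linarith [k2.1]
      refine ⟨by rw [abs_of_neg h, a], fun r => -U r, fun r y hy => ?_⟩
      have := hU r y hy
      simp only at this ⊢
      linarith
    · obtain ⟨a, U, hU⟩ := aux_w1 (ce Y cl) hne ((q - 1 : ℕ) : ZMod p) ((q : ℤ) - 1) (by omega)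
        u w (by omega) fun r y hy y' hy' => by
          obtain ⟨k1, k2⟩ := key r (q - 1) (by omega) y hy y' hy'
          rw [k1, e1, abs_lt] at k2
          linarith [k2.2]
      exact ⟨by rw [a, abs_one], U, hU⟩
  obtain ⟨h1, U, hU⟩ := main
  refine ⟨h1, ?_⟩
  have hm : ∀ r, mn (ce Y cl r) (fun y => (u y : ℝ)) = U r := fun r => by
    rw [mn_congr (g := fun _ => (U r : ℝ)) fun y hy => by rw [hU r y hy], mn_const (hne r)]
  by_contra hc
  have hU' : ∀ r r', U r ≤ U r' := fun r r' => by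
    by_contra h
    refine hc ⟨r, r', ?_⟩
    rw [hm, hm]
    exact_mod_cast (show U r' + 1 ≤ U r by omega)
  choose y hy using hne
  have step : ∀ r, v (y (r + 1)) = v (y r) + w := fun r => by
    have k := (key r 1 (by omega) _ (hy r) (y (r + 1)) (by simpa using hy (r + 1))).1
    rw [hU _ _ (hy r), hU _ _ (hy (r + 1)), le_antisymm (hU' (r + 1) r) (hU' r (r + 1))] at k
    rw [← add_lf (v (y r)) (v (y (r + 1))), k]
    simp
  have it : ∀ r (k : ℕ), v (y (r + k)) = v (y r) + ((w * k : ℤ) : ZMod p) := fun r k => by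
    induction k with
    | zero => simp
    | succ k ih => rw [Nat.cast_succ, ← add_assoc, step, ih]; push_cast; ring
  obtain ⟨r, hr⟩ := hnw y hy
  exact P.not_cf (it r q) (by rw [abs_mul, h1]; simp) hr

end

section
open Finset
open scoped Classical

theorem mul_mn_harm {C : Type} {A : Finset C} (h : (0 : ℝ) < #A) (f : C → ℝ) :
    ∑ y ∈ A, f y = #A * mn A f := by
  rw [mn]; field_simp

theorem p_HARM (hDEC : S_DEC) :
    S_HARM := by
  intro p q _ hp C Y cl u g hg hne hb hh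
  have hq : (2 : ℝ) ≤ q := by exact_mod_cast hp.q2
  have hn : ∀ r, (0 : ℝ) < #(ce Y cl r) := fun r => by exact_mod_cast (hne r).card_pos
  obtain ⟨r0, -, h0⟩ := exists_max_image univ (fun r => mn (ce Y cl r) u) univ_nonempty
  set M := mn (ce Y cl r0) u with hM
  have hd : ∀ r, 0 ≤ M - mn (ce Y cl r) u := fun r => sub_nonneg.2 (h0 r (mem_univ r))
  have h1 : 1 ∈ range q := mem_range.2 (by have := hp.q2; omega)
  have eB : ∀ r, (#(bo q Y cl r) : ℝ) = ∑ t ∈ range q, (#(ce Y cl (r + t)) : ℝ) := fun r => by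
    simpa using (hDEC p q hp C Y cl fun _ => 1).1 r
  have hB : ∀ r, (0 : ℝ) < #(bo q Y cl r) := fun r => by
    rw [eB]; exact sum_pos (fun t _ => hn _) ⟨1, h1⟩
  have e1 : ∀ r, #(bo q Y cl r) * (M - mn (bo q Y cl r) u) =
      ∑ t ∈ range q, #(ce Y cl (r + t)) * (M - mn (ce Y cl (r + t)) u) := fun r => by
    rw [mul_sub, ← mul_mn_harm (hB r), (hDEC p q hp C Y cl u).1 r, eB, sum_mul, ← sum_sub_distrib]
    exact sum_congr rfl fun t _ => by rw [mul_mn_harm (hn _), mul_sub]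
  have e2 : ∀ r, 0 ≤ M - mn (bo q Y cl r) u := fun r =>
    nonneg_of_mul_nonneg_right (a := (#(bo q Y cl r) : ℝ)) (by
      rw [e1]; exact sum_nonneg fun t _ => mul_nonneg (hn _).le (hd _)) (hB r) |> fun h => h
  have e3 : ∀ r, M - mn (ce Y cl (r + 1)) u ≤ 2 * q ^ 2 * (M - mn (ce Y cl r) u + g) := by
    intro r
    have a1 : #(ce Y cl (r + 1)) * (M - mn (ce Y cl (r + 1)) u) ≤
        #(bo q Y cl r) * (M - mn (bo q Y cl r) u) := by
      rw [e1]
      simpa using single_le_sum (f := fun t : ℕ => #(ce Y cl (r + t)) * (M - mn (ce Y cl (r + t)) u))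
        (fun t _ => mul_nonneg (hn _).le (hd _)) h1
    have a2 : (#(bo q Y cl r) : ℝ) ≤ q * (2 * #(ce Y cl (r + 1))) := by
      rw [eB]
      refine (sum_le_card_nsmul _ _ _ fun t _ => ?_).trans_eq (by rw [card_range, nsmul_eq_mul])
      have := hb (r + t) (r + 1)
      linarith
    have a3 : M - mn (ce Y cl (r + 1)) u ≤ 2 * q * (M - mn (bo q Y cl r) u) := by
      refine le_of_mul_le_mul_left (a1.trans ?_) (hn (r + 1))
      have := mul_le_mul_of_nonneg_right a2 (e2 r)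
      linarith
    have a4 : M - mn (bo q Y cl r) u ≤ ∑ t : Fin q, (M - mn (bo q Y cl (r - (t : ℕ))) u) := by
      simpa using single_le_sum (f := fun t : Fin q => M - mn (bo q Y cl (r - (t : ℕ))) u)
        (fun t _ => e2 _) (mem_univ (⟨0, by have := hp.q2; omega⟩ : Fin q))
    have a5 := hh r
    rw [sum_sub_distrib, sum_const, card_univ, Fintype.card_fin, nsmul_eq_mul] at a4
    rw [sub_le_comm, le_div_iff₀ (by linarith)] at a5
    have a6 : M - mn (bo q Y cl r) u ≤ q * (M - mn (ce Y cl r) u + g) := by linarith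
    have := mul_le_mul_of_nonneg_left a6 (show (0 : ℝ) ≤ 2 * q by linarith)
    linarith
  have ha : (1 : ℝ) ≤ 2 * q ^ 2 := by nlinarith
  have e4 : ∀ k : ℕ, M - mn (ce Y cl (r0 + k)) u ≤ k * (2 * q ^ 2) ^ k * g := by
    intro k
    induction k with
    | zero => simp [hM]
    | succ k ih =>
      have a1 := e3 (r0 + k)
      have a2 := mul_le_mul_of_nonneg_left ih (zero_le_one.trans ha)
      have a3 : (2 * q ^ 2 : ℝ) * g ≤ 2 * q ^ 2 * ((2 * q ^ 2) ^ k * g) :=
        mul_le_mul_of_nonneg_left (le_mul_of_one_le_left hg (one_le_pow₀ ha)) (zero_le_one.trans ha)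
      rw [Nat.cast_succ, Nat.cast_succ, ← add_assoc, pow_succ]
      linarith
  have e5 : ∀ r, M - mn (ce Y cl r) u ≤ p * (2 * q ^ 2) ^ p * g := by
    intro r
    have a := e4 (r - r0).val
    rw [ZMod.natCast_zmod_val, add_sub_cancel] at a
    have b := (ZMod.val_lt (r - r0)).le
    exact a.trans (mul_le_mul_of_nonneg_right (mul_le_mul (Nat.cast_le.2 b)
      (pow_le_pow_right₀ ha b) (by positivity) (Nat.cast_nonneg _)) hg)
  intro r r'
  have a1 := e5 r'
  have a2 := hd r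
  have a3 := hd r'
  have a4 := e2 r
  have a5 : M - mn (bo q Y cl r) u ≤ p * (2 * q ^ 2) ^ p * g := by
    refine le_of_mul_le_mul_left ?_ (hB r)
    rw [e1, eB, sum_mul]
    exact sum_le_sum fun t _ => mul_le_mul_of_nonneg_left (e5 _) (hn _).le
  exact ⟨by linarith, abs_le.2 ⟨by linarith, by linarith⟩⟩

end

section
open Finset
open scoped Classical

theorem eps_sum_bd0 {p q : ℕ} [NeZero p] (P : Par p q) {C : Type} (Y : Finset C)
    (cl : C → ZMod p) (t : ZMod p) :
    ∑ z ∈ bo q Y cl t, eps t (cl z) = (#(ce Y cl t) : ℝ) - #(ce Y cl (t + 1)) := by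
  have h : ∀ r, ed q t r → (#(ce Y cl r) : ℝ) = ∑ z ∈ bo q Y cl t, if cl z = r then 1 else 0 :=
    fun r hr => by
      rw [sum_boole]
      congr 2
      ext y
      rw [mem_filter]
      exact ⟨fun hy => ⟨ce_sub hr hy, (mem_ce.1 hy).2⟩,
        fun hy => mem_ce.2 ⟨(mem_bo.1 hy.1).1, hy.2⟩⟩
  rw [h t (P.ed_self t), h (t + 1) (P.ed_succ t), ← sum_sub_distrib]
  refine sum_congr rfl fun z _ => ?_
  unfold eps
  by_cases a : cl z = t
  · rw [if_pos a, if_pos a, if_neg (by rw [a]; exact P.ne_succ t), sub_zero]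
  · rw [if_neg a, if_neg a]
    split_ifs <;> simp

theorem p_BD0 (hCYC : S_CYC) (hDEC : S_DEC) :
    S_BD0 := by
  intro p q _ P C Y cl κ h0 h1 hb
  have hp : (0 : ℝ) < p := by exact_mod_cast NeZero.pos p
  have hq := P.q0'
  obtain ⟨r₀, -, hm⟩ := exists_max_image univ (fun r => (#(ce Y cl r) : ℝ)) univ_nonempty
  replace hm := fun r => hm r (mem_univ r)
  set N : ℝ := (#(ce Y cl r₀) : ℝ) with hN
  simp only [bal, not_forall, not_le] at hb
  obtain ⟨r, r', hb⟩ := hb
  have n0 : (0 : ℝ) ≤ #(ce Y cl r') := by positivity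
  have hN0 : 0 < N := lt_of_le_of_lt (by positivity) (hb.trans_le (hm r))
  have h2 : κ * N / 2 ≤ N - #(ce Y cl r') := by
    have := hb.trans_le (hm r)
    nlinarith [hm r']
  obtain ⟨t, -, ht⟩ := exists_le_of_sum_le (s := univ) univ_nonempty
    (f := fun _ : ZMod p => κ * N / (2 * p))
    (g := fun t => |(#(ce Y cl t) : ℝ) - #(ce Y cl (t + 1))|) (by
      refine le_trans (le_of_eq ?_) (h2.trans (hCYC p (fun r => (#(ce Y cl r) : ℝ)) r₀ r'))
      rw [sum_const, card_univ, ZMod.card, nsmul_eq_mul]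
      field_simp)
  rw [← eps_sum_bd0 P] at ht
  obtain ⟨d1, d2, d3, -⟩ := hDEC p q P C Y cl fun _ => 1
  simp only [sum_const, nsmul_one] at d1 d2
  have hB : (#(bo q Y cl t) : ℝ) ≤ q * N := by
    rw [d1 t]
    exact (sum_le_sum fun s _ => hm _).trans (by simp)
  have hY : (#Y : ℝ) ≤ p * N := by
    rw [d2]
    exact (sum_le_sum fun s _ => hm _).trans (by simp)
  have hY0 : (0 : ℝ) < #Y := hN0.trans_le (Nat.cast_le.2 (card_filter_le _ _))
  have hc : 0 < κ * N / (2 * p) := by positivity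
  have hB0 : (0 : ℝ) < #(bo q Y cl t) := by
    rcases (bo q Y cl t).eq_empty_or_nonempty with e | e
    · rw [e, sum_empty, abs_zero] at ht
      exact absurd hc ht.not_gt
    · exact_mod_cast e.card_pos
  have h3 := single_le_sum (s := univ) (f := fun r => (#(bo q Y cl r) : ℝ) *
    mn (bo q Y cl r) (fun z => eps r (cl z)) ^ 2) (fun _ _ => by positivity) (mem_univ t)
  rw [← d3 fun r => mn (bo q Y cl r) (fun z => eps r (cl z)) ^ 2] at h3
  have h4 : (κ * N / (2 * p)) ^ 2 / (q * N) ≤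
      #(bo q Y cl t) * mn (bo q Y cl t) (fun z => eps t (cl z)) ^ 2 := by
    rw [mn, div_pow (∑ z ∈ _, _), ← sq_abs (∑ z ∈ _, _), ← mul_div_assoc,
      sq (#(bo q Y cl t) : ℝ), mul_div_mul_left _ _ hB0.ne']
    gcongr
  rw [mn, ← sum_div]
  calc (1 : ℝ) = 4 * q ^ 2 * p ^ 3 / κ ^ 2 * ((κ * N / (2 * p)) ^ 2 / (q * N) / q / (p * N)) := by
        field_simp
        norm_num
    _ ≤ _ := by
      have h5 := h4.trans h3
      have h6 := (by positivity : 0 ≤ (κ * N / (2 * p)) ^ 2 / (q * N)).trans h5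
      gcongr

end

section
open Finset
open scoped Classical

theorem p_EG (hEN : S_EN) (hGOOD : S_GOOD) (hAVJ : S_AVJ) :
    S_EG := by
  intro p q _ P
  obtain ⟨κ, k0, k1, K, K0, h⟩ := hGOOD p q P
  refine ⟨κ, k0, k1, K, K0, fun m D J => (hEN p q m D J κ).2.2.2.trans ?_⟩
  rw [Dat.G, Dat.Dn, ← sum_add_distrib, mul_sum]
  refine sum_le_sum fun i _ => ?_
  rw [← sum_add_distrib, mul_sum]
  refine sum_le_sum fun j _ => ?_
  have n0 : ∀ x b, 0 ≤ D.mt j (D.nn J i j) x b := fun x b =>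
    div_nonneg (sum_nonneg fun _ _ => ind_nonneg _) (by positivity)
  have e : ∀ y b, D.mt j (fun y b => D.mt j (D.del J i j) y b ^ 2 + D.nn J i j y b) y b =
      D.mt j (D.del J i j) y b ^ 2 + D.mt j (D.nn J i j) y b := fun y b => by
    have := D.par.q0'
    have e : ∀ t, D.mt j (D.del J i j) y (D.rs j y b t) = D.mt j (D.del J i j) y b :=
      fun t => Dat.mt_upd j _ y b _
    rw [Dat.mt]
    simp only [e, sum_add_distrib, sum_const, card_univ, Fintype.card_fin, nsmul_eq_mul, add_div]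
    rw [← Dat.mt]; field_simp
  rw [← Dat.E_add, ← hAVJ p q m D J j
    fun y b => D.mt j (D.del J i j) y b ^ 2 + D.nn J i j y b, ← Dat.E_mul]
  refine Dat.E_mono fun x b hx => ?_
  simp only [e]
  have r0 : 0 ≤ K * mn (D.Cy J j x b) fun y =>
      D.mt j (D.del J i j) y b ^ 2 + D.mt j (D.nn J i j) y b :=
    mul_nonneg K0 (mn_nonneg fun y _ => add_nonneg (sq_nonneg _) (n0 y b))
  by_cases hj : j ∈ J
  · rw [Dat.del, insert_eq_of_mem hj, sub_self]; simpa using r0
  · unfold ind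
    split_ifs with hg
    · rw [one_mul]; exact h m D J i j x b hj hx hg
    · rwa [zero_mul]

end

section
set_option linter.unusedSectionVars false

open Finset
open scoped Classical

theorem cE_nonneg_cub {m q : ℕ} {f : (Fin m → Fin q) → ℝ} (h : ∀ β, 0 ≤ f β) : 0 ≤ cE f :=
  div_nonneg (sum_nonneg fun β _ => h β) (by positivity)

theorem cW_nonneg_cub {m q : ℕ} (j : Fin m) (f : (Fin m → Fin q) → ℝ) : 0 ≤ cW j f :=
  div_nonneg (sum_nonneg fun _ _ => sq_nonneg _) (by positivity)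

theorem one_cub (hCP : S_CP) (hCA : S_CA) {m q : ℕ} (hq : 0 < q) (f : (Fin m → Fin q) → ℝ) :
    cE (fun β => f β ^ 2) - cE f ^ 2 ≤ ∑ j, cE fun β => (f β - cM j f β) ^ 2 := by
  have h1 := hCP m q hq f
  have h2 : ∑ j, (cE (fun β => (f β - cM j f β) ^ 2) + cW j f) ≤
      ∑ j, 2 * cE (fun β => (f β - cM j f β) ^ 2) :=
    sum_le_sum fun j _ => by have := (hCA m q hq f j (fun _ => True) fun _ _ => Iff.rfl).1; linarith
  rw [← mul_sum] at h2
  linarith

theorem two_cub (hCP : S_CP) (hCA : S_CA) {m q : ℕ} (hq : 0 < q) (f : (Fin m → Fin q) → ℝ)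
    (gd : Fin m → (Fin m → Fin q) → Prop)
    (hg : ∀ j β t, gd j (Function.update β j t) ↔ gd j β) (U : Finset (Fin m))
    (hU : ∀ j, j ∉ U → cE (fun β => ind (¬ gd j β)) ≤ 1 / 8) :
    2 * cE (fun β => f β ^ 2) ≤ 2 * (cE f ^ 2 + ∑ j ∈ U, cW j f) +
      5 / 4 * (∑ j, cE fun β => (f β - cM j f β) ^ 2) +
      2 * ∑ j, cE fun β => ind (gd j β) * (f β - cM j f β) ^ 2 := by
  have h1 := hCP m q hq f
  have h2 : ∑ j, (cE (fun β => (f β - cM j f β) ^ 2) + cW j f) ≤
      ∑ j, ((if j ∈ U then cW j f else 0) + 5 / 4 * cE (fun β => (f β - cM j f β) ^ 2) +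
        2 * cE fun β => ind (gd j β) * (f β - cM j f β) ^ 2) := by
    refine sum_le_sum fun j _ => ?_
    have a1 : 0 ≤ cE fun β => (f β - cM j f β) ^ 2 := cE_nonneg_cub fun _ => sq_nonneg _
    have a2 : 0 ≤ cE fun β => ind (gd j β) * (f β - cM j f β) ^ 2 :=
      cE_nonneg_cub fun _ => mul_nonneg (ind_nonneg _) (sq_nonneg _)
    split_ifs with h
    · linarith
    · have a3 := (hCA m q hq f j (gd j) (hg j)).2
      have a4 := mul_le_mul_of_nonneg_right (hU j h) a1
      linarith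
  rw [sum_add_distrib (f := fun j => (if j ∈ U then cW j f else 0) +
    5 / 4 * cE (fun β => (f β - cM j f β) ^ 2)), sum_add_distrib (f := fun j =>
    (if j ∈ U then cW j f else 0)), ← mul_sum, ← mul_sum, sum_ite_mem, univ_inter] at h2
  have h3 : 0 ≤ ∑ j ∈ U, cW j f := sum_nonneg fun _ _ => cW_nonneg_cub _ _
  linarith

section
variable {p q m : ℕ} [NeZero p] {D : Dat p q m}

theorem xE_mono_cub {f g : D.X → ℝ} (h : ∀ x, f x ≤ g x) : D.xE f ≤ D.xE g :=
  div_le_div_of_nonneg_right (sum_le_sum fun x _ => h x) Dat.card_pos.le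

theorem xE_add_cub (f g : D.X → ℝ) : D.xE (fun x => f x + g x) = D.xE f + D.xE g := by
  simp only [Dat.xE, sum_add_distrib, add_div]

theorem xE_mul_cub (t : ℝ) (f : D.X → ℝ) : D.xE (fun x => t * f x) = t * D.xE f := by
  simp only [Dat.xE, ← mul_sum, mul_div_assoc]

theorem xE_sum_cub (F : Fin m → D.X → ℝ) :
    D.xE (fun x => ∑ j, F j x) = ∑ j, D.xE (F j) := by
  simp only [Dat.xE]
  rw [← sum_div, sum_comm]

end

theorem p_CUB (hCP : S_CP) (hCA : S_CA) :
    S_CUB := by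
  intro p q m _ D κ J
  constructor
  · rw [sub_le_iff_le_add, Dat.ep, Dat.Aw, Dat.En, ← sum_add_distrib]
    refine sum_le_sum fun i _ => ?_
    simp only [Dat.E, Dat.mt_bx]
    rw [← xE_sum_cub, ← xE_add_cub]
    refine xE_mono_cub fun x => ?_
    have h1 := one_cub hCP hCA D.par.q0 fun β => D.psi J i x (D.bx x β)
    have h3 : 0 ≤ ∑ j ∈ D.U κ J x, cW j (fun β => D.psi J i x (D.bx x β)) :=
      sum_nonneg fun _ _ => cW_nonneg_cub _ _
    linarith
  · rw [Dat.ep, Dat.Aw, Dat.En, Dat.Eg, mul_sum, mul_sum, mul_sum, mul_sum, ← sum_add_distrib,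
      ← sum_add_distrib]
    refine sum_le_sum fun i _ => ?_
    simp only [Dat.E, Dat.mt_bx]
    rw [← xE_sum_cub, ← xE_sum_cub, ← xE_mul_cub, ← xE_mul_cub, ← xE_mul_cub, ← xE_mul_cub,
      ← xE_add_cub, ← xE_add_cub]
    refine xE_mono_cub fun x => ?_
    exact two_cub hCP hCA D.par.q0 (fun β => D.psi J i x (D.bx x β))
      (fun j β => D.good κ J j x (D.bx x β))
      (fun j β t => by rw [Dat.bx_upd, Dat.good_rs κ J j (Dat.In_bx x β)]) (D.U κ J x) fun j hj => by
        simp only [Dat.U, mem_filter, mem_univ, true_and, not_le] at hj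
        exact hj.le

end

section
open Finset
open scoped Classical

theorem num_core {P Q W a c d ν k m z M φ U A : ℝ} (q1 : 1 ≤ Q) (qp : Q ≤ P) (w0 : 0 ≤ W)
    (a0 : 0 ≤ a) (a1 : a ≤ P) (c0 : 0 ≤ c) (c1 : c ≤ P) (d0 : 0 ≤ d) (n0 : 0 ≤ ν) (n1 : ν ≤ Q * d)
    (k0 : 0 ≤ k) (m0 : 0 ≤ m) (z0 : 0 < z) (hM : M ≤ Q ^ 2 / 2 * (k * a + d + ν * c))
    (hφ : φ ≤ m * Q * z + Q * (2 * d + ν * c) / z) (hU : U ≤ W * d)
    (hA : A ≤ Q ^ 2 * (U * a + φ + z * m + ν / z) + 2 * (M + Q ^ 2 * ν)) :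
    2 * d + ν * c ≤ (6 + W) * P ^ 5 * d ∧ 3 * Q ^ 2 * ν ≤ (6 + W) * P ^ 5 * d ∧
    Q ^ 4 ≤ (6 + W) * P ^ 5 ∧ M ≤ (6 + W) * P ^ 5 * (d + z * m + d / z + k) ∧
    A ≤ (6 + W) * P ^ 5 * (d + z * m + d / z + k) := by
  have p1 : 1 ≤ P := q1.trans qp
  have n2 : ν ≤ P * d := n1.trans (mul_le_mul_of_nonneg_right qp d0)
  have n3 : ν * c ≤ P ^ 2 * d := (mul_le_mul n2 c1 c0 (by positivity)).trans (le_of_eq (by ring))
  have q2 : Q ^ 2 ≤ P ^ 2 := pow_le_pow_left₀ (by linarith) qp 2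
  have q4 : Q ^ 4 ≤ P ^ 4 := pow_le_pow_left₀ (by linarith) qp 4
  have t : ∀ (j : ℕ) (x : ℝ), j ≤ 5 → 0 ≤ x → P ^ j * x ≤ P ^ 5 * x := fun j x h h' =>
    mul_le_mul_of_nonneg_right (pow_le_pow_right₀ p1 h) h'
  have zm : 0 ≤ z * m := by positivity
  have dz : 0 ≤ d / z := by positivity
  have s1 : 2 * d + ν * c ≤ 3 * (P ^ 2 * d) := by
    have := mul_le_mul_of_nonneg_right (one_le_pow₀ (n := 2) p1) d0
    linarith
  have s2 : M ≤ P ^ 3 * k + P ^ 2 * d + P ^ 4 * d := by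
    have h1 : k * a + d + ν * c ≤ k * P + d + P ^ 2 * d := by
      linarith [mul_le_mul_of_nonneg_left a1 k0]
    have h2 := mul_le_mul (show Q ^ 2 / 2 ≤ P ^ 2 by linarith [sq_nonneg Q]) h1 (by positivity)
      (by positivity)
    linarith
  have s3 : φ ≤ P * (z * m) + 3 * P ^ 3 * (d / z) := by
    have h1 := div_le_div_of_nonneg_right (mul_le_mul qp s1 (by positivity) (by positivity)) z0.le
    have h2 : P * (3 * (P ^ 2 * d)) / z = 3 * P ^ 3 * (d / z) := by ring
    linarith [mul_le_mul_of_nonneg_right qp zm]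
  have s4 : ν / z ≤ P * (d / z) := (div_le_div_of_nonneg_right n2 z0.le).trans_eq (by ring)
  have s5 : U * a ≤ W * d * P :=
    (mul_le_mul_of_nonneg_right hU a0).trans (mul_le_mul_of_nonneg_left a1 (by positivity))
  have s6 : Q ^ 2 * ν ≤ P ^ 3 * d := (mul_le_mul q2 n2 n0 (by positivity)).trans_eq (by ring)
  have s7 : Q ^ 2 * (U * a + φ + z * m + ν / z) ≤
      P ^ 2 * (W * d * P + (P * (z * m) + 3 * P ^ 3 * (d / z)) + z * m + P * (d / z)) :=
    (mul_le_mul_of_nonneg_left (by linarith) (sq_nonneg Q)).trans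
      (mul_le_mul_of_nonneg_right q2 (by positivity))
  have u1 := t 2 d (by norm_num) d0
  have u2 := t 3 d (by norm_num) d0
  have u3 := t 4 d (by norm_num) d0
  have u4 := t 3 k (by norm_num) k0
  have u5 := t 2 _ (by norm_num) zm
  have u6 := t 3 _ (by norm_num) zm
  have u7 := t 3 _ (by norm_num) dz
  have u8 := t 3 (W * d) (by norm_num) (by positivity)
  have u9 := t 4 1 (by norm_num) zero_le_one
  have v1 : 0 ≤ P ^ 5 * d := by positivity
  have v2 : 0 ≤ P ^ 5 * k := by positivity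
  have v3 : 0 ≤ P ^ 5 * (z * m) := by positivity
  have v4 : 0 ≤ P ^ 5 * (d / z) := by positivity
  have v5 : 0 ≤ W * P ^ 5 * d := by positivity
  have v6 : 0 ≤ W * P ^ 5 * (z * m + d / z + k) := by positivity
  have v7 : 0 ≤ W * P ^ 5 := by positivity
  have v8 : 0 ≤ P ^ 5 := by positivity
  refine ⟨by linarith, by linarith, by linarith, by linarith, by linarith⟩

theorem p_CORE (hFIN : S_FIN) (hPAR : S_PAR) (hEG : S_EG) (hDROP : S_DROP) (hAU : S_AU) (hUU : S_UU) (hE1 : S_E1) (hU1 : S_U1) (hVT : S_VT) (hNU : S_NU) (hLJ : S_LJ) :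
    S_CORE := by
  intro p q _ P
  obtain ⟨κ, k0, k1, C, C0, hG⟩ := hEG p q P
  have q0 := P.q0'
  have q1 : (1 : ℝ) ≤ q := by exact_mod_cast P.q0
  have qp : (q : ℝ) ≤ p := by exact_mod_cast P.qp.le
  have p0 : (0 : ℝ) < p := by linarith
  obtain ⟨W, hW⟩ : ∃ W : ℝ, W = 64 * q ^ 2 * p ^ 3 / κ ^ 2 := ⟨_, rfl⟩
  have w0 : 0 ≤ W := by rw [hW]; positivity
  obtain ⟨ζ, z0, hζ⟩ : ∃ ζ : ℝ, 0 < ζ ∧ ζ * (7 + 6 * C) = 1 / (10 * q) :=
    ⟨1 / (10 * q) / (7 + 6 * C), by positivity, by field_simp⟩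
  obtain ⟨n, n0, lam, z, ε, l0, zz, e0, m₀, m0, h⟩ := hPAR ((6 + W) * p ^ 5) ζ (by positivity) z0
  refine ⟨ε, e0, m₀, fun m hm D => ?_⟩
  by_contra hlt
  obtain ⟨K, K0, nK, h⟩ := h m hm
  have mp : (0 : ℝ) < m := by exact_mod_cast m0.trans_le hm
  obtain ⟨J, hJ, hD⟩ := hDROP p q m D n K lam n0 K0 nK l0
  have d0 := (hLJ p q m D).1
  obtain ⟨v1, v2, v0⟩ := hVT p q m D
  obtain ⟨u0, u1⟩ := hNU p q m D
  have lq : 0 ≤ Real.log q := Real.log_nonneg q1
  have lp : Real.log p ≤ p := Real.log_le_self p0.le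
  have hM := (hU1 p q m D J).trans (mul_le_mul_of_nonneg_left (add_le_add_left (add_le_add_left
    (mul_le_mul_of_nonneg_right (show (#J : ℝ) ≤ K by exact_mod_cast hJ.le) lq) _) _)
    (by positivity))
  obtain ⟨b1, b2, b3, b4, b5⟩ := num_core q1 qp w0 lq ((Real.log_le_log q0 qp).trans lp)
    (Real.log_nonneg (q1.trans qp)) lp d0 u0 u1 K.cast_nonneg mp.le zz hM (hE1 p q m D z zz)
    (hW ▸ hUU p q m D κ J k0 k1) (hAU p q m D κ J z zz)
  have hp : 0 < (6 + W) * (p : ℝ) ^ 5 := by positivity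
  generalize (6 + W) * (p : ℝ) ^ 5 = H at *
  have q2 : (q : ℝ) ^ 2 ≤ q ^ 4 := pow_le_pow_right₀ q1 (by norm_num)
  obtain ⟨c1, c2⟩ := h D.df D.v d0 (not_le.1 hlt).le v0
    (v2.trans (mul_le_mul_of_nonneg_right (q2.trans b3) mp.le))
  have c3 : D.Dr J + D.Dn J ≤ D.v + ζ * m := by
    refine hD.trans (le_trans (mul_le_mul_of_nonneg_left ?_ (by positivity)) c2)
    have e1 := div_le_div_of_nonneg_right b1 l0.le
    have e2 : lam * q ^ 4 * m / 8 ≤ lam * H * m := by
      have := mul_le_mul_of_nonneg_right (mul_le_mul_of_nonneg_left b3 l0.le) mp.le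
      have : 0 ≤ lam * H * m := by positivity
      linarith
    have e3 := mul_le_mul_of_nonneg_left (add_le_add e1 e2) (sq_nonneg (n : ℝ))
    have e4 := mul_le_mul_of_nonneg_left b2 (n.cast_nonneg : (0 : ℝ) ≤ n)
    linarith
  have c4 := hFIN p q m D κ C (ζ * m) J C0 (hG m D J) (b4.trans c1) c3 (b5.trans c1)
  have c5 : 0 ≤ H * (z * m + D.df / z + K) := by positivity
  have c6 : ζ * m * (7 + 6 * C) = m / (5 * q) / 2 := by
    rw [mul_right_comm, hζ]; field_simp; ring
  have c7 : (0 : ℝ) < m / (5 * q) := by positivity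
  have c8 : 0 < ζ * m := by positivity
  linarith

end

section
open Finset
open scoped Classical

theorem p_PRE (hST1 : S_ST1) (hST2 : S_ST2) (hCORE : S_CORE) :
    S_PRE := by
  intro p q _ hP
  obtain ⟨ρ, r0, r1, h1⟩ := hST1 p q hP
  obtain ⟨ε, e0, m₀, h3⟩ := hCORE p q hP
  have p0 : (0 : ℝ) < p := by exact_mod_cast Nat.pos_of_ne_zero (NeZero.ne p)
  have l0 : 0 < -Real.log ρ := neg_pos.2 (Real.log_neg r0 r1)
  obtain ⟨η, η0, hη⟩ : ∃ η, 0 < η ∧ η * p = ε / 2 := ⟨ε / 2 / p, by positivity, by field_simp⟩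
  obtain ⟨γ, g0, g1, g2⟩ : ∃ γ, 0 < γ ∧ γ ≤ ε / 2 ∧ γ ≤ -Real.log ρ * η :=
    ⟨_, lt_min (by positivity) (by positivity), min_le_left _ _, min_le_right _ _⟩
  refine ⟨Real.exp (γ / 2), Real.one_lt_exp_iff.2 (by positivity),
    max m₀ ⌈2 * (2 - Real.log ρ) / γ⌉₊, fun m hm P => ?_⟩
  have m0 : (0 : ℝ) ≤ m := m.cast_nonneg
  have m1 : 2 * (2 - Real.log ρ) ≤ m * γ :=
    (div_le_iff₀ g0).1 (Nat.ceil_le.1 (le_of_max_le_right hm))
  have p1 : (0 : ℝ) < p ^ m := by positivity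
  set κ := ⌊η * m⌋₊
  have k1 : (κ : ℝ) ≤ η * m := Nat.floor_le (by positivity)
  have k2 : η * m < κ + 1 := Nat.lt_floor_add_one _
  have three : (3 : ℝ) ≤ Real.exp 2 := by linarith [Real.add_one_le_exp 2]
  set y := Real.exp (-Real.log ρ - γ * m) with hy
  have a1 : (#(univ.filter fun x => κ ≤ #(P.sp x)) : ℝ) ≤ 2 * p ^ m * y := by
    refine (h1 m P κ).trans (mul_le_mul_of_nonneg_left ?_ (by positivity))
    rw [← Real.exp_log r0, ← Real.exp_nat_mul]
    refine Real.exp_le_exp.2 ?_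
    nlinarith [mul_le_mul_of_nonneg_right g2 m0, mul_le_mul_of_nonneg_left k2.le l0.le]
  have a2 : (Fintype.card P.X : ℝ) ≤ 2 * p ^ m * y + p ^ m * y := by
    rcases hST2 p q m P κ with c | ⟨D, c⟩
    · have : (0 : ℝ) < p ^ m * y := mul_pos p1 (Real.exp_pos _)
      have c' := (Nat.cast_le (α := ℝ)).2 c
      linarith
    · have c' := (Nat.cast_le (α := ℝ)).2 c
      push_cast at c'
      have d0 := D.card_pos
      have d1 := h3 m (le_of_max_le_left hm) D
      have d2 : (p : ℝ) ^ κ ≤ Real.exp (κ * p) := by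
        rw [Real.exp_nat_mul]
        exact pow_le_pow_left₀ p0.le (by linarith [Real.add_one_le_exp (p : ℝ)]) κ
      have d3 : Real.exp (κ * p) * Fintype.card D.X ≤ p ^ m * y := by
        rw [← Real.exp_log d0, ← Real.exp_log p1, ← Real.exp_add, ← Real.exp_add, Real.log_pow]
        refine Real.exp_le_exp.2 ?_
        rw [Dat.df] at d1
        have d4 : κ * (p : ℝ) ≤ ε / 2 * m := by
          rw [← hη]; nlinarith [mul_le_mul_of_nonneg_right k1 p0.le]
        nlinarith [mul_le_mul_of_nonneg_right g1 m0]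
      linarith [mul_le_mul_of_nonneg_right d2 d0.le]
  have a3 : 3 * y * Real.exp (γ / 2) ^ m ≤ 1 := by
    refine (mul_le_mul_of_nonneg_right (mul_le_mul_of_nonneg_right three (Real.exp_pos _).le)
      (by positivity)).trans ?_
    rw [← Real.exp_nat_mul, ← Real.exp_add, ← Real.exp_add]
    exact Real.exp_le_one_iff.2 (by linarith)
  have a4 := mul_le_mul_of_nonneg_right a2 (pow_pos (Real.exp_pos (γ / 2)) m).le
  nlinarith [mul_le_mul_of_nonneg_left a3 p1.le]

end

end Pool.Agent.P.MP_263185_co.AQ
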