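import Pool.Agent.P.MP_263185_co.AQ.Iface

/-! Proofs of the steps K0, AVJ, LJ, MG, BES, E1, UT, AU, LIFT, GA, GOOD, FIN, PD0, KPS, NB, THA. -/

set_option linter.unusedSectionVars false

namespace Pool.Agent.P.MP_263185_co.AQ

section
open Finset
open scoped Classical

theorem cnt_k0 {p q : ℕ} [NeZero p] (P : Par p q) {x y : ZMod p} (h : cf q x y)
    (h0 : 0 ≤ lf x y) :
    (#(univ.filter fun b => ed q b x ∧ ed q b y) : ℝ) = q - |(lf x y : ℝ)| := by
  obtain ⟨n, hn⟩ := Int.eq_ofNat_of_zero_le h0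
  have hq : n < q := by
    have h' := h
    rw [cf, hn] at h'
    have := (abs_lt.1 h').2
    omega
  have e : y = x + (n : ZMod p) := by
    have := add_lf x y
    rw [hn, Int.cast_natCast] at this
    exact this.symm
  have c : #(univ.filter fun b => ed q b x ∧ ed q b y) = #(range (q - n)) := by
    refine card_nbij' (fun b => pos b x) (fun t => x - t) ?_ ?_ ?_ ?_
    · intro b hb
      have hb' := (mem_filter.1 (mem_coe.1 hb)).2
      have h1 := P.lf_ed hb'.1 hb'.2
      have h2 : pos b y < q := hb'.2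
      simp only [coe_range, Set.mem_Iio]
      omega
    · intro t ht
      have ht' : t < q - n := by simpa using ht
      refine mem_coe.2 (mem_filter.2 ⟨mem_univ _, P.ed_sub x (by omega), ?_⟩)
      exact P.ed_iff.2 ⟨t + n, by omega, by rw [e]; push_cast; ring⟩
    · intro b _
      show x - (pos b x : ℕ) = b
      rw [sub_eq_iff_eq_add', eq_comm, add_comm, add_pos']
    · intro t ht
      have ht' : t < q - n := by simpa using ht
      exact pos_sub x (by have := P.qp; omega)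
  rw [c, card_range, hn, Int.cast_natCast, Nat.cast_sub hq.le, abs_of_nonneg (by positivity)]

theorem one_k0 {p q : ℕ} [NeZero p] (P : Par p q) (x y : ZMod p) :
    (#(univ.filter fun b => ed q b x ∧ ed q b y) : ℝ) = q * k0 q x y := by
  have q0 := P.q0'
  unfold k0
  split_ifs with h
  · rw [mul_div_cancel₀ _ q0.ne']
    rcases le_total 0 (lf x y) with h0 | h0
    · exact cnt_k0 P h h0
    · have h1 := cnt_k0 P (P.cf_symm h) (by rw [P.lf_symm h]; omega)
      rw [P.lf_symm h, Int.cast_neg, abs_neg] at h1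
      rw [← h1]
      congr 2
      ext b
      simp only [mem_filter, mem_univ, true_and, and_comm]
  · rw [mul_zero, Nat.cast_eq_zero, card_eq_zero, filter_eq_empty_iff]
    exact fun b _ hb => h (P.cf_ed hb.1 hb.2)

theorem two_k0 {p q : ℕ} [NeZero p] (P : Par p q) (x y : ZMod p) :
    0 ≤ k0 q x y ∧ k0 q x y ≤ 1 ∧ k0 q x y = k0 q y x ∧
      (cf q x y → 1 / q ≤ k0 q x y) ∧ (¬ cf q x y → k0 q x y = 0) := by
  have q0 := P.q0'
  by_cases h : cf q x y
  · have h1 : |(lf x y : ℝ)| + 1 ≤ q := by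
      have : |lf x y| + 1 ≤ q := h
      exact_mod_cast this
    have h2 := abs_nonneg (lf x y : ℝ)
    have e : k0 q x y = (q - |(lf x y : ℝ)|) / q := if_pos h
    have e' : k0 q y x = (q - |(lf x y : ℝ)|) / q := by
      rw [k0, if_pos (P.cf_symm h), P.lf_symm h, Int.cast_neg, abs_neg]
    rw [e, e']
    refine ⟨div_nonneg (by linarith) q0.le, (div_le_one q0).2 (by linarith), rfl,
      fun _ => div_le_div_of_nonneg_right (by linarith) q0.le, fun h' => absurd h h'⟩
  · have e : k0 q x y = 0 := if_neg h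
    have e' : k0 q y x = 0 := if_neg fun h' => h (P.cf_symm h')
    rw [e, e']
    exact ⟨le_rfl, zero_le_one, rfl, fun h' => absurd h' h, fun _ => rfl⟩

theorem three_k0 {p : ℕ} (q : ℕ) (x y a : ZMod p) : k0 q (x + a) (y + a) = k0 q x y := by
  have e : lf (x + a) (y + a) = lf x y := by rw [lf, lf, add_sub_add_right_eq_sub]
  unfold k0 cf
  rw [e]

theorem tot_k0 {p q : ℕ} [NeZero p] (P : Par p q) : ∑ y : ZMod p, k0 q 0 y = q := by
  have q0 := P.q0'
  refine mul_left_cancel₀ q0.ne' ?_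
  rw [mul_sum, ← sum_congr rfl fun y _ => one_k0 P 0 y]
  have e : ∀ y : ZMod p, (#(univ.filter fun b => ed q b (0 : ZMod p) ∧ ed q b y) : ℝ) =
      ∑ b ∈ univ.filter (fun b => ed q b (0 : ZMod p)), if ed q b y then (1 : ℝ) else 0 := by
    intro y
    rw [sum_boole, filter_filter]
  rw [sum_congr rfl fun y _ => e y, sum_comm]
  have e' : ∀ b : ZMod p, (∑ y : ZMod p, if ed q b y then (1 : ℝ) else 0) = q := by
    intro b
    rw [sum_boole]
    exact_mod_cast P.card_arc b
  rw [sum_congr rfl fun b _ => e' b, sum_const, P.card_arc', nsmul_eq_mul]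

theorem p_K0 :
    S_K0 := by
  intro p q _ P
  refine ⟨one_k0 P, two_k0 P, three_k0 q, fun x t => ?_, fun t t0 t1 => ⟨?_, ?_⟩⟩
  · rw [ks, ← Equiv.sum_comp (Equiv.addRight x)]
    refine sum_congr rfl fun y _ => ?_
    have := three_k0 q 0 y x
    rw [zero_add] at this
    rw [Equiv.coe_addRight, this]
  · rw [ks, ← tot_k0 P]
    exact sum_le_sum fun y _ =>
      Real.self_le_rpow_of_le_one (two_k0 P 0 y).1 (two_k0 P 0 y).2.1 t1
  · rw [ks]
    refine (sum_le_sum (g := fun _ => (1 : ℝ)) fun y _ =>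
      Real.rpow_le_one (two_k0 P 0 y).1 (two_k0 P 0 y).2.1 t0.le).trans ?_
    simp [ZMod.card]

end

section
open Finset
open scoped Classical

theorem tri_avj {p q m : ℕ} [NeZero p] (D : Dat p q m) (J : Finset (Fin m)) (j : Fin m)
    (g : (Fin m → ZMod p) → D.X → D.X → ℝ) :
    ∑ b, ∑ x ∈ D.B b, ∑ y ∈ D.Cy J j x b, g b x y =
      ∑ t ∈ univ.filter (fun t : (Fin m → ZMod p) × D.X × D.X =>
        D.In t.2.1 t.1 ∧ t.2.2 ∈ D.Cy J j t.2.1 t.1), g t.1 t.2.1 t.2.2 := by
  rw [sum_filter, Fintype.sum_prod_type]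
  refine sum_congr rfl fun b _ => ?_
  rw [Dat.B, sum_filter, Fintype.sum_prod_type]
  refine sum_congr rfl fun x _ => ?_
  by_cases h : D.In x b
  · simp only [h, true_and, if_true]
    rw [← sum_filter, filter_mem_eq_inter, univ_inter]
  · simp [h]

/-- the box moved along with the point -/
def tb_avj {p q m : ℕ} (D : Dat p q m) (j : Fin m) (x : D.X) (b : Fin m → ZMod p) (y : D.X) :
    Fin m → ZMod p := Function.update b j (D.c y j - D.c x j + b j)

theorem tb_tb_avj {p q m : ℕ} (D : Dat p q m) (j : Fin m) (x y : D.X)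
    (b : Fin m → ZMod p) : tb_avj D j y (tb_avj D j x b y) x = b := by
  funext l
  by_cases e : l = j
  · subst e
    simp only [tb_avj, Function.update_self]
    ring
  · simp only [tb_avj, Function.update_of_ne e]

theorem mem_avj {p q m : ℕ} [NeZero p] (D : Dat p q m) (J : Finset (Fin m)) (j : Fin m) {x y : D.X}
    {b : Fin m → ZMod p} (h : D.In x b) (hy : y ∈ D.Cy J j x b) :
    D.In y (tb_avj D j x b y) ∧ x ∈ D.Cy J j y (tb_avj D j x b y) := by
  refine ⟨Dat.In_upd hy ?_, ?_⟩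
  · have := h j
    unfold ed pos at this ⊢
    convert this using 2; ring
  · rw [tb_avj, Dat.Cy_eq hy]
    exact Dat.self_mem_Cy J j h

theorem p_AVJ (hSW : S_SW) :
    S_AVJ := by
  intro p q m _ D J j f
  rw [← Dat.E_mt j f, Dat.E_eq, Dat.E_eq, (hSW p q m D (D.mt j f)).1, (hSW p q m D fun x b =>
    mn (D.Cy J j x b) fun y => D.mt j f y b).1]
  congr 1
  have h1 : ∑ b, ∑ x ∈ D.B b, D.mt j f x b =
      ∑ b, ∑ x ∈ D.B b, ∑ _y ∈ D.Cy J j x b, D.mt j f x b / #(D.Cy J j x b) := by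
    refine sum_congr rfl fun b _ => sum_congr rfl fun x hx => ?_
    have h0 : (0 : ℝ) < #(D.Cy J j x b) := by
      exact_mod_cast card_pos.2 ⟨x, Dat.self_mem_Cy J j (Dat.mem_B.1 hx)⟩
    rw [sum_const, nsmul_eq_mul]
    field_simp
  rw [h1]
  simp only [mn, sum_div]
  rw [tri_avj D J j (fun b x y => D.mt j f y b / #(D.Cy J j x b)),
    tri_avj D J j (fun b x _ => D.mt j f x b / #(D.Cy J j x b))]
  refine sum_nbij' (fun t => (tb_avj D j t.2.1 t.1 t.2.2, t.2.2, t.2.1))
    (fun t => (tb_avj D j t.2.1 t.1 t.2.2, t.2.2, t.2.1)) ?_ ?_ ?_ ?_ ?_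
  · intro t ht
    simp only [mem_filter, mem_univ, true_and] at ht ⊢
    exact mem_avj D J j ht.1 ht.2
  · intro t ht
    simp only [mem_filter, mem_univ, true_and] at ht ⊢
    exact mem_avj D J j ht.1 ht.2
  · intro t _
    simp only [tb_tb_avj]
  · intro t _
    simp only [tb_tb_avj]
  · intro t ht
    simp only [mem_filter, mem_univ, true_and] at ht
    simp only
    rw [tb_avj, Dat.Cy_eq ht.2, Dat.mt_upd]

end

section
open Finset
open scoped Classical

theorem up_lj {p q m : ℕ} [NeZero p] (D : Dat p q m) (J : Finset (Fin m)) (x : D.X)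
    (b : Fin m → ZMod p) : #(D.A J x b) * q ^ #J ≤ q ^ m := by
  have h : #(D.A J x b) ≤ #(Fintype.piFinset fun l =>
      if l ∈ J then {D.c x l} else univ.filter (ed q (b l))) :=
    card_le_card_of_injOn D.c (fun y hy => by
      obtain ⟨h1, h2⟩ := Dat.mem_A.1 hy
      refine Fintype.mem_piFinset.2 fun l => ?_
      split_ifs with e
      · exact mem_singleton.2 (h2 l e)
      · exact mem_filter.2 ⟨mem_univ _, h1 l⟩) D.cinj.injOn
  have e1 : q ^ #J = ∏ l : Fin m, if l ∈ J then q else 1 := by simp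
  have e2 : q ^ m = ∏ _l : Fin m, q := by simp
  refine (Nat.mul_le_mul_right _ h).trans (le_of_eq ?_)
  rw [Fintype.card_piFinset, e1, e2, ← prod_mul_distrib]
  refine prod_congr rfl fun l _ => ?_
  split_ifs
  · simp
  · rw [D.par.card_arc, mul_one]

theorem fib_lj (hSW : S_SW) {p q m : ℕ} [NeZero p] (D : Dat p q m) (J : Finset (Fin m)) (x : D.X)
    (β : Fin m → Fin q) :
    #(univ.filter fun ω : D.X × (Fin m → Fin q) =>
      (fun l => if l ∈ J then D.c ω.1 l else D.bx ω.1 ω.2 l) =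
        fun l => if l ∈ J then D.c x l else D.bx x β l) ≤ #(D.A J x (D.bx x β)) * q ^ #J := by
  have e1 : q ^ #J = #(Fintype.piFinset fun l => if l ∈ J then univ else {β l}) := by
    rw [Fintype.card_piFinset, show q ^ #J = ∏ l : Fin m, if l ∈ J then q else 1 by simp]
    refine prod_congr rfl fun l _ => ?_
    split_ifs <;> simp
  rw [e1, ← card_product]
  refine card_le_card_of_injOn (fun ω => (ω.1, fun l => if l ∈ J then ω.2 l else β l))
    (fun ω hω => ?_) fun ω hω ω' hω' h => ?_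
  · have h := fun l => congrFun (mem_filter.1 hω).2 l
    refine mem_product.2 ⟨Dat.mem_A.2 ⟨fun l => ?_, fun l e => ?_⟩,
      Fintype.mem_piFinset.2 fun l => ?_⟩
    · have := h l
      split_ifs at this with e
      · rw [this]; exact Dat.In_bx x β l
      · rw [← this]; exact Dat.In_bx ω.1 ω.2 l
    · simpa only [if_pos e] using h l
    · by_cases e : l ∈ J <;> simp [e]
  · obtain ⟨y, γ⟩ := ω
    obtain ⟨y', γ'⟩ := ω'
    obtain ⟨rfl, h2⟩ := Prod.mk.inj h
    refine Prod.ext rfl (((hSW p q m D fun _ _ => 0).2 y).1 (funext fun l => ?_))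
    by_cases e : l ∈ J
    · have := congrFun h2 l
      simp only [if_pos e] at this
      simp only [Dat.bx, this]
    · simpa only [if_neg e] using
        congrFun ((mem_filter.1 hω).2.trans (mem_filter.1 hω').2.symm) l

theorem p_LJ (hLU : S_LU) (hSW : S_SW) :
    S_LJ := by
  intro p q m _ D
  have q0 := D.par.q0'
  have p0 : (0 : ℝ) < p := by exact_mod_cast NeZero.pos p
  have key : ∀ J : Finset (Fin m),
      (m - #J) * Real.log q - D.df ≤ D.L J ∧ D.L J ≤ (m - #J) * Real.log q := by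
    intro J
    have e : D.E (fun x b => Real.log (#(D.A J x b) * (q : ℝ) ^ #J)) =
        D.L J + #J * Real.log q := by
      rw [Dat.L, ← Dat.E_const (D := D) (#J * Real.log q), ← Dat.E_add]
      exact Dat.E_congr fun x b h => by
        rw [Real.log_mul (Dat.A_pos J h).ne' (by positivity), Real.log_pow]
    constructor
    · have h := hLU p q m D (Fin m → ZMod p)
        (fun x β l => if l ∈ J then D.c x l else D.bx x β l) (fun _ => 1 / (p : ℝ) ^ m)
        (fun x b => #(D.A J x b) * (q : ℝ) ^ #J) (fun _ => by positivity)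
        (by simp [ZMod.card, mul_inv_cancel₀ (pow_pos p0 m).ne']) (fun _ _ => by positivity)
        fun x β => by
          have := fib_lj hSW D J x β
          rw [filter_congr_decidable] at *
          exact_mod_cast this
      have e2 : D.xE (fun _ => cE fun _ : Fin m → Fin q => Real.log (1 / (p : ℝ) ^ m)) =
          -(m * Real.log p) := by
        rw [← Real.log_pow, ← Real.log_inv, one_div]
        exact Dat.E_const (D := D) _
      rw [e, e2] at h
      rw [Dat.df]
      linarith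
    · have h : D.E (fun x b => Real.log (#(D.A J x b) * (q : ℝ) ^ #J)) ≤
          D.E fun _ _ => m * Real.log q := Dat.E_mono fun x b h => by
        rw [← Real.log_pow]
        exact Real.log_le_log (mul_pos (Dat.A_pos J h) (by positivity))
          (by exact_mod_cast up_lj D J x b)
      rw [e, Dat.E_const] at h
      linarith
  exact ⟨by linarith [(key ∅).1, (key ∅).2], key⟩

end

section
open Finset
open scoped Classical

theorem p_MG :
    S_MG := by
  intro p q m _ D α A g γ hA hγ h0 hs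
  have p0 : (0 : ℝ) < p := by exact_mod_cast NeZero.pos p
  simp only [Real.exp_sum]
  refine (sum_prod_le A D.s D.sinj (fun i => (α i).elim univ fun a => univ.filter (ed q a))
    (fun y hy i => ?_) (fun i z => Real.exp (g i (sgo q (α i) z)))
    fun i z => (Real.exp_pos _).le).trans ?_
  · rcases e : α i with _ | a
    · exact mem_univ _
    · exact mem_filter.2 ⟨mem_univ _, hA y hy i a e⟩
  · rw [card_filter, Nat.cast_sum, sum_mul, ← sum_add_distrib, Real.exp_sum]
    refine prod_le_prod (fun i _ => sum_nonneg fun z _ => (Real.exp_pos _).le) fun i _ => ?_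
    rcases e : α i with _ | a
    · simp only [Option.elim, sgo, sum_const, card_univ, ZMod.card, nsmul_eq_mul, if_true,
        Nat.cast_one, one_mul]
      rw [Real.exp_add, Real.exp_log p0, mul_comm]
      exact mul_le_mul_of_nonneg_right (Real.exp_le_exp.2 ((h0 i).trans (hγ i))) p0.le
    · simp only [Option.elim, sgo, reduceCtorEq, if_false, Nat.cast_zero, zero_mul, add_zero]
      rw [D.par.sum_arc a fun z => Real.exp (g i ((pos a z : ℝ) - (q - 1) / 2))]
      refine le_of_eq_of_le (sum_congr rfl fun t ht => ?_) (hs i)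
      rw [pos_add a ((mem_range.1 ht).trans D.par.qp)]

end

section
open Finset
open scoped Classical

theorem p_BES (hLG : S_LG) (hBZ : S_BZ) (hLJ : S_LJ) :
    S_BES := by
  intro p q m _ D J J' lam hd
  have h := hLG p q m D ∅
    (fun x b => Real.log #(D.A J x b) + Real.log #(D.A J' x b) - Real.log #(D.A (J ∪ J') x b) +
      lam * ∑ i, D.M J i x b * D.M J' i x b)
    (fun x b => Real.log #(D.A ∅ x b) +
      (m * Real.log q + (Real.log p * D.no b + lam ^ 2 * q ^ 4 * m / 8))) (by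
      intro x b hx
      rw [Real.exp_add (Real.log _), Real.exp_log (Dat.A_pos _ hx), Dat.A_empty]
      refine le_trans (le_of_eq (sum_congr rfl fun y hy => ?_))
        ((hBZ p q m D J J' lam b).trans (le_of_eq ?_))
      · have hy' := Dat.mem_B.1 hy
        rw [Real.exp_add, Real.exp_sub, Real.exp_add, Real.exp_log (Dat.A_pos _ hy'),
          Real.exp_log (Dat.A_pos _ hy'), Real.exp_log (Dat.A_pos _ hy')]
      · congr 2; ring)
  rw [Dat.E_add, Dat.E_sub, Dat.E_add, Dat.E_mul, Dat.E_sum, Dat.E_add, Dat.E_add, Dat.E_add,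
    Dat.E_mul (Real.log p), Dat.E_const, Dat.E_const] at h
  have h1 := ((hLJ p q m D).2 J).1
  have h2 := ((hLJ p q m D).2 J').1
  have h3 := ((hLJ p q m D).2 (J ∪ J')).2
  rw [card_union_of_disjoint hd] at h3
  push_cast at h3
  simp only [Dat.L] at h h1 h2 h3
  rw [Dat.nu]
  linarith

end

section
open Finset
open scoped Classical

theorem p_E1 (hLJ : S_LJ) (hEA : S_EA) (hEB : S_EB) (hEC : S_EC) :
    S_E1 := by
  intro p q m _ D z hz
  have l := ((hLJ p q m D).2 ∅).1
  have a := hEA p q m D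
  have b := hEB p q m D
  have e : D.E (fun x b => 2 * Real.log #(D.B b) + Real.log #(D.Fs x b) - Real.log (D.V b)) +
      D.E (fun x b => Real.log (D.V b) - Real.log #(D.Fs x b)) = 2 * D.L ∅ := by
    rw [Dat.L, ← D.E_add, ← D.E_mul]
    congr 1
    ext x b
    rw [Dat.A_empty]; ring
  rw [card_empty, Nat.cast_zero, sub_zero] at l
  have h1 : D.Ed / q ≤ 2 * D.df + D.nu * Real.log p := by linarith
  rw [div_le_iff₀' D.par.q0'] at h1
  exact (hEC p q m D z hz).trans (add_le_add le_rfl (div_le_div_of_nonneg_right h1 hz.le))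

end

section
open Finset
open scoped Classical

theorem arc_ut {p q : ℕ} [NeZero p] (P : Par p q) (r : ZMod p) (t : ℝ) :
    ∑ w ∈ univ.filter (ed q r), Real.exp (t * eps r w) ≤ q * Real.exp (t ^ 2 / 2) := by
  have e : ∀ w, Real.exp (t * eps r w) = 1 + (if w = r then Real.exp t - 1 else 0) +
      (if w = r + 1 then Real.exp (-t) - 1 else 0) := fun w => by
    unfold eps
    by_cases h : w = r
    · have : w ≠ r + 1 := h ▸ P.ne_succ w
      simp [h, P.ne_succ r]
    · by_cases h' : w = r + 1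
      · simp [h', (P.ne_succ r).symm]
      · simp [h, h']
  have h1 := Real.cosh_le_exp_half_sq t
  rw [Real.cosh_eq] at h1
  have h2 : 1 ≤ Real.exp (t ^ 2 / 2) := Real.one_le_exp (by positivity)
  have h3 : (2 : ℝ) ≤ q := by exact_mod_cast P.q2
  simp only [e, sum_add_distrib, sum_ite_eq', mem_filter, mem_univ, true_and, P.ed_self,
    P.ed_succ, if_true, sum_const, P.card_arc, nsmul_eq_mul, mul_one]
  nlinarith

theorem p_UT (hLG : S_LG) (hLJ : S_LJ) (hAVG : S_AVG) :
    S_UT := by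
  intro p q m _ D J
  have q0 := D.par.q0'
  have hc : (#Jᶜ : ℝ) = m - #J := by
    rw [card_compl, Fintype.card_fin, Nat.cast_sub (by simpa using card_le_univ J)]
  have ht : ∀ j x b, ∀ y ∈ D.A J x b, D.tau J j y b = D.tau J j x b := fun j x b y hy => by
    rw [Dat.tau, Dat.A_eq hy]; rfl
  have h := hLG p q m D J (fun y b => ∑ j ∈ Jᶜ, D.tau J j y b * eps (b j) (D.c y j))
    (fun x b => (m - #J) * Real.log q + ∑ j ∈ Jᶜ, 1 / 2 * D.tau J j x b ^ 2) fun x b _ => by
      have h1 := sum_prod_le (D.A J x b) D.c D.cinj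
        (fun l => if l ∈ J then {D.c x l} else univ.filter (ed q (b l)))
        (fun y hy l => by
          split_ifs with hl
          · exact mem_singleton.2 ((Dat.mem_A.1 hy).2 l hl)
          · simpa using (Dat.mem_A.1 hy).1 l)
        (fun l w => if l ∈ J then 1 else Real.exp (D.tau J l x b * eps (b l) w))
        (fun l w => by split_ifs <;> positivity)
      refine le_trans (le_of_eq (sum_congr rfl fun y hy => ?_)) (h1.trans ?_)
      · rw [Real.exp_sum, ← prod_mul_prod_compl J, prod_congr rfl (fun l hl => if_pos hl),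
          prod_const_one, one_mul]
        exact prod_congr rfl fun l hl => by rw [if_neg (mem_compl.1 hl), ht l x b y hy]
      · rw [← prod_mul_prod_compl J, prod_eq_one (fun l hl => by simp [hl]), one_mul, ← hc,
          Real.exp_add, Real.exp_nat_mul, Real.exp_log q0, Real.exp_sum, ← prod_const,
          ← prod_mul_distrib]
        refine prod_le_prod (fun l _ => sum_nonneg fun w _ => by split_ifs <;> positivity)
          fun l hl => ?_
        simp only [if_neg (mem_compl.1 hl)]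
        refine (arc_ut D.par _ _).trans (le_of_eq ?_)
        rw [one_div_mul_eq_div]
  rw [Dat.E_add, Dat.E_const, Dat.E_sum, Dat.E_sum] at h
  have h3 : ∀ j, D.E (fun y b => D.tau J j y b * eps (b j) (D.c y j)) =
      D.E fun x b => D.tau J j x b ^ 2 := fun j => by
    rw [← (hAVG p q m D J).2 (fun y b => eps (b j) (D.c y j)) (D.tau J j)
      fun x b y hy _ => ht j x b y hy]
    exact Dat.E_congr fun x b _ => by rw [← Dat.tau]; ring
  simp only [h3, Dat.E_mul, ← mul_sum] at h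
  linarith [((hLJ p q m D).2 J).1]

end

section
open Finset
open scoped Classical

theorem cube_au (hCO : S_CO) {m q : ℕ} (hq : 0 < q) (U : Finset (Fin m))
    (f g : (Fin m → Fin q) → ℝ) :
    cE f ^ 2 + ∑ j ∈ U, cW j f ≤
      q ^ 2 * cE (fun β => (-2 * (cE f + ∑ j ∈ U, cF j f (β j)) / q ^ 2) * g β -
        (-2 * (cE f + ∑ j ∈ U, cF j f (β j)) / q ^ 2) ^ 2 * q ^ 2 / 8) +
      2 * cE (fun β => (f β + g β) ^ 2) := by
  obtain ⟨h1, h2⟩ := hCO m q hq U f
  have q0 : (0 : ℝ) < q := by exact_mod_cast hq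
  generalize cE f ^ 2 + ∑ j ∈ U, cW j f = W at h1 h2 ⊢
  generalize hl : (fun β : Fin m → Fin q => cE f + ∑ j ∈ U, cF j f (β j)) = l
  have hl' : ∀ β, cE f + ∑ j ∈ U, cF j f (β j) = l β := fun β => congrFun hl β
  simp only [hl'] at h1 h2 ⊢
  have e : W = 2 * W - W := by ring
  rw [e]
  nth_rewrite 1 [← h2]
  rw [← h1]
  simp only [cE]
  rw [← mul_div_assoc, ← mul_div_assoc, ← mul_div_assoc, ← sub_div, ← add_div]
  refine div_le_div_of_nonneg_right ?_ (by positivity)
  rw [mul_sum, mul_sum, mul_sum, ← sum_sub_distrib, ← sum_add_distrib]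
  refine sum_le_sum fun β _ => ?_
  have : (q : ℝ) ^ 2 * (-2 * l β / q ^ 2 * g β - (-2 * l β / q ^ 2) ^ 2 * q ^ 2 / 8) =
      -2 * l β * g β - l β ^ 2 / 2 := by
    field_simp
    ring
  rw [this]
  nlinarith [sq_nonneg (l β - 2 * (f β + g β))]

theorem p_AU (hU2 : S_U2) (hCO : S_CO) (hPSI : S_PSI) :
    S_AU := by
  intro p q m _ D κ J z hz
  have h1 := hU2 p q m D (D.U κ J) (fun i x β => -2 * (cE (fun β => D.psi J i x (D.bx x β)) +
    ∑ j ∈ D.U κ J x, cF j (fun β => D.psi J i x (D.bx x β)) (β j)) / q ^ 2) z hz (by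
      intro i x β β' h
      rw [sum_congr rfl fun j hj => by rw [h j hj]])
  have h3 := (hPSI p q m D J).2.2
  refine le_trans ?_ (add_le_add (mul_le_mul_of_nonneg_left h1 (by positivity))
    (mul_le_mul_of_nonneg_left h3 (by norm_num)))
  rw [Dat.Aw, mul_sum, mul_sum, ← sum_add_distrib]
  refine sum_le_sum fun i _ => ?_
  simp only [Dat.E, Dat.xE]
  rw [← mul_div_assoc, ← mul_div_assoc, ← add_div]
  refine div_le_div_of_nonneg_right ?_ (by positivity)
  rw [mul_sum, mul_sum, ← sum_add_distrib]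
  exact sum_le_sum fun x _ => cube_au hCO D.par.q0 _ _ _

end

section
open Finset
open scoped Classical

theorem sum_range_lift {p : ℕ} [NeZero p] (f : ZMod p → ℤ) :
    ∑ k ∈ range p, f (k : ZMod p) = ∑ r, f r :=
  sum_nbij' (fun k => (k : ZMod p)) (fun r => r.val) (fun _ _ => mem_univ _)
    (fun r _ => mem_range.2 (ZMod.val_lt r)) (fun k h => ZMod.val_cast_of_lt (mem_range.1 h))
    (fun r _ => by simp) fun _ _ => rfl

theorem prim_lift {p : ℕ} [NeZero p] (f : ZMod p → ℤ) (h : ∑ r, f r = 0) :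
    ∃ g : ZMod p → ℤ, ∀ r, g (r + 1) = g r + f r := by
  refine ⟨fun r => ∑ k ∈ range r.val, f (k : ZMod p), fun r => ?_⟩
  have e : ∑ k ∈ range (r.val + 1), f (k : ZMod p) = ∑ k ∈ range r.val, f (k : ZMod p) + f r := by
    rw [sum_range_succ]; simp
  have e1 : r + 1 = ((r.val + 1 : ℕ) : ZMod p) := by simp
  show ∑ k ∈ range (r + 1).val, f (k : ZMod p) = _
  rw [← e]
  rcases (Nat.succ_le_of_lt (ZMod.val_lt r)).lt_or_eq with l | l
  · rw [e1, ZMod.val_cast_of_lt l]
  · have l' : r.val + 1 = p := l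
    rw [e1, l', sum_range_lift, h]; simp

theorem p_LIFT :
    S_LIFT := by
  intro p q _ P C Y cl v _ ha
  choose x hx using ha
  have hd : ∀ r y, y ∈ bo q Y cl r → y ∈ bo q Y cl (r + 1) →
      (pos (x r) (v y) : ℤ) = pos (x (r + 1)) (v y) + lf (x r) (x (r + 1)) := by
    intro r y h h'
    have a := add_pos' (x r) (v y)
    have a' := add_pos' (x (r + 1)) (v y)
    have b := hx r y h
    have b' := hx (r + 1) y h'
    rw [P.lf_eq (z := (pos (x r) (v y) : ℤ) - pos (x (r + 1)) (v y))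
      (by push_cast; linear_combination a' - a) (by unfold ed at b b'; rw [abs_le]; omega)]
    ring
  have hs : ((∑ r, lf (x r) (x (r + 1)) : ℤ) : ZMod p) = 0 := by
    rw [Int.cast_sum, sum_congr rfl (g := fun r => x (r + 1) - x r) fun r _ => by
      rw [eq_sub_iff_add_eq', add_lf], sum_sub_distrib, sub_eq_zero]
    exact Equiv.sum_comp (Equiv.addRight (1 : ZMod p)) x
  obtain ⟨w, hw⟩ := (ZMod.intCast_zmod_eq_zero_iff_dvd _ p).1 hs
  obtain ⟨g, hg⟩ := prim_lift (fun r => lf (x r) (x (r + 1)) - w) (by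
    rw [sum_sub_distrib, hw]; simp [ZMod.card])
  have key : ∀ t : ℕ, t < q → ∀ r, ∀ y ∈ Y, cl y = r + t →
      (pos (x r) (v y) : ℤ) = g (cl y) + pos (x (cl y)) (v y) - g r + w * t := by
    intro t
    induction t with
    | zero => intro _ r y _ e; rw [show cl y = r by simpa using e]; simp
    | succ t ih =>
      intro ht r y hy e
      have e' : cl y = r + 1 + t := by rw [e]; push_cast; ring
      rw [hd r y (mem_bo.2 ⟨hy, e ▸ P.ed_add r ht⟩)
        (mem_bo.2 ⟨hy, e' ▸ P.ed_add (r + 1) (by omega)⟩), ih (by omega) (r + 1) y hy e', hg r]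
      push_cast; ring
  refine ⟨w, fun y => g (cl y) + pos (x (cl y)) (v y), fun r y hy y' hy' => ?_⟩
  rw [P.lf_ed (hx r y hy) (hx r y' hy'),
    key _ (mem_bo.1 hy).2 r y (mem_bo.1 hy).1 (add_pos' r _).symm,
    key _ (mem_bo.1 hy').2 r y' (mem_bo.1 hy').1 (add_pos' r _).symm]
  ring

end

section
open Finset
open scoped Classical

section
variable {p q : ℕ} [NeZero p] {C : Type} {Y : Finset C} {cl v : C → ZMod p} {w : ℤ} {u : C → ℤ}

theorem dl_ga (ha : ∀ r, arc q v (bo q Y cl r))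
    (hl : ∀ r, ∀ y ∈ bo q Y cl r, ∀ y' ∈ bo q Y cl r,
      lf (v y) (v y') = u y' - u y + w * ((pos r (cl y') : ℤ) - pos r (cl y)))
    {r : ZMod p} {y : C} (hy : y ∈ bo q Y cl r) :
    dl q Y cl v y r = mn (bo q Y cl r) (fun z => u z) - mn (ce Y cl (cl y)) (fun z => u z) +
      w * (mn (bo q Y cl r) (fun z => pos r (cl z)) - pos r (cl y)) := by
  have hs : ce Y cl (cl y) ⊆ bo q Y cl r := ce_sub (mem_bo.1 hy).2
  have e1 : mn (bo q Y cl r) (fun z => (lf (v y) (v z) : ℝ)) =
      mn (bo q Y cl r) fun z => (u z : ℝ) - u y + w * ((pos r (cl z) : ℝ) - pos r (cl y)) :=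
    mn_congr fun z hz => by rw [hl r y hy z hz]; push_cast; rfl
  have e2 : mn (ce Y cl (cl y)) (fun z => (lf (v y) (v z) : ℝ)) =
      mn (ce Y cl (cl y)) fun z => (u z : ℝ) - u y :=
    mn_congr fun z hz => by rw [hl r y hy z (hs hz), (mem_ce.1 hz).2]; push_cast; ring
  have n1 : (bo q Y cl r).Nonempty := ⟨y, hy⟩
  have n2 : (ce Y cl (cl y)).Nonempty := ⟨y, mem_ce.2 ⟨(mem_bo.1 hy).1, rfl⟩⟩
  rw [dl, ps, ps, if_pos (ha r), if_pos ((ha r).mono hs), e1, e2, mn_add, mn_sub, mn_sub, mn_mul,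
    mn_sub, mn_const n1, mn_const n1, mn_const n2]
  ring

theorem gm_ga (P : Par p q) (ha : ∀ r, arc q v (bo q Y cl r))
    (hl : ∀ r, ∀ y ∈ bo q Y cl r, ∀ y' ∈ bo q Y cl r,
      lf (v y) (v y') = u y' - u y + w * ((pos r (cl y') : ℤ) - pos r (cl y)))
    {r : ZMod p} {y : C} (hy : y ∈ ce Y cl r) :
    gm q Y cl v y = (∑ t : Fin q, mn (bo q Y cl (r - (t : ℕ))) fun z => u z) / q -
      mn (ce Y cl r) (fun z => u z) +
      w * ((∑ t : Fin q, (mn (bo q Y cl (r - (t : ℕ)))
        (fun y => pos (r - ((t : ℕ) : ZMod p)) (cl y)) - (t : ℕ))) / q) := by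
  obtain ⟨h1, rfl⟩ := mem_ce.1 hy
  have q0 := P.q0'
  rw [gm, sum_congr rfl fun (t : Fin q) _ => dl_ga ha hl (mem_bo.2 ⟨h1, P.ed_sub _ t.2⟩),
    sum_add_distrib, sum_sub_distrib, ← mul_sum]
  simp only [fun t : Fin q => pos_sub (cl y) (t.2.trans P.qp), sum_const, card_univ,
    Fintype.card_fin, nsmul_eq_mul]
  field_simp

end

theorem p_GA (hLIFT : S_LIFT) (hW1 : S_W1) (hHARM : S_HARM) (hTB : S_TB) (hDEC : S_DEC) :
    S_GA := by
  intro p q _ P
  have q0 := P.q0'
  have q2 : (2 : ℝ) ≤ q := by exact_mod_cast P.q2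
  have p1 : (1 : ℝ) ≤ p := by exact_mod_cast NeZero.pos p
  obtain ⟨H, hH⟩ : ∃ H : ℝ, H = p * (2 * q ^ 2) ^ p := ⟨_, rfl⟩
  have H1 : 1 ≤ H := hH ▸ one_le_mul_of_one_le_of_one_le p1 (one_le_pow₀ (by nlinarith))
  have k1 : 1 / (2 * q * H) ≤ 1 := by
    rw [div_le_one (by positivity)]; nlinarith
  refine ⟨1 / (2 * q * H), by positivity, k1, 32 * p * q ^ 2 * H ^ 2, by positivity,
    fun C Y cl v hb hne hc hn ha r x hx => ?_⟩
  obtain ⟨w, u, hl⟩ := hLIFT p q P C Y cl v hne ha
  have b1 : bal Y cl 1 := fun a b => (hb a b).trans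
    (mul_le_mul_of_nonneg_right (by linarith) (by positivity))
  let T : ZMod p → ℝ := fun r => (∑ t : Fin q, (mn (bo q Y cl (r - (t : ℕ)))
    (fun y => pos (r - ((t : ℕ) : ZMod p)) (cl y)) - (t : ℕ))) / q
  let S : ZMod p → ℝ := fun r => mn (ce Y cl r) (fun z => u z) -
    (∑ t : Fin q, mn (bo q Y cl (r - (t : ℕ))) fun z => u z) / q
  obtain ⟨r0, h0⟩ := Finite.exists_max fun r => |w * T r - S r|
  obtain ⟨g, hg⟩ : ∃ g, g = |w * T r0 - S r0| := ⟨_, rfl⟩
  have g0 : 0 ≤ g := hg ▸ abs_nonneg _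
  have hS : ∀ r, S r ≤ g + w * T r := fun r => by
    have := (abs_le.1 ((h0 r).trans hg.ge)).1
    linarith
  have hY : (0 : ℝ) < #Y := by exact_mod_cast card_pos.2 ⟨x, (mem_bo.1 hx).1⟩
  have g2 : g ^ 2 ≤ 2 * p * mn Y fun y => gm q Y cl v y ^ 2 := by
    have e1 : #(ce Y cl r0) * g ^ 2 ≤ ∑ y ∈ Y, gm q Y cl v y ^ 2 := by
      refine le_trans (le_of_eq ?_)
        (sum_le_sum_of_subset_of_nonneg (filter_subset (fun y => cl y = r0) Y)
          fun _ _ _ => sq_nonneg _)
      rw [← nsmul_eq_mul, ← sum_const]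
      refine sum_congr rfl fun y hy => ?_
      rw [gm_ga P ha hl hy, hg, sq_abs]
      simp only [S, T]
      ring
    have e2 := (hDEC p q P C Y cl fun _ => 0).2.2.2 b1 r0
    rw [mn, ← mul_div_assoc, le_div_iff₀ hY]
    nlinarith [mul_le_mul_of_nonneg_left e2 (sq_nonneg g),
      mul_le_mul_of_nonneg_left e1 (show (0 : ℝ) ≤ 2 * p by positivity)]
  have key : |dl q Y cl v x r| ≤ 4 * q * H * g := by
    by_cases hw : w = 0
    · have := (hHARM p q P C Y cl (fun z => u z) g g0 hne b1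
        (fun r => (hS r).trans (by simp [hw])) r (cl x)).2
      rw [dl_ga ha hl hx, hw, Int.cast_zero, zero_mul, add_zero]
      refine this.trans ?_
      rw [← hH]
      nlinarith [mul_nonneg (zero_le_one.trans H1) g0]
    · obtain ⟨w1, a, b, hab⟩ := hW1 p q P C Y cl v w u hne hc hn hl hw
      have w2 : |(w : ℝ)| = 1 := by exact_mod_cast w1
      have := (hHARM p q P C Y cl (fun z => u z) (g + 1 / (2 * q * H) * q) (by positivity) hne b1
        (fun r => (hS r).trans (by
          have e := hTB p q P C Y cl _ (by positivity) hne hb r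
          have e' := le_abs_self (w * T r)
          rw [abs_mul, w2, one_mul] at e'
          exact add_le_add le_rfl (e'.trans e))) a b).1
      rw [← hH, show H * (g + 1 / (2 * q * H) * q) = H * g + 1 / 2 by field_simp] at this
      have e1 := abs_ps_le (v := v) P hx
      have e2 := abs_ps_le (v := v) P (mem_ce.2 ⟨(mem_bo.1 hx).1, rfl⟩ : x ∈ ce Y cl (cl x))
      refine (abs_sub _ _).trans ?_
      nlinarith
  calc dl q Y cl v x r ^ 2 ≤ (4 * q * H * g) ^ 2 := by
        rw [← sq_abs]; exact pow_le_pow_left₀ (abs_nonneg _) key 2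
    _ = 16 * q ^ 2 * H ^ 2 * g ^ 2 := by ring
    _ ≤ 16 * q ^ 2 * H ^ 2 * (2 * p * mn Y fun y => gm q Y cl v y ^ 2) :=
        mul_le_mul_of_nonneg_left g2 (by positivity)
    _ = _ := by ring

end

section
open Finset
open scoped Classical

theorem p_GOOD (hG0 : S_G0) (hBOX : S_BOX) :
    S_GOOD := by
  intro p q _ P
  obtain ⟨κ, k0, k1, K, K0, h⟩ := hG0 p q P
  refine ⟨κ, k0, k1, K, K0, fun m D J i j x b hj hx hg => ?_⟩
  have B := hBOX p q m D J j x b hj hx
  have off : ∀ y ∈ D.Cy J j x b, ∀ y' ∈ D.Cy J j x b, ∀ l, l ≠ j → cf q (D.c y l) (D.c y' l) :=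
    fun y hy y' hy' l hl => P.cf_ed ((Dat.mem_Cy.1 hy).2 l hl) ((Dat.mem_Cy.1 hy').2 l hl)
  have h1 : clq q (D.Cy J j x b) (fun z => D.c z j) fun z => D.s z i := fun r y hy y' hy' =>
    D.lip y y' (fun l => by
      by_cases e : l = j
      · subst e
        exact P.cf_ed (mem_bo.1 hy).2 (mem_bo.1 hy').2
      · exact off y (mem_bo.1 hy).1 y' (mem_bo.1 hy').1 l e) i
  have h2 : nwd q (D.Cy J j x b) (fun z => D.c z j) fun z => D.s z i := fun y hy => by
    obtain ⟨t, ht⟩ := D.nw j y (fun t => (mem_ce.1 (hy t)).2) fun l hl t t' =>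
      off _ (mem_ce.1 (hy t)).1 _ (mem_ce.1 (hy t')).1 l hl
    exact ⟨t, ht i⟩
  have h3 : ∀ y ∈ D.Cy J j x b, ∀ r, ed q r (D.c y j) → D.del J i j y (Function.update b j r) =
      dl q (D.Cy J j x b) (fun z => D.c z j) (fun z => D.s z i) y r := fun y hy r hr => by
    rw [Dat.del, Dat.psi, Dat.psi, (B y hy r).1, (B y hy r).2 hr, dl]
  have h4 := h D.X _ _ _ (hg.resolve_left hj) h1 h2 (b j) x
    (mem_bo.2 ⟨Dat.self_mem_Cy J j hx, hx j⟩)
  rw [← h3 x (Dat.self_mem_Cy J j hx) _ (hx j), Function.update_eq_self] at h4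
  refine h4.trans_eq (congrArg _ (mn_congr fun y hy => ?_))
  congr 1
  · rw [gm, Dat.mt]
    congr 2
    exact sum_congr rfl fun t _ => (h3 y hy _ (P.ed_sub _ t.2)).symm
  · rw [nm, Dat.mt]
    congr 1
    refine sum_congr rfl fun t _ => ?_
    rw [Dat.nn, Dat.ar, Dat.ar, Dat.rs, (B y hy _).1, (B y hy _).2 (P.ed_sub _ t.2)]

end

section
open Finset
open scoped Classical

theorem p_FIN (hPSI : S_PSI) (hEN : S_EN) (hCUB : S_CUB) :
    S_FIN := by
  intro p q m _ D κ K ζ J K0 h1 h2 h3 h4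
  have s0 : 0 ≤ D.MM J := sum_nonneg fun i _ => Dat.E_nonneg fun _ _ _ => sq_nonneg _
  have a3 := (hPSI p q m D J).1
  obtain ⟨a5, a6, a7, -⟩ := hEN p q m D J κ
  obtain ⟨a9, a10⟩ := hCUB p q m D κ J
  have b1 : D.G J + D.Dn J ≤ 3 * ζ := by linarith
  have b2 := h1.trans (mul_le_mul_of_nonneg_left b1 K0)
  linarith

end

section
open Finset
open scoped Classical

/-- sums over arcs as a linear map -/
noncomputable def T_pd0 (p q : ℕ) [NeZero p] : (ZMod p → ℝ) →ₗ[ℝ] (ZMod p → ℝ) where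
  toFun f b := ∑ x ∈ univ.filter (ed q b), f x
  map_add' f g := by ext b; simp [sum_add_distrib]
  map_smul' c f := by ext b; simp [mul_sum]

theorem inj_pd0 {p q : ℕ} [NeZero p] (P : Par p q) : LinearMap.ker (T_pd0 p q) = ⊥ := by
  rw [LinearMap.ker_eq_bot']
  intro f hf
  have h0 : ∀ b : ZMod p, ∑ t ∈ range q, f (b + t) = 0 := fun b => by
    rw [← P.sum_arc b f]; exact congrFun hf b
  have h1 : ∀ b : ZMod p, f (b + q) = f b := fun b => by
    have a := sum_range_succ (fun t : ℕ => f (b + t)) q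
    have a' := sum_range_succ' (fun t : ℕ => f (b + t)) q
    have e : ∑ t ∈ range q, f (b + (t + 1 : ℕ)) = ∑ t ∈ range q, f (b + 1 + t) :=
      sum_congr rfl fun t _ => by congr 1; push_cast; ring
    rw [e, h0] at a'
    rw [h0] at a
    simp only [Nat.cast_zero, add_zero] at a'
    linarith
  have h2 : ∀ (k : ℕ) (b : ZMod p), f (b + k * q) = f b := fun k => by
    induction k with
    | zero => simp
    | succ k ih =>
      intro b
      rw [show b + ((k + 1 : ℕ) : ZMod p) * q = b + k * q + q by push_cast; ring, h1, ih]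
  have hu : IsUnit ((q : ℕ) : ZMod p) := (ZMod.isUnit_iff_coprime q p).2 P.co.symm
  obtain ⟨w, hw⟩ := hu.exists_left_inv
  have h3 : ∀ x : ZMod p, f x = f 0 := fun x => by
    have := h2 (x * w).val 0
    rwa [ZMod.natCast_zmod_val, zero_add, mul_assoc, hw, mul_one] at this
  have h4 := h0 0
  rw [sum_congr rfl fun t _ => h3 _, sum_const, card_range, nsmul_eq_mul] at h4
  ext x
  rw [h3, Pi.zero_apply]
  exact (mul_eq_zero.1 h4).resolve_left P.q0'.ne'

theorem p_PD0 (hK0 : S_K0) :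
    S_PD0 := by
  intro p q _ P
  obtain ⟨K, -, hK⟩ := (T_pd0 p q).exists_antilipschitzWith (inj_pd0 P)
  have q0 := P.q0'
  have p0 : (0 : ℝ) < p := by exact_mod_cast NeZero.pos p
  refine ⟨1 / (q * p * ((K : ℝ) ^ 2 + 1)), by positivity, fun f => ?_⟩
  have e : (q : ℝ) * ∑ x, ∑ y, f x * f y * k0 q x y = ∑ b, (T_pd0 p q f b) ^ 2 := by
    have a : ∀ b, (T_pd0 p q f b) ^ 2 =
        ∑ x, ∑ y, if ed q b x ∧ ed q b y then f x * f y else 0 := fun b => by
      show (∑ x ∈ univ.filter (ed q b), f x) ^ 2 = _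
      rw [sq, sum_mul_sum, sum_filter]
      refine sum_congr rfl fun x _ => ?_
      rw [sum_filter]
      by_cases h : ed q b x <;> simp [h]
    simp only [a]
    rw [mul_sum, eq_comm, sum_comm]
    refine sum_congr rfl fun x _ => ?_
    rw [mul_sum, sum_comm]
    refine sum_congr rfl fun y _ => ?_
    rw [← sum_filter, sum_const, nsmul_eq_mul, (hK0 p q P).1]; ring
  set S := ∑ b, (T_pd0 p q f b) ^ 2 with hS
  have S0 : 0 ≤ S := sum_nonneg fun _ _ => sq_nonneg _
  have n1 : ‖T_pd0 p q f‖ ≤ √S := (pi_norm_le_iff_of_nonneg (Real.sqrt_nonneg _)).2 fun b => by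
    rw [Real.norm_eq_abs]
    exact Real.abs_le_sqrt (single_le_sum (f := fun b => (T_pd0 p q f b) ^ 2)
      (fun _ _ => sq_nonneg _) (mem_univ b))
  have n2 : ‖f‖ ≤ K * ‖T_pd0 p q f‖ := by
    simpa using hK.le_mul_dist f 0
  have n3 : ∀ x, f x ^ 2 ≤ (K : ℝ) ^ 2 * S := fun x => by
    have a : |f x| ≤ K * √S := (norm_le_pi_norm f x).trans
      (n2.trans (mul_le_mul_of_nonneg_left n1 K.coe_nonneg))
    have := pow_le_pow_left₀ (abs_nonneg _) a 2
    rwa [sq_abs, mul_pow, Real.sq_sqrt S0] at this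
  have n4 : ∑ x, f x ^ 2 ≤ p * ((K : ℝ) ^ 2 * S) := by
    refine (sum_le_sum fun x _ => n3 x).trans ?_
    simp [ZMod.card]
  rw [one_div, inv_mul_le_iff₀ (by positivity)]
  have : (q : ℝ) * p * ((K : ℝ) ^ 2 + 1) * ∑ x, ∑ y, f x * f y * k0 q x y =
      p * ((K : ℝ) ^ 2 + 1) * S := by rw [← e]; ring
  rw [this]
  nlinarith [mul_nonneg p0.le S0]

end

section
open Finset
open scoped Classical

theorem pw_kps {Q s a : ℝ} (hQ : 0 < Q) (hs : 0 < s) (hs1 : s < 1) (h1 : a ≤ 1)
    (ha : a = 0 ∨ 1 / Q ≤ a) : |a ^ (1 - s) - a| ≤ s * Q := by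
  rcases ha with rfl | ha
  · rw [Real.zero_rpow (by linarith), sub_zero, abs_zero]; positivity
  have a0 : 0 < a := lt_of_lt_of_le (by positivity) ha
  have e : a = a ^ (1 - s) * a ^ s := by
    rw [← Real.rpow_add a0, sub_add_cancel, Real.rpow_one]
  have b1 : a ^ (1 - s) ≤ 1 := Real.rpow_le_one a0.le h1 (by linarith)
  have b0 : 0 ≤ a ^ (1 - s) := Real.rpow_nonneg a0.le _
  have c1 : a ^ s ≤ 1 := Real.rpow_le_one a0.le h1 hs.le
  have c2 : 1 + Real.log a * s ≤ a ^ s := by
    rw [Real.rpow_def_of_pos a0]; linarith [Real.add_one_le_exp (Real.log a * s)]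
  have c3 : -Q ≤ Real.log a := by
    have l1 := Real.log_le_log (by positivity) ha
    rw [one_div, Real.log_inv] at l1
    linarith [Real.log_le_sub_one_of_pos hQ]
  have c4 : 1 - a ^ s ≤ s * Q := by nlinarith
  have e2 : a ^ (1 - s) - a = a ^ (1 - s) * (1 - a ^ s) := by
    rw [mul_sub, mul_one, ← e]
  rw [e2, abs_of_nonneg (mul_nonneg b0 (by linarith))]
  nlinarith

theorem qs_kps {Q s : ℝ} (hQ : 2 ≤ Q) (hs : 0 < s) (h : s ≤ 1 / Q ^ 2) :
    Q ^ s * (Q - 1) ^ 2 ≤ Q ^ 2 := by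
  have Q0 : 0 < Q := by linarith
  have l1 : Real.log Q * s ≤ 1 / Q := by
    have l2 : Real.log Q ≤ Q := by linarith [Real.log_le_sub_one_of_pos Q0]
    calc Real.log Q * s ≤ Q * s := mul_le_mul_of_nonneg_right l2 hs.le
      _ ≤ Q * (1 / Q ^ 2) := mul_le_mul_of_nonneg_left h Q0.le
      _ = 1 / Q := by field_simp
  have l3 : Q ^ s ≤ Real.exp (1 / Q) := by
    rw [Real.rpow_def_of_pos Q0]; exact Real.exp_le_exp.2 l1
  have l4 : Real.exp (1 / Q) * (1 - 1 / Q) ≤ 1 := by
    have l5 := Real.add_one_le_exp (-(1 / Q))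
    have l6 : Real.exp (1 / Q) * Real.exp (-(1 / Q)) = 1 := by
      rw [← Real.exp_add, add_neg_cancel, Real.exp_zero]
    have l7 := Real.exp_pos (1 / Q)
    nlinarith
  have l8 : Real.exp (1 / Q) * (Q - 1) ≤ Q := by
    have l9 : Real.exp (1 / Q) * (Q - 1) = Real.exp (1 / Q) * (1 - 1 / Q) * Q := by field_simp
    rw [l9]; nlinarith
  have l10 : Q ^ s * (Q - 1) ≤ Q := le_trans (mul_le_mul_of_nonneg_right l3 (by linarith)) l8
  nlinarith

theorem p_KPS (hPD0 : S_PD0) (hK0 : S_K0) :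
    S_KPS := by
  intro p q _ P
  obtain ⟨c, hc, hpd⟩ := hPD0 p q P
  obtain ⟨-, hk, -, hrow, -⟩ := hK0 p q P
  have p0 : (0 : ℝ) < p := by exact_mod_cast NeZero.pos p
  have q0 := P.q0'
  have q2 : (2 : ℝ) ≤ q := by exact_mod_cast P.q2
  obtain ⟨s, hs, hs1, hs2, hs3⟩ : ∃ s : ℝ, 0 < s ∧ s < 1 ∧ s ≤ c / (p * q) ∧ s ≤ 1 / q ^ 2 :=
    ⟨min (1 / 2) (min (c / (p * q)) (1 / q ^ 2)), by positivity,
      lt_of_le_of_lt (min_le_left _ _) (by norm_num),
      (min_le_right _ _).trans (min_le_left _ _), (min_le_right _ _).trans (min_le_right _ _)⟩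
  have hs4 : s * q * p ≤ c := by
    rw [le_div_iff₀ (by positivity)] at hs2; linarith
  refine ⟨1 - s, by linarith, by linarith, by rw [sub_sub_cancel]; exact qs_kps q2 hs hs3,
    fun f => ?_⟩
  have psd : ∀ g : ZMod p → ℝ, 0 ≤ ∑ x, ∑ y, g x * g y * k0 q x y ^ (1 - s) := by
    intro g
    have h1 : ∀ x y : ZMod p, g x * g y * k0 q x y - s * q / 2 * (g x ^ 2 + g y ^ 2) ≤
        g x * g y * k0 q x y ^ (1 - s) := by
      intro x y
      obtain ⟨-, k1, -, k2, k3⟩ := hk x y
      have h2 := pw_kps q0 hs hs1 k1 ((em (cf q x y)).symm.imp k3 k2)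
      obtain ⟨h3, h4⟩ := abs_le.1 h2
      generalize k0 q x y ^ (1 - s) = u at *
      generalize k0 q x y = v at *
      nlinarith [mul_nonneg (sub_nonneg.2 h3) (sq_nonneg (g x + g y)),
        mul_nonneg (sub_nonneg.2 h4) (sq_nonneg (g x - g y))]
    have h5 := sum_le_sum fun x (_ : x ∈ univ) => sum_le_sum fun y (_ : y ∈ univ) => h1 x y
    simp only [sum_sub_distrib, ← mul_sum, sum_add_distrib, sum_const, card_univ, ZMod.card,
      nsmul_eq_mul] at h5
    have h6 := hpd g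
    have h7 : 0 ≤ ∑ x, g x ^ 2 := sum_nonneg fun x _ => sq_nonneg _
    nlinarith
  have hcol : ∀ y : ZMod p, ∑ x, k0 q x y ^ (1 - s) = ks p q (1 - s) := fun y => by
    rw [← hrow y]; exact sum_congr rfl fun x _ => by rw [(hk x y).2.2.1]
  have h8 := psd fun x => f x - (∑ z, f z) / p
  set μ := (∑ z, f z) / p with hμ
  have e1 : ∑ x, ∑ y, (f x - μ) * (f y - μ) * k0 q x y ^ (1 - s) =
      ∑ x, ∑ y, f x * f y * k0 q x y ^ (1 - s) - μ * ∑ x, ∑ y, f x * k0 q x y ^ (1 - s) -
        μ * ∑ x, ∑ y, f y * k0 q x y ^ (1 - s) +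
        μ ^ 2 * ∑ x : ZMod p, ∑ y, k0 q x y ^ (1 - s) := by
    simp only [mul_sum, ← sum_sub_distrib, ← sum_add_distrib]
    exact sum_congr rfl fun x _ => sum_congr rfl fun y _ => by ring
  have e2 : ∑ x, ∑ y, f x * k0 q x y ^ (1 - s) = (∑ z, f z) * ks p q (1 - s) := by
    simp only [← mul_sum, hrow, sum_mul]
  have e3 : ∑ x, ∑ y, f y * k0 q x y ^ (1 - s) = (∑ z, f z) * ks p q (1 - s) := by
    rw [sum_comm]; simp only [← mul_sum, hcol, sum_mul]
  have e4 : ∑ x : ZMod p, ∑ y, k0 q x y ^ (1 - s) = p * ks p q (1 - s) := by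
    simp only [hrow, sum_const, card_univ, ZMod.card, nsmul_eq_mul]
  rw [e1, e2, e3, e4] at h8
  have e5 : ks p q (1 - s) / p * (∑ x, f x) ^ 2 =
      μ * ((∑ z, f z) * ks p q (1 - s)) + μ * ((∑ z, f z) * ks p q (1 - s)) -
        μ ^ 2 * (p * ks p q (1 - s)) := by
    rw [hμ]; field_simp; ring
  linarith

end

section
open Finset
open scoped Classical

theorem count_nb {p q m : ℕ} [NeZero p]
    (h : ∀ x y : ZMod p, (#(univ.filter fun b => ed q b x ∧ ed q b y) : ℝ) = q * k0 q x y)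
    (u v : Fin m → ZMod p) :
    (q : ℝ) ^ m * ∏ l, k0 q (u l) (v l) = ∑ b : Fin m → ZMod p,
      if (∀ l, ed q (b l) (u l)) ∧ ∀ l, ed q (b l) (v l) then (1 : ℝ) else 0 := by
  have e : (univ.filter fun b : Fin m → ZMod p =>
      (∀ l, ed q (b l) (u l)) ∧ ∀ l, ed q (b l) (v l)) =
      Fintype.piFinset fun l => univ.filter fun t => ed q t (u l) ∧ ed q t (v l) := by
    ext β
    simp [Fintype.mem_piFinset, forall_and]
  rw [sum_boole, e, Fintype.card_piFinset, Nat.cast_prod, prod_congr rfl fun l _ => h (u l) (v l),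
    prod_mul_distrib, prod_const, card_univ, Fintype.card_fin]

theorem box_nb {p q m : ℕ} [NeZero p] (P : Pre p q m) (t : ℝ)
    (h0 : ∀ x y : ZMod p, 0 ≤ k0 q x y)
    (h : ∀ Q : Finset (ZMod p), (∀ x ∈ Q, ∀ y ∈ Q, cf q x y) →
      ∑ x ∈ Q, ∑ y ∈ Q, k0 q x y ^ (t - 1) ≤ q * ks p q t) (b : Fin m → ZMod p) :
    ∑ x, ∑ y, (if (∀ l, ed q (b l) (P.c x l)) ∧ ∀ l, ed q (b l) (P.c y l) then (1 : ℝ) else 0) *
      ∏ i, k0 q (P.s x i) (P.s y i) ^ (t - 1) ≤ (q * ks p q t) ^ m := by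
  set B : Finset P.X := univ.filter fun x => ∀ l, ed q (b l) (P.c x l) with hB
  have mB : ∀ x, x ∈ B ↔ ∀ l, ed q (b l) (P.c x l) := fun x => by simp [hB]
  have h1 := sum_prod_le (B ×ˢ B) (fun (z : P.X × P.X) i => (P.s z.1 i, P.s z.2 i))
    (fun z w e => Prod.ext (P.sinj (funext fun i => congrArg Prod.fst (congrFun e i)))
      (P.sinj (funext fun i => congrArg Prod.snd (congrFun e i))))
    (fun i => (B.image fun x => P.s x i) ×ˢ (B.image fun x => P.s x i))
    (fun z hz i => mem_product.2 ⟨mem_image_of_mem _ (mem_product.1 hz).1,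
      mem_image_of_mem _ (mem_product.1 hz).2⟩)
    (fun _ w => k0 q w.1 w.2 ^ (t - 1)) fun _ w => Real.rpow_nonneg (h0 _ _) _
  have h2 : ∏ i : Fin m, ∑ w ∈ (B.image fun x => P.s x i) ×ˢ (B.image fun x => P.s x i),
      k0 q w.1 w.2 ^ (t - 1) ≤ ∏ _i : Fin m, q * ks p q t := by
    refine prod_le_prod (fun i _ => sum_nonneg fun w _ => Real.rpow_nonneg (h0 _ _) _) fun i _ => ?_
    rw [sum_product' (f := fun x y => k0 q x y ^ (t - 1))]
    refine h _ fun x hx y hy => ?_
    obtain ⟨x', hx', rfl⟩ := mem_image.1 hx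
    obtain ⟨y', hy', rfl⟩ := mem_image.1 hy
    exact P.lip x' y' (fun l => P.par.cf_ed ((mB _).1 hx' l) ((mB _).1 hy' l)) i
  rw [prod_const, card_univ, Fintype.card_fin] at h2
  refine le_trans (le_of_eq ?_) (h1.trans h2)
  rw [sum_product' (f := fun x y => ∏ i, k0 q (P.s x i) (P.s y i) ^ (t - 1)), hB, sum_filter]
  refine sum_congr rfl fun x _ => ?_
  rw [sum_filter]
  split_ifs with hx
  · exact sum_congr rfl fun y _ => by simp [hx]
  · simp [hx]

theorem p_NB (hKB : S_KB) (hK0 : S_K0) :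
    S_NB := by
  intro p q m _ P t ht ht1 hq
  obtain ⟨k1, k2, -⟩ := hK0 p q P.par
  have q0 := P.par.q0'
  have h1 := sum_le_sum fun (b : Fin m → ZMod p) (_ : b ∈ univ) =>
    box_nb P t (fun x y => (k2 x y).1) (hKB p q P.par t ht ht1 hq) b
  rw [sum_const, card_univ, Fintype.card_fun, ZMod.card, Fintype.card_fin, nsmul_eq_mul,
    Nat.cast_pow, sum_comm] at h1
  refine le_of_mul_le_mul_left ?_ (by positivity : (0 : ℝ) < (q : ℝ) ^ m)
  refine le_trans (le_of_eq ?_) (h1.trans (le_of_eq (by rw [mul_pow, mul_pow]; ring)))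
  rw [mul_sum]
  refine sum_congr rfl fun x _ => ?_
  rw [sum_comm, mul_sum]
  refine sum_congr rfl fun y _ => ?_
  rw [← sum_mul, ← mul_assoc, count_nb k1]

end

section
open Finset
open scoped Classical

theorem r2_tha (p q : ℕ) [NeZero p] (hq : 0 < q) (x : ZMod p → ℝ)
    (h : ∀ t, ((⌊p * x t⌋ : ℤ) : ZMod p) = t) : ∃ t, circ p q (x t) (x (t + q)) := by
  have p0 : (0 : ℝ) < p := by exact_mod_cast NeZero.pos p
  have q1 : (1 : ℝ) ≤ q := by exact_mod_cast hq
  obtain ⟨t, ht⟩ := Finite.exists_max fun t => Int.fract (p * x t)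
  obtain ⟨k, hk⟩ := (ZMod.intCast_zmod_eq_zero_iff_dvd (⌊p * x (t + q)⌋ - ⌊p * x t⌋ - q) p).1
    (by rw [Int.cast_sub, Int.cast_sub, h, h]; push_cast; ring)
  refine ⟨t, -k, ?_⟩
  have h1 : ((⌊p * x (t + q)⌋ : ℤ) : ℝ) - (⌊p * x t⌋ : ℤ) - q = p * k := by exact_mod_cast hk
  have a1 := ht (t + q)
  have a2 := Int.fract_lt_one (p * x t)
  have a3 := Int.fract_nonneg (p * x (t + q))
  simp only [Int.fract] at a1 a2 a3
  rw [le_div_iff₀ p0, ← abs_of_pos p0, ← abs_mul, abs_le]
  push_cast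
  constructor <;> nlinarith

theorem p_THA (hPRE : S_PRE) :
    S_THA := by
  intro p q h2 hp hc
  have p0 : 0 < p := by omega
  have : NeZero p := ⟨p0.ne'⟩
  have P : Par p q := ⟨h2, hp, hc⟩
  obtain ⟨c, hc, m₀, h⟩ := hPRE p q P
  refine ⟨c, hc, m₀, fun m hm N n f hf => ?_⟩
  have hf' : ∀ x y : Fin m → ZMod p, n x = n y →
      (∀ l, circ p q (f x l) (f y l)) → ∀ i, cf q (x i) (y i) :=
    fun x y h1 h2 i => P.cf_iff.2 (hf x y h1 h2 i)
  have key : ∀ k : Fin N, (Fintype.card {x // n x = k} : ℝ) * c ^ m ≤ (p : ℝ) ^ m :=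
    fun k => h m hm
      { X := {x // n x = k}
        par := P
        c := fun x l => ((⌊p * f x.1 l⌋ : ℤ) : ZMod p)
        s := Subtype.val
        sinj := Subtype.val_injective
        lip := fun x y hxy => hf' _ _ (x.2.trans y.2.symm) fun l => P.circ_of_cf (hxy l)
        nw := fun j r h1 h2 => by
          obtain ⟨t, ht⟩ := r2_tha p q P.q0 (fun t => f (r t).1 j) h1
          refine ⟨t, hf' _ _ ((r t).2.trans (r (t + q)).2.symm) fun l => ?_⟩
          by_cases e : l = j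
          · subst e; exact ht
          · exact P.circ_of_cf (h2 l e t (t + q)) }
  have e : p ^ m = ∑ k : Fin N, Fintype.card {x // n x = k} := by
    rw [← Fintype.card_sigma, Fintype.card_congr (Equiv.sigmaFiberEquiv n)]
    simp
  have e' : (p : ℝ) ^ m = ∑ k : Fin N, (Fintype.card {x // n x = k} : ℝ) := by
    exact_mod_cast e
  have h3 : (p : ℝ) ^ m * c ^ m ≤ (p : ℝ) ^ m * N := by
    calc (p : ℝ) ^ m * c ^ m = ∑ k : Fin N, (Fintype.card {x // n x = k} : ℝ) * c ^ m := by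
          rw [← sum_mul, ← e']
      _ ≤ ∑ _n : Fin N, (p : ℝ) ^ m := sum_le_sum fun n _ => key n
      _ = (p : ℝ) ^ m * N := by simp [mul_comm]
  exact le_of_mul_le_mul_left h3 (by positivity)

end

end Pool.Agent.P.MP_263185_co.AQ
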