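import Pool.Agent.P.MP_263185_co.AQ.Iface

/-! Proofs of the steps CP, HOE, PAR, LG, NU, BS, EA, EC, PSI, BOX, UU, EN, KB, ST1, ST2. -/

set_option linter.unusedSectionVars false

namespace Pool.Agent.P.MP_263185_co.AQ

section
open Finset
open scoped Classical

section
variable {m q : ℕ}

theorem split_cp (F : (Fin (m + 1) → Fin q) → ℝ) :
    cE F = cE fun β : Fin m → Fin q => (∑ t, F (Fin.cons t β)) / q := by
  have e : ∑ β, F β = ∑ p : Fin q × (Fin m → Fin q), F (Fin.cons p.1 p.2) :=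
    (Equiv.sum_comp (Fin.consEquiv fun _ : Fin (m + 1) => Fin q) F).symm
  rw [cE, cE, e, Fintype.sum_prod_type, sum_comm, ← sum_div, div_div, pow_succ, mul_comm]

theorem swap_cp (G : Fin q → (Fin m → Fin q) → ℝ) :
    cE (fun β => (∑ t, G t β) / q) = (∑ t, cE (G t)) / q := by
  simp only [cE, ← sum_div]
  rw [sum_comm, div_div, div_div, mul_comm]

theorem add_cp (F G : (Fin m → Fin q) → ℝ) :
    cE (fun β => F β + G β) = cE F + cE G := by
  rw [cE, cE, cE, sum_add_distrib, add_div]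

theorem sub_cp (F G : (Fin m → Fin q) → ℝ) :
    cE (fun β => F β - G β) = cE F - cE G := by
  rw [cE, cE, cE, sum_sub_distrib, sub_div]

theorem nonneg_cp (F : (Fin m → Fin q) → ℝ) : 0 ≤ cE fun β => F β ^ 2 :=
  div_nonneg (sum_nonneg fun _ _ => sq_nonneg _) (by positivity)

theorem var_cp (hq : 0 < q) (a : Fin q → ℝ) :
    (∑ t, a t ^ 2) / q = ((∑ t, a t) / q) ^ 2 + (∑ t, (a t - (∑ t, a t) / q) ^ 2) / q := by
  have h : (0 : ℝ) < q := by exact_mod_cast hq
  simp only [sub_sq, sum_add_distrib, sum_sub_distrib, ← sum_mul, ← mul_sum, sum_const, card_univ,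
    Fintype.card_fin, nsmul_eq_mul]
  field_simp
  ring

theorem const_cp (hq : 0 < q) (a : ℝ) : (∑ _t : Fin q, a) / q = a := by
  have h : (0 : ℝ) < q := by exact_mod_cast hq
  simp only [sum_const, card_univ, Fintype.card_fin, nsmul_eq_mul]
  field_simp

/-- the mean over the first coordinate -/
noncomputable def ev_cp (f : (Fin (m + 1) → Fin q) → ℝ) (β : Fin m → Fin q) : ℝ :=
  (∑ t, f (Fin.cons t β)) / q

/-- the deviation from the mean -/
noncomputable def od_cp (f : (Fin (m + 1) → Fin q) → ℝ) (t : Fin q) (β : Fin m → Fin q) : ℝ :=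
  f (Fin.cons t β) - ev_cp f β

variable (f : (Fin (m + 1) → Fin q) → ℝ)

theorem mean_cp : cE f = cE (ev_cp f) := split_cp f

theorem sq_cp (hq : 0 < q) : cE (fun β => f β ^ 2) =
    cE (fun β => ev_cp f β ^ 2) + (∑ t, cE fun β => od_cp f t β ^ 2) / q := by
  rw [split_cp, ← swap_cp, ← add_cp]
  exact congrArg cE (funext fun β => var_cp hq fun t => f (Fin.cons t β))

theorem dzero_cp : cE (fun β => (f β - cM 0 f β) ^ 2) =
    (∑ t, cE fun β => od_cp f t β ^ 2) / q := by
  rw [split_cp, ← swap_cp]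
  refine congrArg cE (funext fun β => ?_)
  simp only [cM, od_cp, ev_cp, Fin.update_cons_zero]

theorem wzero_cp (hq : 0 < q) : cW 0 f = (∑ t, cE (od_cp f t) ^ 2) / q := by
  rw [cW]
  refine congrArg (· / (q : ℝ)) (sum_congr rfl fun t _ => congrArg (· ^ 2) ?_)
  rw [cF, mean_cp f, split_cp, ← sub_cp]
  refine congrArg cE (funext fun β => ?_)
  simp only [od_cp, Fin.update_cons_zero, const_cp hq]

theorem cM_ev_cp (j : Fin m) (β : Fin m → Fin q) :
    cM j (ev_cp f) β = (∑ t, cM j.succ f (Fin.cons t β)) / q := by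
  simp only [cM, ev_cp, ← sum_div, Fin.cons_update]
  rw [sum_comm]

theorem cM_od_cp (j : Fin m) (t : Fin q) (β : Fin m → Fin q) :
    cM j (od_cp f t) β = cM j.succ f (Fin.cons t β) - cM j (ev_cp f) β := by
  simp only [cM, od_cp, sum_sub_distrib, sub_div, Fin.cons_update]

theorem dsucc_cp (hq : 0 < q) (j : Fin m) : cE (fun β => (f β - cM j.succ f β) ^ 2) =
    cE (fun β => (ev_cp f β - cM j (ev_cp f) β) ^ 2) +
      (∑ t, cE fun β => (od_cp f t β - cM j (od_cp f t) β) ^ 2) / q := by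
  rw [split_cp, ← swap_cp, ← add_cp]
  refine congrArg cE (funext fun β => ?_)
  have e : (∑ t, (f (Fin.cons t β) - cM j.succ f (Fin.cons t β))) / q =
      ev_cp f β - cM j (ev_cp f) β := by
    rw [sum_sub_distrib, sub_div, cM_ev_cp, ev_cp]
  rw [var_cp hq fun t => f (Fin.cons t β) - cM j.succ f (Fin.cons t β), e]
  refine congrArg _ (congrArg (· / (q : ℝ)) (sum_congr rfl fun t _ => ?_))
  rw [cM_od_cp, od_cp]
  ring

theorem wsucc_cp (j : Fin m) : cW j.succ f = cW j (ev_cp f) := by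
  rw [cW, cW]
  refine congrArg (· / (q : ℝ)) (sum_congr rfl fun t _ => congrArg (· ^ 2) ?_)
  rw [cF, cF, mean_cp f, split_cp]
  simp only [ev_cp, Fin.cons_update]

end

theorem zero_cp {q : ℕ} (f : (Fin 0 → Fin q) → ℝ) : cE (fun β => f β ^ 2) - cE f ^ 2 = 0 := by
  simp [cE]

theorem poin_cp {q : ℕ} (hq : 0 < q) (m : ℕ) : ∀ f : (Fin m → Fin q) → ℝ,
    cE (fun β => f β ^ 2) - cE f ^ 2 ≤ ∑ j, cE fun β => (f β - cM j f β) ^ 2 := by
  induction m with
  | zero => intro f; rw [zero_cp]; simp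
  | succ m ih =>
    intro f
    rw [Fin.sum_univ_succ, dzero_cp, sq_cp f hq, mean_cp]
    simp only [dsucc_cp f hq, sum_add_distrib]
    have h1 := ih (ev_cp f)
    have h2 : 0 ≤ ∑ j, (∑ t, cE fun β => (od_cp f t β - cM j (od_cp f t) β) ^ 2) / (q : ℝ) :=
      sum_nonneg fun j _ => div_nonneg (sum_nonneg fun t _ => nonneg_cp _) (Nat.cast_nonneg _)
    linarith

theorem p_CP :
    S_CP := by
  intro m q hq
  induction m with
  | zero => intro f; rw [zero_cp]; simp
  | succ m ih =>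
    intro f
    rw [Fin.sum_univ_succ, dzero_cp, wzero_cp f hq, sq_cp f hq, mean_cp]
    simp only [dsucc_cp f hq, wsucc_cp, sum_add_distrib]
    have h1 := ih (ev_cp f)
    have h2 : (∑ t, cE fun β => od_cp f t β ^ 2) / (q : ℝ) - (∑ t, cE (od_cp f t) ^ 2) / q ≤
        ∑ j, (∑ t, cE fun β => (od_cp f t β - cM j (od_cp f t) β) ^ 2) / (q : ℝ) := by
      rw [← sum_div, sum_comm, ← sub_div, ← sum_sub_distrib]
      exact div_le_div_of_nonneg_right (sum_le_sum fun t _ => poin_cp hq m (od_cp f t))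
        (Nat.cast_nonneg _)
    rw [sum_add_distrib] at h1
    linarith

end

section
open Finset
open scoped Classical

theorem one_hoe (q : ℕ) (hq : 2 ≤ q) (u : ℝ) :
    ∑ t ∈ range q, Real.exp (u * ((t : ℝ) - (q - 1) / 2)) ≤
      Real.exp (Real.log q + u ^ 2 * q ^ 2 / 8) := by
  have hq0 : (0 : ℝ) < q := by exact_mod_cast (by omega : 0 < q)
  have h1 : ∑ t ∈ range q, Real.exp (u * ((t : ℝ) - (q - 1) / 2)) =
      ∑ t ∈ range q, Real.exp (-(u * ((t : ℝ) - (q - 1) / 2))) := by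
    rw [← sum_range_reflect]
    refine sum_congr rfl fun t ht => ?_
    have ht' : t < q := mem_range.1 ht
    have : ((q - 1 - t : ℕ) : ℝ) = q - 1 - t := by
      rw [Nat.sub_sub, Nat.cast_sub (by omega)]; push_cast; ring
    rw [this]; congr 1; ring
  have h2 : ∀ t ∈ range q, Real.exp (u * ((t : ℝ) - (q - 1) / 2)) +
      Real.exp (-(u * ((t : ℝ) - (q - 1) / 2))) ≤ 2 * Real.exp (u ^ 2 * q ^ 2 / 8) := by
    intro t ht
    have ht' : (t : ℝ) + 1 ≤ q := by exact_mod_cast (mem_range.1 ht)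
    have ht0 : (0 : ℝ) ≤ t := Nat.cast_nonneg t
    have h3 := Real.cosh_le_exp_half_sq (u * ((t : ℝ) - (q - 1) / 2))
    rw [Real.cosh_eq] at h3
    have h4 : ((t : ℝ) - (q - 1) / 2) ^ 2 ≤ (q : ℝ) ^ 2 / 4 := by nlinarith
    have h5 : (u * ((t : ℝ) - (q - 1) / 2)) ^ 2 / 2 ≤ u ^ 2 * q ^ 2 / 8 := by
      rw [mul_pow]; nlinarith [sq_nonneg u]
    have h6 := Real.exp_le_exp.2 h5
    linarith
  have h7 := sum_le_sum h2
  rw [sum_add_distrib, ← h1, sum_const, card_range, nsmul_eq_mul] at h7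
  rw [Real.exp_add, Real.exp_log hq0]
  linarith

theorem two_hoe (q : ℕ) (hq : 2 ≤ q) :
    ∑ t ∈ range q, Real.exp (-((t : ℝ) - (q - 1) / 2) ^ 2) ≤
      Real.exp (Real.log q - 1 / (5 * q)) := by
  have hq2 : (2 : ℝ) ≤ q := by exact_mod_cast hq
  have hq0 : (0 : ℝ) < q := by linarith
  obtain ⟨r, hr⟩ : ∃ r, q = r + 1 := ⟨q - 1, by omega⟩
  have h1 : ∑ t ∈ range q, Real.exp (-((t : ℝ) - (q - 1) / 2) ^ 2) ≤ q - 1 / 5 := by
    generalize hc : ((q : ℝ) - 1) / 2 = c
    have hc1 : 1 / 2 ≤ c := by linarith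
    rw [hr, sum_range_succ']
    have h2 : ∑ t ∈ range r, Real.exp (-(((t + 1 : ℕ) : ℝ) - c) ^ 2) ≤ r := by
      have := sum_le_sum (s := range r) (f := fun t => Real.exp (-(((t + 1 : ℕ) : ℝ) - c) ^ 2))
        (g := fun _ => (1 : ℝ)) fun t _ => Real.exp_le_one_iff.2 (neg_nonpos.2 (sq_nonneg _))
      simpa using this
    have h3 : Real.exp (-(((0 : ℕ) : ℝ) - c) ^ 2) ≤ 4 / 5 := by
      have h4 := Real.add_one_le_exp ((((0 : ℕ) : ℝ) - c) ^ 2)
      have h5 : 1 / 4 ≤ (((0 : ℕ) : ℝ) - c) ^ 2 := by push_cast; nlinarith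
      rw [Real.exp_neg, inv_le_comm₀ (Real.exp_pos _) (by norm_num),
        show ((4 : ℝ) / 5)⁻¹ = 1 / 4 + 1 by norm_num]
      exact le_trans (add_le_add_left h5 1) h4
    push_cast at h2 h3 ⊢
    linarith
  have h6 := Real.add_one_le_exp (-(1 / (5 * (q : ℝ))))
  rw [sub_eq_add_neg (Real.log q), Real.exp_add, Real.exp_log hq0]
  have h7 : (q : ℝ) * (-(1 / (5 * (q : ℝ))) + 1) = q - 1 / 5 := by field_simp; ring
  calc _ ≤ (q : ℝ) - 1 / 5 := h1
    _ = q * (-(1 / (5 * (q : ℝ))) + 1) := h7.symm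
    _ ≤ _ := mul_le_mul_of_nonneg_left h6 hq0.le

theorem p_HOE :
    S_HOE := by
  intro q hq
  refine ⟨one_hoe q hq, two_hoe q hq, ?_⟩
  have hq2 : (2 : ℝ) ≤ q := by exact_mod_cast hq
  have h1 := Real.log_le_log (by norm_num) hq2
  have h2 := Real.log_two_gt_d9
  have h3 : 1 / (5 * (q : ℝ)) ≤ 1 / 10 :=
    one_div_le_one_div_of_le (by norm_num) (by linarith)
  linarith

end

section
open Finset
open scoped Classical

theorem p_PAR :
    S_PAR := by
  intro H ζ H0 z0
  obtain ⟨a, a0, ha⟩ : ∃ a : ℝ, 0 < a ∧ H * a = ζ / 8 := ⟨ζ / 8 / H, by positivity, by field_simp⟩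
  obtain ⟨n, hn⟩ := exists_nat_gt (1 / a)
  have n0 : (0 : ℝ) < n := lt_trans (by positivity) hn
  have n1 : 0 < n := by exact_mod_cast n0
  have n2 : (1 : ℝ) ≤ n := by exact_mod_cast n1
  have an : 1 ≤ n * a := ((div_lt_iff₀ a0).1 hn).le
  obtain ⟨lam, l0, hl⟩ : ∃ l : ℝ, 0 < l ∧ n ^ 2 * l = a := ⟨a / n ^ 2, by positivity, by field_simp⟩
  obtain ⟨ε, e0, e1, e2, e3⟩ : ∃ ε : ℝ, 0 < ε ∧ ε ≤ a * a ∧ n * ε ≤ a ∧ ε ≤ lam * lam :=
    ⟨min (a * a) (min (a / n) (lam * lam)), by positivity, min_le_left _ _,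
      (le_div_iff₀' n0).1 ((min_le_right _ _).trans (min_le_left _ _)),
      (min_le_right _ _).trans (min_le_right _ _)⟩
  refine ⟨n, n1, lam, a, ε, l0, a0, e0, n * n, by positivity, fun m hm =>
    ⟨m / n, ?_, Nat.mul_div_le m n, fun d v d0 d1 v0 v1 => ?_⟩⟩
  · exact n1.trans_le ((Nat.le_div_iff_mul_le n1).2 hm)
  have k1 : (n : ℝ) ≤ (m / n : ℕ) := by exact_mod_cast (Nat.le_div_iff_mul_le n1).2 hm
  have k2 : (n : ℝ) * (m / n : ℕ) ≤ m := by exact_mod_cast Nat.mul_div_le m n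
  have k3 : (m : ℝ) ≤ n * (m / n : ℕ) + n := by
    exact_mod_cast (Nat.lt_mul_div_succ m n1).le.trans (by rw [mul_add, mul_one])
  generalize ((m / n : ℕ) : ℝ) = K at k1 k2 k3
  have m0 : (0 : ℝ) ≤ m := m.cast_nonneg
  have K0 : 0 < K := by linarith
  have b1 : n * d ≤ a * m := by nlinarith [mul_le_mul_of_nonneg_right e2 m0]
  have b2 : d ≤ a * m := by nlinarith
  have b3 : d / a ≤ a * m := by
    rw [div_le_iff₀ a0]; nlinarith [mul_le_mul_of_nonneg_right e1 m0]
  have b4 : K ≤ a * m := by nlinarith [mul_le_mul_of_nonneg_left k2 a0.le]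
  have b5 : d / lam ≤ lam * m := by
    rw [div_le_iff₀ l0]; nlinarith [mul_le_mul_of_nonneg_right e3 m0]
  have am : H * (a * m) = ζ * m / 8 := by rw [← mul_assoc, ha]; ring
  have zm : 0 ≤ ζ * m := by positivity
  refine ⟨by nlinarith [mul_le_mul_of_nonneg_left (show d + a * m + d / a + K ≤ 4 * (a * m) by
    linarith) H0.le], ?_⟩
  have c1 : (n : ℝ) ^ 2 * (H * d / lam + lam * H * m) + n * H * d ≤ 3 * (ζ * m / 8) := by
    have c2 : (n : ℝ) ^ 2 * (lam * m) = a * m := by rw [← mul_assoc, hl]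
    have c3 := mul_le_mul_of_nonneg_left b5 (sq_nonneg (n : ℝ))
    have c4 : (n : ℝ) ^ 2 * (d / lam) + n ^ 2 * (lam * m) + n * d ≤ 3 * (a * m) := by linarith
    have c5 := mul_le_mul_of_nonneg_left c4 H0.le
    calc _ = H * ((n : ℝ) ^ 2 * (d / lam) + n ^ 2 * (lam * m) + n * d) := by ring
      _ ≤ _ := by linarith
  have c0 : 0 ≤ (n : ℝ) ^ 2 * (H * d / lam + lam * H * m) + n * H * d := by positivity
  have c6 : (m : ℝ) / (n * K) ≤ 1 + 1 / K := by
    rw [div_le_iff₀ (by positivity)]; field_simp; linarith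
  have c7 : 1 / K ≤ a := by rw [div_le_iff₀ K0]; nlinarith
  have c8 : 1 / K ≤ 1 := by rw [div_le_iff₀ K0]; linarith
  have c9 : 1 / K * v ≤ ζ * m / 8 := by
    have := mul_le_mul c7 v1 v0 a0.le
    nlinarith
  rw [add_assoc]
  generalize (n : ℝ) ^ 2 * (H * d / lam + lam * H * m) + n * H * d = R at c0 c1
  have := mul_le_mul_of_nonneg_right c6 (add_nonneg v0 c0)
  nlinarith [mul_le_mul_of_nonneg_right c8 c0]

end

section
open Finset
open scoped Classical

theorem jensen_lg {C : Type} {A : Finset C} (hA : (0 : ℝ) < #A) (f : C → ℝ) (z : ℝ)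
    (h : ∑ y ∈ A, Real.exp (f y) ≤ Real.exp z) : mn A f ≤ z - Real.log #A := by
  have h1 : ∑ y ∈ A, (f y - (z - Real.log #A)) ≤
      ∑ y ∈ A, (Real.exp (f y) * (#A / Real.exp z) - 1) := sum_le_sum fun y _ => by
    have := Real.add_one_le_exp (f y - (z - Real.log #A))
    rw [Real.exp_sub, Real.exp_sub, Real.exp_log hA, div_div_eq_mul_div, mul_div_assoc] at this
    linarith
  simp only [sum_sub_distrib, ← sum_mul, sum_const, nsmul_eq_mul] at h1
  have h2 := mul_le_mul_of_nonneg_right h (div_pos hA (Real.exp_pos z)).le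
  rw [mul_div_cancel₀ _ (Real.exp_pos z).ne'] at h2
  rw [mn, div_le_iff₀ hA]
  linarith

theorem p_LG (hAVG : S_AVG) :
    S_LG := by
  intro p q m _ D J h z H
  have e := (hAVG p q m D J).2 h (fun _ _ => 1) fun _ _ _ _ _ => rfl
  simp only [one_mul] at e
  rw [Dat.L, ← Dat.E_sub]
  exact e.ge.trans (Dat.E_mono fun x b i => jensen_lg (Dat.A_pos J i) _ _ (H x b i))

end

section
open Finset
open scoped Classical

theorem box_nu (hKAT : S_KAT) {p q m : ℕ} [NeZero p] (D : Dat p q m) (b : Fin m → ZMod p) :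
    (#(D.B b) : ℝ) ≤ Real.exp (m * Real.log q - D.no b / q) := by
  have q0 := D.par.q0'
  have h1 := sum_prod_le (D.B b) D.s D.sinj (fun i => (D.B b).image fun y => D.s y i)
    (fun y hy i => mem_image_of_mem _ hy) (fun _ _ => 1) fun _ _ => zero_le_one
  simp only [prod_const_one, sum_const, nsmul_eq_mul, mul_one] at h1
  refine h1.trans ((prod_le_prod (g := fun i =>
    Real.exp (Real.log q - (if D.a b i = none then 1 else 0) / q))
    (fun i _ => by positivity) fun i _ => ?_).trans (le_of_eq ?_))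
  · obtain ⟨k1, k2⟩ := hKAT p q D.par ((D.B b).image fun y => D.s y i) fun x hx y hy => by
      obtain ⟨x', hx', rfl⟩ := mem_image.1 hx
      obtain ⟨y', hy', rfl⟩ := mem_image.1 hy
      exact Dat.cf_of_In (Dat.mem_B.1 hx') (Dat.mem_B.1 hy') i
    rw [Real.exp_sub, Real.exp_log q0]
    split_ifs with h
    · have k3 : (#((D.B b).image fun y => D.s y i) : ℝ) + 1 ≤ q := by
        exact_mod_cast k2 fun ⟨a, ha⟩ =>
          ob_none.1 h ⟨a, fun y hy => ha _ (mem_image_of_mem _ hy)⟩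
      have k4 := Real.add_one_le_exp (-(1 / q : ℝ))
      rw [div_eq_mul_inv, ← Real.exp_neg]
      have k5 := mul_le_mul_of_nonneg_left k4 q0.le
      rw [mul_add, mul_neg, mul_one_div_cancel q0.ne'] at k5
      linarith
    · simpa using k1
  · rw [← Real.exp_sum, sum_sub_distrib, ← sum_div]
    simp [Dat.no]

theorem p_NU (hKAT : S_KAT) (hLJ : S_LJ) :
    S_NU := by
  intro p q m _ D
  have q0 := D.par.q0'
  refine ⟨Dat.E_nonneg fun _ _ _ => by positivity, ?_⟩
  have h1 := ((hLJ p q m D).2 ∅).1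
  have h2 : D.L ∅ ≤ D.E fun _ b => m * Real.log q - 1 / q * D.no b :=
    Dat.E_mono fun x b h => by
      rw [Real.log_le_iff_le_exp (Dat.A_pos _ h), Dat.A_empty, one_div_mul_eq_div]
      exact box_nu hKAT D b
  rw [Dat.E_sub, Dat.E_const, Dat.E_mul] at h2
  simp only [card_empty, Nat.cast_zero, sub_zero] at h1
  have h3 : 1 / q * D.nu ≤ D.df := by unfold Dat.nu; linarith
  rwa [one_div_mul_eq_div, div_le_iff₀' q0] at h3

end

section
open Finset
open scoped Classical

theorem p_BS (hAVG : S_AVG) :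
    S_BS := by
  intro p q m _ D n J η hη h
  have h1 : ∀ k i, D.E (fun x b => D.M (J k) i x b * D.M (J k) i x b) =
      D.E fun x b => D.M (J k) i x b * D.sg i x b := fun k i =>
    (hAVG p q m D (J k)).2 (D.sg i) (D.M (J k) i) fun x b y hy _ => by
      simp only [Dat.M, Dat.A_eq hy]
  have h2 : ∀ i, ∑ k, 2 * D.E (fun x b => D.M (J k) i x b * D.M (J k) i x b) ≤
      D.E (fun x b => D.sg i x b ^ 2) +
        ∑ k, ∑ l, D.E fun x b => D.M (J k) i x b * D.M (J l) i x b := by
    intro i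
    simp only [h1, ← Dat.E_mul, ← Dat.E_sum, ← Dat.E_add]
    refine Dat.E_mono fun x b _ => ?_
    rw [← sum_mul_sum, ← mul_sum, ← sum_mul]
    nlinarith [sq_nonneg (D.sg i x b - ∑ k, D.M (J k) i x b)]
  have h3 : ∀ k, D.MM (J k) = ∑ i, D.E fun x b => D.M (J k) i x b * D.M (J k) i x b :=
    fun k => by simp only [Dat.MM, sq]
  have h4 := sum_le_sum fun i (_ : i ∈ univ) => h2 i
  rw [sum_add_distrib, sum_comm, sum_comm (f := fun i k => ∑ l, _)] at h4
  have h5 : ∀ k, ∑ i, ∑ l, D.E (fun x b => D.M (J k) i x b * D.M (J l) i x b) ≤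
      D.MM (J k) + n * η := by
    intro k
    rw [sum_comm, ← add_sum_erase _ _ (mem_univ k), ← h3]
    refine add_le_add le_rfl ((sum_le_card_nsmul _ _ η fun l hl =>
      h k l (ne_of_mem_erase hl).symm).trans ?_)
    rw [nsmul_eq_mul]
    refine mul_le_mul_of_nonneg_right (Nat.cast_le.2 ?_) hη
    exact (card_le_univ _).trans_eq (Fintype.card_fin n)
  have h6 := sum_le_sum fun k (_ : k ∈ univ) => h5 k
  simp only [← mul_sum, ← h3] at h4
  rw [sum_add_distrib, sum_const, card_univ, Fintype.card_fin, nsmul_eq_mul] at h6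
  unfold Dat.v
  linarith

end

section
set_option linter.unusedSectionVars false
open Finset
open scoped Classical

section
variable {p q m : ℕ} [NeZero p] (D : Dat p q m)

theorem N_pos_ea {x : D.X} {b : Fin m → ZMod p} (h : D.In x b) : (0 : ℝ) < #(D.B b) := by
  exact_mod_cast card_pos.2 ⟨x, Dat.mem_B.2 h⟩

theorem F_pos_ea {x : D.X} {b : Fin m → ZMod p} (h : D.In x b) : (0 : ℝ) < #(D.Fs x b) := by
  exact_mod_cast card_pos.2 ⟨b, by simpa [Dat.Fs] using h⟩

theorem V_pos_ea {x : D.X} {b : Fin m → ZMod p} (h : D.In x b) : (0 : ℝ) < D.V b :=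
  (N_pos_ea D h).trans_le (by
    exact_mod_cast single_le_sum (f := fun b => #(D.B b)) (fun _ _ => Nat.zero_le _) (by simp))

/-- the weight of a triple -/
noncomputable def q_ea (b b' : Fin m → ZMod p) : ℝ :=
  #(D.B b) * #(D.B b') * Real.exp (#(univ.filter fun l => b' l ≠ b l) / q) / (D.V b * q ^ m)

theorem sum_q_ea (hQQ : S_QQ) (b : Fin m → ZMod p) :
    ∑ x ∈ D.B b, ∑ b' ∈ D.Fs x b, q_ea D b b' ≤ #(D.B b) := by
  rw [sum_comm' (t' := univ.filter fun b' => D.a b' = D.a b)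
    (s' := fun b' => univ.filter fun x => D.In x b ∧ D.In x b') (by simp [Dat.Fs, Dat.B]; tauto)]
  rcases Nat.eq_zero_or_pos (D.V b) with h0 | h0
  · simp [q_ea, h0]
  have h1 : (0 : ℝ) < D.V b := by exact_mod_cast h0
  have q0 := D.par.q0'
  refine (sum_le_sum (g := fun b' => (#(D.B b) / D.V b : ℝ) * #(D.B b')) fun b' _ => ?_).trans ?_
  · have h2 := hQQ p q m D b b'
    rw [sum_const, nsmul_eq_mul, q_ea, ← mul_div_assoc, div_le_iff₀ (by positivity)]
    calc _ = (#(D.B b) * #(D.B b') : ℝ) * (#(univ.filter fun x => D.In x b ∧ D.In x b') *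
          Real.exp (#(univ.filter fun l => b' l ≠ b l) / q)) := by ring
      _ ≤ (#(D.B b) * #(D.B b') : ℝ) * q ^ m := by gcongr
      _ = _ := by field_simp
  · rw [← mul_sum, ← Nat.cast_sum, ← Dat.V, div_mul_cancel₀ _ h1.ne']

end

theorem p_EA (hSW : S_SW) (hQQ : S_QQ) (hAVF : S_AVF) :
    S_EA := by
  intro p q m _ D
  have q0 := D.par.q0'
  have h1 : D.E (fun x b => ∑ b' ∈ D.Fs x b, q_ea D b b') ≤ 1 := by
    rw [Dat.E_eq, (hSW p q m D fun x b => ∑ b' ∈ D.Fs x b, q_ea D b b').1,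
      div_le_one (mul_pos Dat.card_pos (by positivity))]
    refine (sum_le_sum fun b _ => sum_q_ea D hQQ b).trans ?_
    have := (hSW p q m D fun _ _ => (1 : ℝ)).1
    simp only [sum_const, card_univ, Fintype.card_fun, Fintype.card_fin,
      nsmul_eq_mul, mul_one] at this
    rw [← this]; push_cast; rfl
  have h2 : ∀ x b, D.In x b → Real.log #(D.B b) +
      mn (D.Fs x b) (fun b' => Real.log #(D.B b')) + Real.log #(D.Fs x b) -
      Real.log (D.V b) + ((q : ℝ)⁻¹ *
        mn (D.Fs x b) (fun b' => (#(univ.filter fun l => b' l ≠ b l) : ℝ)) -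
          m * Real.log q) ≤ ∑ b' ∈ D.Fs x b, q_ea D b b' - 1 := by
    intro x b h
    have f0 := F_pos_ea D h
    have n0 := N_pos_ea D h
    have v0 := V_pos_ea D h
    have h3 : ∀ b' ∈ D.Fs x b, Real.log #(D.B b) + Real.log #(D.B b') + Real.log #(D.Fs x b) -
        Real.log (D.V b) + ((q : ℝ)⁻¹ * #(univ.filter fun l => b' l ≠ b l) - m * Real.log q) ≤
        #(D.Fs x b) * q_ea D b b' - 1 := by
      intro b' hb
      have n1 := N_pos_ea D (mem_filter.1 hb).2.1
      have h4 := Real.log_le_sub_one_of_pos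
        (show 0 < #(D.Fs x b) * q_ea D b b' by unfold q_ea; positivity)
      rw [q_ea, Real.log_mul f0.ne' (by positivity), Real.log_div (by positivity) (by positivity),
        Real.log_mul (by positivity) (by positivity), Real.log_mul n0.ne' n1.ne',
        Real.log_mul v0.ne' (by positivity), Real.log_pow, Real.log_exp, div_eq_inv_mul] at h4
      rw [q_ea, div_eq_inv_mul _ (q : ℝ)]; linarith
    have h5 := sum_le_sum h3
    simp only [sum_add_distrib, sum_sub_distrib, sum_const, nsmul_eq_mul, ← mul_sum] at h5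
    rw [← mul_le_mul_iff_right₀ f0]
    refine le_of_eq_of_le ?_ (h5.trans_eq ?_)
    · simp only [mn]; field_simp
    · ring
  have h6 := Dat.E_mono h2
  simp only [Dat.E_add, Dat.E_sub, Dat.E_mul, Dat.E_const] at h6 ⊢
  rw [hAVF p q m D fun _ b => Real.log #(D.B b), ← Dat.Ed] at h6
  rw [div_eq_inv_mul]
  linarith

end

section
open Finset
open scoped Classical

theorem arc_ec {α : Type} [DecidableEq α] (T : Finset α) (b : α) {z : ℝ} (hz : 0 < z) :
    ∑ t ∈ T, (if t = b then (1 : ℝ) else z) ≤ 1 + #T * z := by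
  calc ∑ t ∈ T, (if t = b then (1 : ℝ) else z)
      ≤ ∑ t ∈ T, ((if t = b then (1 : ℝ) else 0) + z) :=
        sum_le_sum fun t _ => by split_ifs <;> linarith
    _ ≤ 1 + #T * z := by
        rw [sum_add_distrib, sum_const, nsmul_eq_mul, sum_ite_eq']
        split_ifs <;> linarith

theorem pow_ec {α : Type} [DecidableEq α] {m : ℕ} (b b' : Fin m → α) (z : ℝ) :
    z ^ #(univ.filter fun l => b' l ≠ b l) = ∏ l, (if b' l = b l then (1 : ℝ) else z) := by
  rw [← prod_const, prod_filter]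
  exact prod_congr rfl fun l _ => by by_cases h : b' l = b l <;> simp [h]

theorem point_ec {ι : Type} (F : Finset ι) (hne : F.Nonempty) (d : ι → ℕ) (m q : ℕ) {z : ℝ}
    (hz : 0 < z) (h : ∑ i ∈ F, z ^ d i ≤ (1 + q * z) ^ m) :
    Real.log #F ≤ m * q * z + 1 / z * ((∑ i ∈ F, (d i : ℝ)) / #F) := by
  have hc : (0 : ℝ) < #F := by exact_mod_cast hne.card_pos
  have h1 : (0 : ℝ) < (1 + q * z) ^ m := by positivity
  have g := gibbs F (fun _ => 1 / (#F : ℝ)) (fun i => z ^ d i / (1 + q * z) ^ m)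
    (fun _ _ => by positivity) (fun _ _ => by positivity) (by
      rw [← sum_div, sum_const, nsmul_eq_mul, mul_one_div_cancel hc.ne', div_le_one h1]
      exact h)
  have e : ∀ i ∈ F, 1 / (#F : ℝ) * Real.log (z ^ d i / (1 + q * z) ^ m / (1 / (#F : ℝ))) =
      1 / (#F : ℝ) * (Real.log z * d i) + 1 / (#F : ℝ) *
        (Real.log #F - m * Real.log (1 + q * z)) := fun i _ => by
    rw [div_div_eq_mul_div, div_one, Real.log_mul (by positivity) hc.ne',
      Real.log_div (by positivity) h1.ne', Real.log_pow, Real.log_pow]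
    ring
  rw [sum_congr rfl e, sum_add_distrib, sum_const, nsmul_eq_mul, ← mul_assoc,
    mul_one_div_cancel hc.ne', one_mul, ← mul_sum, ← mul_sum] at g
  have a1 : Real.log (1 + q * z) ≤ q * z := by
    have := Real.log_le_sub_one_of_pos (show 0 < 1 + q * z by positivity)
    linarith
  have a2 : -Real.log z ≤ 1 / z := by
    have := Real.log_le_sub_one_of_pos (show 0 < z⁻¹ by positivity)
    rw [Real.log_inv] at this
    rw [one_div]
    linarith
  have a3 : (0 : ℝ) ≤ (∑ i ∈ F, (d i : ℝ)) / #F := by positivity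
  have a4 := mul_le_mul_of_nonneg_right a2 a3
  have a5 := mul_le_mul_of_nonneg_left a1 (Nat.cast_nonneg (α := ℝ) m)
  have a6 : 1 / (#F : ℝ) * (Real.log z * ∑ i ∈ F, (d i : ℝ)) =
      Real.log z * ((∑ i ∈ F, (d i : ℝ)) / #F) := by ring
  rw [a6] at g
  linarith

theorem p_EC :
    S_EC := by
  intro p q m _ D z hz
  have key : ∀ x b, D.In x b → Real.log #(D.Fs x b) ≤ m * q * z + 1 / z *
      ((∑ b' ∈ D.Fs x b, (#(univ.filter fun l => b' l ≠ b l) : ℝ)) / #(D.Fs x b)) := by
    intro x b hb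
    refine point_ec (D.Fs x b) ⟨b, by simp [Dat.Fs, hb]⟩
      (fun b' => #(univ.filter fun l => b' l ≠ b l)) m q hz ?_
    refine le_trans (le_of_eq (sum_congr rfl fun b' _ => by convert pow_ec b b' z)) ?_
    refine (sum_prod_le (D.Fs x b) id Function.injective_id
      (fun l => univ.filter fun be => ed q be (D.c x l)) (fun b' h l => ?_)
      (fun l be => if be = b l then (1 : ℝ) else z)
      (fun l be => by split_ifs <;> positivity)).trans ?_
    · simp only [Dat.Fs, mem_filter] at h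
      exact mem_filter.2 ⟨mem_univ _, h.2.1 l⟩
    · refine (prod_le_prod (g := fun _ => 1 + q * z)
        (fun l _ => sum_nonneg fun t _ => by split_ifs <;> positivity) fun l _ => ?_).trans
        (by simp)
      have := arc_ec (univ.filter fun be => ed q be (D.c x l)) (b l) hz
      rwa [D.par.card_arc'] at this
  have h := Dat.E_mono key
  rw [Dat.E_add, Dat.E_const, Dat.E_mul] at h
  unfold Dat.phi Dat.Ed
  rw [div_eq_inv_mul _ z, ← one_div]
  exact h

end

section
open Finset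
open scoped Classical

theorem some_psi {p q m : ℕ} [NeZero p] (D : Dat p q m) (J : Finset (Fin m)) (i : Fin m)
    {x : D.X} {b : Fin m → ZMod p} (hx : D.In x b) {al : ZMod p} (h : D.a b i = some al) :
    D.ar J i x b ∧ D.psi J i x b = D.M J i x b - D.sg i x b := by
  have h1 : ∀ y ∈ D.B b, ed q al (D.s y i) := ob_some (v := fun y => D.s y i) h
  have h2 : D.ar J i x b := ⟨al, fun y hy => h1 y (Dat.A_sub J x b hy)⟩
  refine ⟨h2, ?_⟩
  have h3 : D.psi J i x b = mn (D.A J x b) fun z => (lf (D.s x i) (D.s z i) : ℝ) := if_pos h2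
  rw [h3, Dat.M, ← mn_const ⟨x, Dat.self_mem_A J hx⟩ (D.sg i x b), ← mn_sub]
  refine mn_congr fun y hy => ?_
  rw [D.par.lf_ed (h1 x (Dat.mem_B.2 hx)) (h1 y (Dat.A_sub J x b hy))]
  simp only [Dat.sg, h, sgo, Option.elim]
  push_cast
  ring

theorem none_psi {p q m : ℕ} [NeZero p] (D : Dat p q m) (J : Finset (Fin m)) (i : Fin m)
    (x : D.X) {b : Fin m → ZMod p} (h : D.a b i = none) :
    D.sg i x b = 0 ∧ D.M J i x b = 0 ∧ D.psi ∅ i x b = 0 := by
  have h1 : ∀ y, D.sg i y b = 0 := fun y => by simp only [Dat.sg, h, sgo, Option.elim]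
  refine ⟨h1 x, by simp only [Dat.M, h1, mn, sum_const_zero, zero_div], ?_⟩
  have h2 : ¬ arc q (fun y => D.s y i) (D.A ∅ x b) := by
    rw [Dat.A_empty]
    exact ob_none.1 h
  exact if_neg h2

theorem nu_psi {p q m : ℕ} [NeZero p] (D : Dat p q m) :
    ∑ i, D.E (fun _ b => ind (D.a b i = none)) = D.nu := by
  rw [← Dat.E_sum]
  refine Dat.E_congr fun x b _ => ?_
  simp only [Dat.no, card_filter, ind]
  push_cast
  exact sum_congr rfl fun i _ => by split_ifs <;> rfl

theorem p_PSI (hAVG : S_AVG) :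
    S_PSI := by
  intro p q m _ D J
  have hM : ∀ (J : Finset (Fin m)) i,
      D.E (fun x b => (D.M J i x b - D.sg i x b) ^ 2) =
        D.E (fun x b => D.sg i x b ^ 2) - D.E fun x b => D.M J i x b ^ 2 := by
    intro J i
    have h3 := (hAVG p q m D J).2 (D.sg i) (D.M J i) fun x b y hy _ => by
      rw [Dat.M, Dat.M, Dat.A_eq hy]
    have h4 : D.E (fun x b => D.M J i x b ^ 2) = D.E fun x b => D.M J i x b * D.sg i x b := by
      rw [← h3]
      exact Dat.E_congr fun x b _ => by rw [sq]; rfl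
    have h5 : D.E (fun x b => (D.M J i x b - D.sg i x b) ^ 2) = D.E fun x b =>
        (D.sg i x b ^ 2 - 2 * (D.M J i x b * D.sg i x b)) + D.M J i x b ^ 2 :=
      Dat.E_congr fun x b _ => by ring
    rw [h5, Dat.E_add, Dat.E_sub, Dat.E_mul, ← h4]
    ring
  have h1 : D.v - D.MM J ≤ D.ep J := by
    rw [Dat.v, Dat.MM, Dat.ep, ← sum_sub_distrib]
    refine sum_le_sum fun i _ => ?_
    rw [← hM J i]
    refine Dat.E_mono fun x b hx => ?_
    rcases h : D.a b i with _ | al
    · obtain ⟨a1, a2, -⟩ := none_psi D J i x h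
      rw [a1, a2, sub_self, sq, zero_mul]
      positivity
    · rw [(some_psi D J i hx h).2]
  have h2 : D.ep J ≤ D.e J := by
    refine sum_le_sum fun i _ => Dat.E_mono fun x b _ => ?_
    have := ind_nonneg (¬ D.ar J i x b)
    have : 0 ≤ 3 * (q : ℝ) ^ 2 * ind (¬ D.ar J i x b) := by positivity
    linarith
  have h3 : D.e ∅ ≤ D.v + 3 * q ^ 2 * D.nu := by
    rw [Dat.e, Dat.v, ← nu_psi, mul_sum, ← sum_add_distrib]
    refine sum_le_sum fun i _ => ?_
    have a1 : D.E (fun x b => D.psi ∅ i x b ^ 2 + 3 * q ^ 2 * ind (¬ D.ar ∅ i x b)) ≤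
        D.E fun x b => (D.M ∅ i x b - D.sg i x b) ^ 2 + 3 * q ^ 2 * ind (D.a b i = none) := by
      refine Dat.E_mono fun x b hx => ?_
      rcases h : D.a b i with _ | al
      · obtain ⟨a1, a2, a3⟩ := none_psi D ∅ i x h
        have a4 := ind_le (¬ D.ar ∅ i x b)
        have a5 : ind ((none : Option (ZMod p)) = none) = 1 := if_pos rfl
        rw [a1, a2, a3, sub_self, a5]
        gcongr
      · obtain ⟨a1, a2⟩ := some_psi D ∅ i hx h
        have a4 : ind (¬ D.ar ∅ i x b) = 0 := if_neg (not_not.2 a1)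
        have a5 := ind_nonneg (some al = none)
        rw [a2, a4]
        gcongr
    refine a1.trans ?_
    rw [Dat.E_add, Dat.E_mul, hM]
    have a2 : 0 ≤ D.E fun x b => D.M ∅ i x b ^ 2 := Dat.E_nonneg fun _ _ _ => sq_nonneg _
    linarith
  refine ⟨h1, by linarith, ?_⟩
  rw [Dat.MM, ← nu_psi, mul_sum, ← sum_add_distrib]
  refine sum_le_sum fun i _ => ?_
  rw [← Dat.E_mul, ← Dat.E_add]
  refine Dat.E_mono fun x b hx => ?_
  rcases h : D.a b i with _ | al
  · obtain ⟨a1, a2, -⟩ := none_psi D J i x h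
    have a5 : ind ((none : Option (ZMod p)) = none) = 1 := if_pos rfl
    have a6 := abs_le.1 (Dat.abs_psi_le J i hx)
    rw [a1, a2, a5]
    nlinarith [a6.1, a6.2]
  · have a5 := ind_nonneg (some al = none)
    rw [(some_psi D J i hx h).2, sub_add_cancel]
    have : 0 ≤ (q : ℝ) ^ 2 * ind (some al = none) := by positivity
    linarith

end

section
open Finset
open scoped Classical

theorem p_BOX :
    S_BOX := by
  intro p q m _ D J j x b hj _ y hy r
  obtain ⟨h1, -⟩ := Dat.mem_Cy.1 hy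
  have key : ∀ z, D.In z (Function.update b j r) ↔
      ed q r (D.c z j) ∧ ∀ l, l ≠ j → ed q (b l) (D.c z l) := fun z =>
    ⟨fun h => ⟨by simpa using h j, fun l e => by simpa only [Function.update_of_ne e] using h l⟩,
      fun h l => by
        by_cases e : l = j
        · subst e; simpa using h.1
        · simpa only [Function.update_of_ne e] using h.2 l e⟩
  refine ⟨?_, fun hr => ?_⟩
  · ext z
    rw [Dat.mem_A, mem_bo, Dat.mem_Cy, key]
    exact ⟨fun h => ⟨⟨fun l hl => (h.2 l hl).trans (h1 l hl), h.1.2⟩, h.1.1⟩,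
      fun h => ⟨⟨h.2, h.1.2⟩, fun l hl => (h.1.1 l hl).trans (h1 l hl).symm⟩⟩
  · ext z
    rw [Dat.mem_A, mem_ce, Dat.mem_Cy, key, forall_mem_insert]
    exact ⟨fun h => ⟨⟨fun l hl => (h.2.2 l hl).trans (h1 l hl), h.1.2⟩, h.2.1⟩,
      fun h => ⟨⟨h.2 ▸ hr, h.1.2⟩, h.2, fun l hl => (h.1.1 l hl).trans (h1 l hl).symm⟩⟩

end

section
open Finset
open scoped Classical

theorem cE_ind_nonneg_uu {m q : ℕ} (P : (Fin m → Fin q) → Prop) : 0 ≤ cE fun β => ind (P β) :=
  div_nonneg (sum_nonneg fun _ _ => ind_nonneg _) (by positivity)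

theorem p_UU (hBD0 : S_BD0) (hBOX : S_BOX) (hAVJ : S_AVJ) (hUT : S_UT) :
    S_UU := by
  intro p q m _ D κ J hκ hκ1
  have h1 : ∀ x, (#(D.U κ J x) : ℝ) ≤
      ∑ j, 8 * cE fun β => ind (¬ D.good κ J j x (D.bx x β)) := by
    intro x
    rw [card_eq_sum_ones, Nat.cast_sum, Dat.U, sum_filter]
    refine sum_le_sum fun j _ => ?_
    have := cE_ind_nonneg_uu fun β : Fin m → Fin q => ¬ D.good κ J j x (D.bx x β)
    split_ifs with h
    · push_cast; linarith
    · linarith
  have h2 : D.xE (fun x => (#(D.U κ J x) : ℝ)) ≤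
      ∑ j, 8 * D.E fun x b => ind (¬ D.good κ J j x b) := by
    have hc := Dat.card_pos (D := D)
    calc _ ≤ (∑ x, ∑ j, 8 * cE fun β => ind (¬ D.good κ J j x (D.bx x β))) /
          Fintype.card D.X :=
          div_le_div_of_nonneg_right (sum_le_sum fun x _ => h1 x) hc.le
      _ = _ := by
          rw [sum_comm, sum_div]
          refine sum_congr rfl fun j _ => ?_
          rw [Dat.E, Dat.xE, ← mul_sum, mul_div_assoc]
  have h3 : ∀ j ∈ Jᶜ, D.E (fun x b => ind (¬ D.good κ J j x b)) ≤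
      4 * q ^ 2 * p ^ 3 / κ ^ 2 * D.E fun x b => D.tau J j x b ^ 2 := by
    intro j hj
    have hj' : j ∉ J := mem_compl.1 hj
    rw [← hAVJ p q m D J j fun y b => D.tau J j y b ^ 2, ← Dat.E_mul]
    refine Dat.E_mono fun x b hb => ?_
    unfold ind
    split_ifs with h
    · refine mul_nonneg (by positivity) (mn_nonneg fun y _ => ?_)
      exact div_nonneg (sum_nonneg fun t _ => sq_nonneg _) (by positivity)
    · have hb' : ¬ bal (D.Cy J j x b) (fun y => D.c y j) κ := fun e => h (Or.inr e)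
      refine (hBD0 p q D.par D.X _ _ κ hκ hκ1 hb').trans_eq ?_
      congr 1
      refine mn_congr fun y hy => ?_
      rw [Dat.mt]
      congr 1
      refine sum_congr rfl fun t _ => ?_
      rw [Dat.tau, Dat.rs, (hBOX p q m D J j x b hj' hb y hy _).1, Function.update_self]
  have h4 : ∀ j ∈ J, D.E (fun x b => ind (¬ D.good κ J j x b)) = 0 := by
    intro j hj
    rw [← Dat.E_const (D := D) 0]
    refine Dat.E_congr fun x b _ => ?_
    simp [ind, Dat.good, hj]
  have h5 := hUT p q m D J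
  rw [← sum_add_sum_compl J, sum_eq_zero (fun j hj => by rw [h4 j hj, mul_zero]), zero_add] at h2
  calc _ ≤ _ := h2
    _ ≤ ∑ j ∈ Jᶜ, 8 * (4 * q ^ 2 * p ^ 3 / κ ^ 2) * D.E fun x b => D.tau J j x b ^ 2 :=
        sum_le_sum fun j hj => by linarith [h3 j hj]
    _ ≤ 8 * (4 * q ^ 2 * p ^ 3 / κ ^ 2) * (2 * D.df) := by
        rw [← mul_sum]
        exact mul_le_mul_of_nonneg_left h5 (by positivity)
    _ = _ := by ring

end

section
open Finset
open scoped Classical

theorem pyth_en {p q m : ℕ} [NeZero p] {D : Dat p q m} (j : Fin m)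
    (F g : D.X → (Fin m → ZMod p) → ℝ) (hg : ∀ x b, D.In x b → ∀ t, g x (D.rs j x b t) = g x b) :
    D.E (fun x b => g x b * (F x b - D.mt j F x b) ^ 2) =
      D.E (fun x b => g x b * F x b ^ 2) - D.E fun x b => g x b * D.mt j F x b ^ 2 := by
  have h1 : D.E (fun x b => g x b * D.mt j F x b * F x b) =
      D.E fun x b => g x b * D.mt j F x b ^ 2 := by
    rw [← Dat.E_mt j]
    refine Dat.E_congr fun x b h => ?_
    have e : ∀ t, D.mt j F x (D.rs j x b t) = D.mt j F x b := fun t => Dat.mt_upd j F x b _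
    rw [Dat.mt]
    simp only [hg x b h, e]
    rw [← mul_sum, mul_div_assoc, ← Dat.mt]; ring
  have h2 : D.E (fun x b => g x b * (F x b - D.mt j F x b) ^ 2) =
      D.E fun x b => g x b * F x b ^ 2 + g x b * D.mt j F x b ^ 2 -
        2 * (g x b * D.mt j F x b * F x b) := Dat.E_congr fun x b _ => by ring
  rw [h2, Dat.E_sub, Dat.E_add, Dat.E_mul, h1]; ring

theorem p_EN :
    S_EN := by
  intro p q m _ D J κ
  have key : ∀ i j x b, D.In x b → D.psi J i x b - D.mt j (D.psi J i) x b =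
      D.del J i j x b - D.mt j (D.del J i j) x b := by
    intro i j x b h
    have hA : ∀ t, D.A (insert j J) x (D.rs j x b t) = D.A (insert j J) x b := fun t => by
      ext z
      simp only [Dat.mem_A, forall_mem_insert]
      refine and_congr_left fun e => forall_congr' fun l => ?_
      by_cases hl : l = j
      · subst hl
        rw [e.1]
        exact iff_of_true (Dat.In_rs l h t l) (h l)
      · rw [Dat.rs, Function.update_of_ne hl]
    have := D.par.q0'
    simp only [Dat.mt, Dat.del, Dat.psi, hA, sum_sub_distrib, sum_const, card_univ,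
      Fintype.card_fin, nsmul_eq_mul]
    field_simp
    ring
  refine ⟨?_, sum_nonneg fun i _ => sum_nonneg fun j _ => Dat.E_nonneg fun x b _ => sq_nonneg _,
    sum_nonneg fun i _ => sum_nonneg fun j _ => Dat.E_nonneg fun x b _ => ind_nonneg _,
    sum_le_sum fun i _ => sum_le_sum fun j _ => ?_⟩
  · unfold Dat.En Dat.Dr Dat.G
    rw [← sum_sub_distrib]
    refine sum_congr rfl fun i _ => ?_
    rw [← sum_sub_distrib]
    refine sum_congr rfl fun j _ => ?_
    have := pyth_en j (D.del J i j) (fun _ _ => 1) fun _ _ _ _ => rfl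
    simp only [one_mul] at this
    rw [← this]
    exact Dat.E_congr fun x b h => by rw [key i j x b h]
  · have := pyth_en j (D.del J i j) (fun x b => ind (D.good κ J j x b)) fun x b h t => by
      rw [Dat.good_rs κ J j h]
    rw [Dat.E_congr (F' := fun x b => ind (D.good κ J j x b) *
      (D.del J i j x b - D.mt j (D.del J i j) x b) ^ 2) fun x b h => by rw [key i j x b h], this]
    exact sub_le_self _ (Dat.E_nonneg fun x b _ => mul_nonneg (ind_nonneg _) (sq_nonneg _))

end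

section
open Finset
open scoped Classical

theorem arc_kb (hK0 : S_K0) {p q : ℕ} [NeZero p] (P : Par p q) {t : ℝ} (ht : 0 < t)
    (a : ZMod p) : ∑ x ∈ univ.filter (ed q a), ∑ y ∈ univ.filter (ed q a), k0 q x y ^ (t - 1) =
      q * ks p q t := by
  obtain ⟨h1, h2, h3, h4, -⟩ := hK0 p q P
  have e1 : ∀ b : ZMod p,
      ∑ x ∈ univ.filter (ed q b), ∑ y ∈ univ.filter (ed q b), k0 q x y ^ (t - 1) =
        ∑ i ∈ range q, ∑ j ∈ range q, k0 q (i : ZMod p) j ^ (t - 1) := fun b => by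
    rw [P.sum_arc]
    refine sum_congr rfl fun i _ => ?_
    rw [P.sum_arc]
    exact sum_congr rfl fun j _ => by rw [add_comm b, add_comm b, h3]
  have e2 : ∑ b : ZMod p, ∑ x ∈ univ.filter (ed q b), ∑ y ∈ univ.filter (ed q b),
      k0 q x y ^ (t - 1) = ∑ x : ZMod p, ∑ y : ZMod p, q * k0 q x y ^ t := by
    simp only [sum_filter]
    rw [sum_comm]
    refine sum_congr rfl fun x _ => ?_
    have e3 : ∀ b : ZMod p, (if ed q b x then ∑ y, if ed q b y then k0 q x y ^ (t - 1) else 0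
        else 0) = ∑ y, if ed q b x ∧ ed q b y then k0 q x y ^ (t - 1) else 0 := fun b => by
      by_cases e : ed q b x <;> simp [e]
    simp only [e3]
    rw [sum_comm]
    refine sum_congr rfl fun y _ => ?_
    rw [← sum_filter, sum_const, nsmul_eq_mul, h1, mul_assoc, mul_comm (k0 q x y),
      ← Real.rpow_add_one' (h2 x y).1 (by linarith), sub_add_cancel]
  simp only [e1, ← mul_sum, h4, sum_const, card_univ, ZMod.card, nsmul_eq_mul] at e2
  have p0 : (p : ℝ) ≠ 0 := by exact_mod_cast NeZero.ne p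
  rw [e1]
  exact mul_left_cancel₀ p0 (e2.trans (by ring))

theorem p_KB (hKAT : S_KAT) (hK0 : S_K0) :
    S_KB := by
  intro p q _ P t ht ht1 hq Q hQ
  obtain ⟨-, h2, -, -, h5⟩ := hK0 p q P
  by_cases h : ∃ a, ∀ x ∈ Q, ed q a x
  · obtain ⟨a, ha⟩ := h
    have hs : Q ⊆ univ.filter (ed q a) := fun x hx => mem_filter.2 ⟨mem_univ _, ha x hx⟩
    rw [← arc_kb hK0 P ht a]
    refine (sum_le_sum fun x _ => sum_le_sum_of_subset_of_nonneg hs
      fun y _ _ => Real.rpow_nonneg (h2 x y).1 _).trans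
      (sum_le_sum_of_subset_of_nonneg hs fun x _ _ =>
        sum_nonneg fun y _ => Real.rpow_nonneg (h2 x y).1 _)
  · have h6 : (#Q : ℝ) + 1 ≤ q := by exact_mod_cast (hKAT p q P Q hQ).2 h
    have q0 := P.q0'
    have h7 : ∀ x ∈ Q, ∀ y ∈ Q, k0 q x y ^ (t - 1) ≤ (q : ℝ) ^ (1 - t) := fun x hx y hy => by
      refine (Real.rpow_le_rpow_of_nonpos (by positivity) ((h2 x y).2.2.2.1 (hQ x hx y hy))
        (by linarith)).trans (le_of_eq ?_)
      rw [one_div, Real.inv_rpow q0.le, ← Real.rpow_neg q0.le, neg_sub]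
    have h8 : ∑ x ∈ Q, ∑ y ∈ Q, k0 q x y ^ (t - 1) ≤ (q : ℝ) ^ (1 - t) * (#Q : ℝ) ^ 2 := by
      refine (sum_le_sum fun x hx => sum_le_sum (h7 x hx)).trans (le_of_eq ?_)
      simp only [sum_const, nsmul_eq_mul]
      ring
    have h9 : (#Q : ℝ) ^ 2 ≤ (q - 1) ^ 2 := pow_le_pow_left₀ (by positivity) (by linarith) 2
    have h10 := mul_le_mul_of_nonneg_left h9 (Real.rpow_nonneg q0.le (1 - t))
    have h11 := mul_le_mul_of_nonneg_left (h5 t ht ht1.le).1 q0.le
    nlinarith

end

section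
open Finset
open scoped Classical

theorem mean_st1 {B R t : ℝ} (s : ℝ) (hB : 0 < B) (hR : 0 < R) (t0 : 0 < t) (t1 : t < 1) :
    B ^ t ≤ Real.exp ((1 - t) * s) * (B * R ^ (t - 1)) + Real.exp (-t * s) * R ^ t := by
  have c := convexOn_exp.2 (Set.mem_univ ((1 - t) * s + (Real.log B + Real.log R * (t - 1))))
    (Set.mem_univ (-t * s + Real.log R * t)) t0.le (sub_nonneg.2 t1.le) (add_sub_cancel _ _)
  simp only [smul_eq_mul] at c
  rw [show t * ((1 - t) * s + (Real.log B + Real.log R * (t - 1))) +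
    (1 - t) * (-t * s + Real.log R * t) = Real.log B * t by ring, Real.exp_add, Real.exp_add,
    Real.exp_add, Real.exp_log hB, ← Real.rpow_def_of_pos hB, ← Real.rpow_def_of_pos hR,
    ← Real.rpow_def_of_pos hR] at c
  refine c.trans (add_le_add (mul_le_of_le_one_left (by positivity) t1.le)
    (mul_le_of_le_one_left (by positivity) (by linarith)))

theorem p_ST1 (hKPS : S_KPS) (hTEN : S_TEN) (hNB : S_NB) (hNA : S_NA) (hK0 : S_K0) :
    S_ST1 := by
  intro p q _ hp
  obtain ⟨t, t0, t1, tq, ht⟩ := hKPS p q hp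
  obtain ⟨-, k1, -, -, k2⟩ := hK0 p q hp
  have q0 := hp.q0'
  have q2 : (2 : ℝ) ≤ q := by exact_mod_cast hp.q2
  have p1 : (1 : ℝ) ≤ p := by exact_mod_cast NeZero.one_le
  have ks0 : 0 < ks p q t := q0.trans_le (k2 t t0 t1.le).1
  set r : ℝ := 1 - 1 / (q * p) with hr
  have r1 : r < 1 := sub_lt_self _ (by positivity)
  have r0 : 0 < r := sub_pos.2 ((div_lt_one (by positivity)).2 (by nlinarith))
  have l0 : Real.log r < 0 := Real.log_neg r0 r1
  refine ⟨Real.exp ((1 - t) * Real.log r / 2), Real.exp_pos _,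
    Real.exp_lt_one_iff.2 (by nlinarith), fun m P K => ?_⟩
  set S := univ.filter fun x => K ≤ #(P.sp x) with hS
  set w := Real.exp ((1 - t) * Real.log r / 2) ^ K with hw
  have w0 : 0 < w := by positivity
  have e1 : Real.exp ((1 - t) * (K * Real.log r)) = w ^ 2 := by
    rw [hw, ← pow_mul, ← Real.exp_nat_mul]
    congr 1
    push_cast
    ring
  have e2 : Real.exp (-t * (K * Real.log r)) * r ^ K = w ^ 2 := by
    rw [← e1, ← Real.exp_log (pow_pos r0 K), ← Real.exp_add, Real.log_pow]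
    congr 1
    ring
  have a := hTEN (ZMod p) (fun x y => k0 q x y ^ t) (ks p q t / p) (by positivity)
    (fun x y => by rw [(k1 x y).2.2.1]) ht m P.X S P.c
  set F : P.X → P.X → ℝ := fun x y =>
    (∏ l, k0 q (P.c x l) (P.c y l)) * ∏ i, k0 q (P.s x i) (P.s y i) ^ (t - 1) with hF
  set G : P.X → P.X → ℝ := fun x y => ∏ i, k0 q (P.s x i) (P.s y i) ^ t with hG
  have F0 : ∀ x y, 0 ≤ F x y := fun x y =>
    mul_nonneg (prod_nonneg fun _ _ => (k1 _ _).1)
      (prod_nonneg fun _ _ => Real.rpow_nonneg (k1 _ _).1 _)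
  have G0 : ∀ x y, 0 ≤ G x y := fun x y => prod_nonneg fun _ _ => Real.rpow_nonneg (k1 _ _).1 _
  have b : ∀ x y, ∏ l, k0 q (P.c x l) (P.c y l) ^ t ≤ w ^ 2 * F x y +
      Real.exp (-t * (K * Real.log r)) * if y ∈ P.nb x then G x y else 0 := by
    intro x y
    by_cases h : y ∈ P.nb x
    · have h1 : ∀ l, cf q (P.c x l) (P.c y l) := (mem_filter.1 h).2
      have pos : ∀ a b : ZMod p, cf q a b → 0 < k0 q a b := fun a b e =>
        lt_of_lt_of_le (by positivity) ((k1 a b).2.2.2.1 e)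
      rw [if_pos h, hF, hG]
      simp only
      rw [Real.finsetProd_rpow _ _ (fun _ _ => (k1 _ _).1),
        Real.finsetProd_rpow _ _ (fun _ _ => (k1 _ _).1),
        Real.finsetProd_rpow _ _ (fun _ _ => (k1 _ _).1), ← e1]
      exact mean_st1 _ (prod_pos fun l _ => pos _ _ (h1 l))
        (prod_pos fun i _ => pos _ _ (P.lip x y h1 i)) t0 t1
    · obtain ⟨l, hl⟩ : ∃ l, ¬ cf q (P.c x l) (P.c y l) := by simpa [Pre.nb] using h
      rw [if_neg h, mul_zero, add_zero,
        prod_eq_zero (mem_univ l) (by rw [(k1 _ _).2.2.2.2 hl, Real.zero_rpow t0.ne'])]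
      exact mul_nonneg (by positivity) (F0 x y)
  have c1 : ∑ x ∈ S, ∑ y ∈ S, F x y ≤ (p * ks p q t) ^ m :=
    le_trans ((sum_le_sum fun x _ => sum_le_sum_of_subset_of_nonneg (subset_univ S)
      fun y _ _ => F0 x y).trans (sum_le_sum_of_subset_of_nonneg (subset_univ S)
        fun x _ _ => sum_nonneg fun y _ => F0 x y)) (hNB p q m P t t0 t1 tq)
  have c2 : ∀ x ∈ S, (∑ y ∈ S, if y ∈ P.nb x then G x y else 0) ≤ ks p q t ^ m * r ^ K := by
    intro x hx
    rw [← sum_filter]
    refine (sum_le_sum_of_subset_of_nonneg (fun y hy => (mem_filter.1 hy).2)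
      fun y _ _ => G0 x y).trans (((hNA p q m P x).1 t t0 t1.le).trans ?_)
    exact mul_le_mul_of_nonneg_left (pow_le_pow_of_le_one r0.le r1.le (mem_filter.1 hx).2)
      (by positivity)
  have c3 : (#S : ℝ) ≤ p ^ m := by
    have := Fintype.card_le_of_injective _ P.sinj
    rw [Fintype.card_fun, ZMod.card, Fintype.card_fin] at this
    exact_mod_cast (card_le_univ S).trans this
  have d : (ks p q t / p) ^ m * (#S : ℝ) ^ 2 ≤ ks p q t ^ m * (w ^ 2 * (p ^ m + #S)) := by
    refine a.trans ((sum_le_sum fun x _ => sum_le_sum fun y _ => b x y).trans ?_)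
    simp only [sum_add_distrib, ← mul_sum]
    have c4 := sum_le_sum c2
    rw [sum_const, nsmul_eq_mul] at c4
    refine (add_le_add (mul_le_mul_of_nonneg_left c1 (by positivity))
      (mul_le_mul_of_nonneg_left c4 (by positivity))).trans (le_of_eq ?_)
    rw [mul_pow]
    linear_combination (#S * ks p q t ^ m) * e2
  rw [div_pow, div_mul_eq_mul_div, div_le_iff₀ (by positivity), mul_assoc] at d
  have d' := le_of_mul_le_mul_left d (by positivity)
  have pm : (0 : ℝ) < p ^ m := by positivity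
  refine abs_le_of_sq_le_sq' ?_ (by positivity) |>.2
  calc (#S : ℝ) ^ 2 ≤ w ^ 2 * (p ^ m + p ^ m) * p ^ m := d'.trans (by gcongr)
    _ ≤ _ := by nlinarith [mul_pos (mul_pos pm pm) (mul_pos w0 w0)]

end

section
open Finset
open scoped Classical

theorem p_ST2 (hNA : S_NA) :
    S_ST2 := by
  intro p q m _ P κ
  have h0 := card_filter_add_card_filter_not (s := (univ : Finset P.X)) fun x => κ ≤ #(P.sp x)
  rw [card_univ] at h0
  set S := univ.filter fun x => ¬κ ≤ #(P.sp x) with hS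
  rcases S.eq_empty_or_nonempty with e | ⟨x₀, h₀⟩
  · rw [e, card_empty] at h0
    exact .inl h0.ge
  obtain ⟨T, -, hT, hi⟩ := exists_subset_injOn_image_eq_of_surjOn (f := P.c) (S : Set P.X)
    (S.image P.c) (by rw [coe_image]; exact Set.surjOn_image _ _)
  have h1 : #S ≤ p ^ κ * #(S.image P.c) := card_le_mul_card_image S _ fun b hb => by
    obtain ⟨x, hx, rfl⟩ := mem_image.1 hb
    exact (card_le_card (filter_subset_filter _ (subset_univ S))).trans
      ((hNA p q m P x).2.trans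
        (pow_le_pow_right₀ (NeZero.pos p) (not_le.1 (mem_filter.1 hx).2).le))
  obtain ⟨y₀, hy₀, -⟩ := mem_image.1 (hi.ge (mem_image_of_mem _ h₀))
  refine .inr ⟨{ X := T
                 par := P.par
                 c := fun x => P.c x
                 s := fun x => P.s x
                 sinj := P.sinj.comp Subtype.val_injective
                 lip := fun x y => P.lip x y
                 nw := fun j r => P.nw j fun t => r t
                 cinj := fun x y e => Subtype.ext (hT x.2 y.2 e)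
                 ne := ⟨⟨y₀, hy₀⟩⟩ }, ?_⟩
  rw [← hi, card_image_of_injOn hT, ← Fintype.card_coe T] at h1
  exact h0.ge.trans (Nat.add_le_add_left h1 _)

end

end Pool.Agent.P.MP_263185_co.AQ
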