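import Pool.Agent.P.MP_263185_co.AQ.M1
import Pool.Agent.P.MP_263185_co.AQ.M2
import Pool.Agent.P.MP_263185_co.AQ.M3
import Pool.Agent.P.MP_263185_co.AQ.M4

/-! All steps together. -/

namespace Pool.Agent.P.MP_263185_co.AQ

theorem t_K0 : S_K0 := p_K0
theorem t_PD0 : S_PD0 := p_PD0 t_K0
theorem t_KPS : S_KPS := p_KPS t_PD0 t_K0
theorem t_TEN : S_TEN := p_TEN
theorem t_KAT : S_KAT := p_KAT
theorem t_KB : S_KB := p_KB t_KAT t_K0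
theorem t_NB : S_NB := p_NB t_KB t_K0
theorem t_NA : S_NA := p_NA t_K0
theorem t_ST1 : S_ST1 := p_ST1 t_KPS t_TEN t_NB t_NA t_K0
theorem t_ST2 : S_ST2 := p_ST2 t_NA
theorem t_SW : S_SW := p_SW
theorem t_AVG : S_AVG := p_AVG t_SW
theorem t_PSI : S_PSI := p_PSI t_AVG
theorem t_EN : S_EN := p_EN
theorem t_CP : S_CP := p_CP
theorem t_CA : S_CA := p_CA
theorem t_CUB : S_CUB := p_CUB t_CP t_CA
theorem t_FIN : S_FIN := p_FIN t_PSI t_EN t_CUB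
theorem t_PAR : S_PAR := p_PAR
theorem t_LIFT : S_LIFT := p_LIFT
theorem t_W1 : S_W1 := p_W1
theorem t_DEC : S_DEC := p_DEC
theorem t_HARM : S_HARM := p_HARM t_DEC
theorem t_TB : S_TB := p_TB t_DEC
theorem t_GA : S_GA := p_GA t_LIFT t_W1 t_HARM t_TB t_DEC
theorem t_G0 : S_G0 := p_G0 t_GA t_DEC
theorem t_BOX : S_BOX := p_BOX
theorem t_GOOD : S_GOOD := p_GOOD t_G0 t_BOX
theorem t_AVJ : S_AVJ := p_AVJ t_SW
theorem t_EG : S_EG := p_EG t_EN t_GOOD t_AVJ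
theorem t_PERM : S_PERM := p_PERM
theorem t_MART : S_MART := p_MART t_AVG
theorem t_BS : S_BS := p_BS t_AVG
theorem t_LG : S_LG := p_LG t_AVG
theorem t_MG : S_MG := p_MG
theorem t_HOE : S_HOE := p_HOE
theorem t_MH : S_MH := p_MH t_MG t_HOE
theorem t_BZ : S_BZ := p_BZ t_AVG t_MH
theorem t_LU : S_LU := p_LU
theorem t_LJ : S_LJ := p_LJ t_LU t_SW
theorem t_BES : S_BES := p_BES t_LG t_BZ t_LJ
theorem t_NU : S_NU := p_NU t_KAT t_LJ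
theorem t_VT : S_VT := p_VT t_LG t_MH t_LJ
theorem t_DROP : S_DROP := p_DROP t_PERM t_MART t_PSI t_BS t_BES t_NU t_LJ t_VT
theorem t_U2 : S_U2 := p_U2 t_LU t_HOE t_SW
theorem t_CO : S_CO := p_CO
theorem t_AU : S_AU := p_AU t_U2 t_CO t_PSI
theorem t_CYC : S_CYC := p_CYC
theorem t_BD0 : S_BD0 := p_BD0 t_CYC t_DEC
theorem t_UT : S_UT := p_UT t_LG t_LJ t_AVG
theorem t_UU : S_UU := p_UU t_BD0 t_BOX t_AVJ t_UT
theorem t_QQ : S_QQ := p_QQ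
theorem t_AVF : S_AVF := p_AVF t_SW
theorem t_EA : S_EA := p_EA t_SW t_QQ t_AVF
theorem t_EB : S_EB := p_EB t_LU t_SW t_MH
theorem t_EC : S_EC := p_EC
theorem t_E1 : S_E1 := p_E1 t_LJ t_EA t_EB t_EC
theorem t_U1 : S_U1 := p_U1 t_LG t_MH t_AVG t_LJ
theorem t_CORE : S_CORE := p_CORE t_FIN t_PAR t_EG t_DROP t_AU t_UU t_E1 t_U1 t_VT t_NU t_LJ
theorem t_PRE : S_PRE := p_PRE t_ST1 t_ST2 t_CORE
theorem t_THA : S_THA := p_THA t_PRE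

end Pool.Agent.P.MP_263185_co.AQ
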